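import Pool.Agent.W_63dac5_h39.Stk

/-!
# One stub more: the Lipschitz property of `cut k` (proofs row 559, step 4)
-/

set_option autoImplicit false

namespace Pool.Agent.W_63dac5_h39

open Pool.Agent.W_MP_63dac5_pr Pool.Agent.W_63dac5_h37

/-- `u'` is `u` or has one unit more in one place -/
inductive Adj : List ℕ → List ℕ → Prop
  | refl (u : List ℕ) : Adj u u
  | here (c : ℕ) (t : List ℕ) : Adj (c :: t) ((c + 1) :: t)
  | there (c : ℕ) {t t' : List ℕ} : Adj t t' → Adj (c :: t) (c :: t')

/-- serving one more removes at most one unit; induction on `t`, all `l` -/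
theorem adj_serve_succ (l : ℕ) (t : List ℕ) : Adj (serve (l + 1) t) (serve l t) := by
  induction t generalizing l with
  | nil =>
    cases l with
    | zero => exact Adj.refl _
    | succ l => exact Adj.refl _
  | cons c t ih =>
    cases l with
    | zero =>
      cases c with
      | zero =>
        have h := ih 0
        rw [serve_zero] at h ⊢
        exact Adj.there 0 h
      | succ c =>
        rw [serve_zero]
        show Adj (c :: serve 0 t) ((c + 1) :: t)
        rw [serve_zero]
        exact Adj.here c t
    | succ l =>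
      cases c with
      | zero => exact Adj.there 0 (ih (l + 1))
      | succ c => exact Adj.there c (ih l)

/-- induction on `h`, all `l`; in the case `here` with `c = 0` and a positive demand use
`adj_serve_succ` -/
theorem Adj.serve {u u' : List ℕ} (h : Adj u u') (l : ℕ) :
    Adj (Pool.Agent.W_MP_63dac5_pr.serve l u) (Pool.Agent.W_MP_63dac5_pr.serve l u') := by
  induction h generalizing l with
  | refl u => exact Adj.refl _
  | here c t =>
    cases l with
    | zero => rw [serve_zero, serve_zero]; exact Adj.here c t
    | succ l =>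
      cases c with
      | zero => exact Adj.there 0 (adj_serve_succ l t)
      | succ c => exact Adj.here c _
  | there c h ih =>
    cases l with
    | zero => rw [serve_zero, serve_zero]; exact Adj.there c h
    | succ l =>
      cases c with
      | zero => exact Adj.there 0 (ih (l + 1))
      | succ c => exact Adj.there c (ih l)

theorem Adj.run {u u' : List ℕ} (h : Adj u u') (w : List (ℕ × ℕ)) :
    Adj (Pool.Agent.W_MP_63dac5_pr.run u w) (Pool.Agent.W_MP_63dac5_pr.run u' w) := by
  induction w generalizing u u' with
  | nil => exact h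
  | cons a w ih => exact ih (Adj.there a.2 (h.serve a.1))

theorem Adj.cut_le {u u' : List ℕ} (h : Adj u u') (k : ℕ) :
    cut k u ≤ cut k u' ∧ cut k u' ≤ cut k u + 1 := by
  induction h with
  | refl u => exact ⟨le_rfl, Nat.le_succ _⟩
  | here c t =>
    simp only [cut]
    omega
  | there c h ih =>
    simp only [cut]
    omega

/-- Changing one letter to `(0, 0)` changes `cut k` of the final stack by at most the number of its
stubs.  Induction on `a.2` (right stubs: `Adj.here`), then on `a.1` (left stubs:
`adj_serve_succ` and `Adj.there`), using `Adj.run` and `Adj.cut_le`. -/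
theorem cut_run_letter (k : ℕ) (u : List ℕ) (a : ℕ × ℕ) (y : List (ℕ × ℕ)) :
    cut k (run u (a :: y)) ≤ cut k (run u ((0, 0) :: y)) + (a.1 + a.2) ∧
      cut k (run u ((0, 0) :: y)) ≤ cut k (run u (a :: y)) + (a.1 + a.2) := by
  obtain ⟨p, r⟩ := a
  show cut k (run u ((p, r) :: y)) ≤ cut k (run u ((0, 0) :: y)) + (p + r) ∧
      cut k (run u ((0, 0) :: y)) ≤ cut k (run u ((p, r) :: y)) + (p + r)
  induction r with
  | zero =>
    induction p with
    | zero => exact ⟨le_rfl, le_rfl⟩
    | succ p ih =>
      have h : Adj (run u ((p + 1, 0) :: y)) (run u ((p, 0) :: y)) :=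
        (Adj.there 0 (adj_serve_succ p u)).run y
      have h1 := h.cut_le k
      omega
  | succ r ih =>
    have h : Adj (run u ((p, r) :: y)) (run u ((p, r + 1) :: y)) :=
      (Adj.here r (serve p u)).run y
    have h1 := h.cut_le k
    omega

/-- the same for a letter in the middle (`run_append`) -/
theorem cut_run_lip (k : ℕ) (x : List (ℕ × ℕ)) (a : ℕ × ℕ) (y : List (ℕ × ℕ)) :
    |(cut k (run [] (x ++ a :: y)) : ℝ) - (cut k (run [] (x ++ (0, 0) :: y)) : ℝ)| ≤
      (a.1 : ℝ) + a.2 := by
  rw [run_append, run_append]
  obtain ⟨h1, h2⟩ := cut_run_letter k (run [] x) a y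
  have h3 : (cut k (run (run [] x) (a :: y)) : ℝ) ≤
      (cut k (run (run [] x) ((0, 0) :: y)) : ℝ) + ((a.1 : ℝ) + a.2) := by exact_mod_cast h1
  have h4 : (cut k (run (run [] x) ((0, 0) :: y)) : ℝ) ≤
      (cut k (run (run [] x) (a :: y)) : ℝ) + ((a.1 : ℝ) + a.2) := by exact_mod_cast h2
  rw [abs_le]
  constructor <;> linarith

end Pool.Agent.W_63dac5_h39
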