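import Mathlib

/-!
# The function `h t = (K ^ α t) ^ (1 / (α + 1))` (proofs row 559)
-/

set_option autoImplicit false

namespace Pool.Agent.W_63dac5_h39

/-- the scale of the means -/
noncomputable def hh (α : ℝ) (K : ℕ) (t : ℝ) : ℝ := ((K : ℝ) ^ α * t) ^ (1 / (α + 1))

variable {α : ℝ} {K : ℕ}

lemma hh_nonneg (α : ℝ) (K : ℕ) {t : ℝ} (ht : 0 ≤ t) : 0 ≤ hh α K t := by
  unfold hh
  exact Real.rpow_nonneg (mul_nonneg (Real.rpow_nonneg (Nat.cast_nonneg K) _) ht) _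

lemma hh_rpow (hα : 2 < α) {t : ℝ} (ht : 0 ≤ t) : hh α K t ^ (α + 1) = (K : ℝ) ^ α * t := by
  unfold hh
  have h0 : 0 ≤ (K : ℝ) ^ α * t := mul_nonneg (Real.rpow_nonneg (Nat.cast_nonneg K) _) ht
  have h1 : α + 1 ≠ 0 := by linarith
  rw [← Real.rpow_mul h0, one_div, inv_mul_cancel₀ h1, Real.rpow_one]

lemma hh_mono (hα : 2 < α) {s t : ℝ} (hs : 0 ≤ s) (h : s ≤ t) : hh α K s ≤ hh α K t := by
  unfold hh
  have hK : 0 ≤ (K : ℝ) ^ α := Real.rpow_nonneg (Nat.cast_nonneg K) _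
  apply Real.rpow_le_rpow (mul_nonneg hK hs) (mul_le_mul_of_nonneg_left h hK)
  have : 0 < α + 1 := by linarith
  positivity

/-- `K ≤ h t ≤ t` for `t ≥ K` (compare the powers with exponent `α + 1`) -/
lemma hh_ge (hα : 2 < α) (hK : 1 ≤ K) {t : ℝ} (ht : (K : ℝ) ≤ t) :
    (K : ℝ) ≤ hh α K t ∧ hh α K t ≤ t := by
  have hK' : (1 : ℝ) ≤ K := by exact_mod_cast hK
  have hK0 : (0 : ℝ) < K := by linarith
  have ht0 : 0 < t := lt_of_lt_of_le hK0 ht
  have ha : 0 < α + 1 := by linarith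
  have hpow := hh_rpow (α := α) (K := K) hα ht0.le
  have hnn := hh_nonneg α K ht0.le
  constructor
  · by_contra hlt
    push Not at hlt
    have h1 : hh α K t ^ (α + 1) < (K : ℝ) ^ (α + 1) := Real.rpow_lt_rpow hnn hlt ha
    rw [hpow, Real.rpow_add hK0, Real.rpow_one] at h1
    have h2 : (K : ℝ) ^ α * K ≤ (K : ℝ) ^ α * t :=
      mul_le_mul_of_nonneg_left ht (Real.rpow_nonneg hK0.le _)
    linarith
  · by_contra hlt
    push Not at hlt
    have h1 : t ^ (α + 1) < hh α K t ^ (α + 1) := Real.rpow_lt_rpow ht0.le hlt ha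
    rw [hpow, Real.rpow_add ht0, Real.rpow_one] at h1
    have h2 : (K : ℝ) ^ α * t ≤ t ^ α * t :=
      mul_le_mul_of_nonneg_right (Real.rpow_le_rpow hK0.le ht (by linarith)) ht0.le
    linarith

lemma hh_small (hα : 2 < α) (hK : 1 ≤ K) {t : ℝ} (h0 : 0 ≤ t) (ht : t ≤ K) : t ≤ hh α K t := by
  rcases h0.eq_or_lt with h | h0'
  · rw [← h]; exact hh_nonneg α K le_rfl
  have ha : 0 < α + 1 := by linarith
  have hpow := hh_rpow (α := α) (K := K) hα h0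
  have hnn := hh_nonneg α K h0
  by_contra hlt
  push Not at hlt
  have h1 : hh α K t ^ (α + 1) < t ^ (α + 1) := Real.rpow_lt_rpow hnn hlt ha
  rw [hpow, Real.rpow_add h0', Real.rpow_one] at h1
  have h2 : t ^ α * t ≤ (K : ℝ) ^ α * t :=
    mul_le_mul_of_nonneg_right (Real.rpow_le_rpow h0 ht (by linarith)) h0
  linarith

private lemma AnaA_hh_pos (hK : 1 ≤ K) {t : ℝ} (ht : 0 < t) : 0 < hh α K t := by
  have hK' : (1 : ℝ) ≤ K := by exact_mod_cast hK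
  have hK0 : (0 : ℝ) < K := by linarith
  unfold hh
  exact Real.rpow_pos_of_pos (mul_pos (Real.rpow_pos_of_pos hK0 _) ht) _

/-- `K ^ α = h ^ (α + 1) / t` -/
lemma div_hh (hα : 2 < α) (hK : 1 ≤ K) {t : ℝ} (ht : 0 < t) :
    ((K : ℝ) / hh α K t) ^ α = hh α K t / t := by
  have hp := AnaA_hh_pos (α := α) hK ht
  have hpow := hh_rpow (α := α) (K := K) hα ht.le
  rw [Real.rpow_add hp, Real.rpow_one] at hpow
  rw [Real.div_rpow (Nat.cast_nonneg K) hp.le]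
  have hpa : 0 < hh α K t ^ α := Real.rpow_pos_of_pos hp _
  rw [div_eq_div_iff hpa.ne' ht.ne']
  linarith

lemma hh_mul (hα : 2 < α) {η t : ℝ} (hη : 0 ≤ η) (ht : 0 ≤ t) :
    hh α K (η * t) = η ^ (1 / (α + 1)) * hh α K t := by
  unfold hh
  have hK : 0 ≤ (K : ℝ) ^ α := Real.rpow_nonneg (Nat.cast_nonneg K) _
  rw [← Real.mul_rpow hη (mul_nonneg hK ht)]
  congr 1
  ring

lemma rpow_le_hh (hα : 2 < α) (hK : 1 ≤ K) {t : ℝ} (ht : 0 ≤ t) :
    t ^ (1 / (α + 1)) ≤ hh α K t := by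
  have hK' : (1 : ℝ) ≤ K := by exact_mod_cast hK
  unfold hh
  have h1 : (1 : ℝ) ≤ (K : ℝ) ^ α := Real.one_le_rpow hK' (by linarith)
  have ha : 0 < α + 1 := by linarith
  apply Real.rpow_le_rpow ht _ (by positivity)
  nlinarith

end Pool.Agent.W_63dac5_h39
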