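import Pool.Agent.W_63dac5_h39.AnaA

/-!
# Growth of the function `hh`, and limits (proofs row 559)
-/

set_option autoImplicit false

namespace Pool.Agent.W_63dac5_h39

variable {α : ℝ} {K : ℕ}

private lemma AnaA2_hh (α : ℝ) (K : ℕ) (t : ℝ) : hh α K t = ((K : ℝ) ^ α * t) ^ (1 / (α + 1)) := rfl

/-- `(1 + 1/t) ^ β ≥ 1 + (β / 2) / t`, because `(1 + (β/2)/t) ^ (1/β) ≤ exp (1/(2t)) ≤ 1 + 1/t`. -/
lemma hh_succ (hα : 2 < α) (hK : 1 ≤ K) {t : ℝ} (ht : 1 ≤ t) :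
    hh α K t + 1 / (α + 1) / 2 * (hh α K t / t) ≤ hh α K (t + 1) := by
  have ht0 : 0 < t := by linarith
  have hK0 : (0 : ℝ) < K := by exact_mod_cast hK
  have hKα : 0 < (K : ℝ) ^ α := Real.rpow_pos_of_pos hK0 α
  have hβ : 0 < 1 / (α + 1) := by positivity
  have hx0 : 0 < 1 + 1 / t := by positivity
  have e1 : hh α K (t + 1) = hh α K t * (1 + 1 / t) ^ (1 / (α + 1)) := by
    rw [AnaA2_hh, AnaA2_hh, ← Real.mul_rpow (by positivity) hx0.le]
    congr 1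
    field_simp
  have e2 : 1 + 1 / (α + 1) / 2 * (1 / t) ≤ (1 + 1 / t) ^ (1 / (α + 1)) := by
    rw [Real.rpow_def_of_pos hx0]
    have h1 : 1 / (2 * t) ≤ Real.log (1 + 1 / t) := by
      have h2 := Real.one_sub_inv_le_log_of_pos hx0
      have h3 : 1 / (2 * t) ≤ 1 - (1 + 1 / t)⁻¹ := by
        have h4 : 1 - (1 + 1 / t)⁻¹ = 1 / (t + 1) := by
          field_simp
          ring
        rw [h4]
        apply one_div_le_one_div_of_le (by positivity)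
        linarith
      linarith
    have h5 := Real.add_one_le_exp (Real.log (1 + 1 / t) * (1 / (α + 1)))
    have h6 : 1 / (2 * t) * (1 / (α + 1)) ≤ Real.log (1 + 1 / t) * (1 / (α + 1)) :=
      mul_le_mul_of_nonneg_right h1 hβ.le
    have h7 : 1 / (α + 1) / 2 * (1 / t) = 1 / (2 * t) * (1 / (α + 1)) := by
      field_simp
    rw [h7]
    linarith
  have hn : 0 ≤ hh α K t := by
    rw [AnaA2_hh]
    positivity
  rw [e1]
  have h8 := mul_le_mul_of_nonneg_left e2 hn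
  calc hh α K t + 1 / (α + 1) / 2 * (hh α K t / t)
      = hh α K t * (1 + 1 / (α + 1) / 2 * (1 / t)) := by ring
    _ ≤ _ := h8

/-- `h ^ 4 = K ^ (4 α β) t ^ (4 β)` and `4 α β ≥ 2` -/
lemma hh_four (hα : 2 < α) (hK : 1 ≤ K) {t : ℝ} (ht : 0 < t) :
    t ^ (4 / (α + 1) - 1) ≤ hh α K t ^ 4 / (t * (K : ℝ) ^ 2) := by
  have hK1 : (1 : ℝ) ≤ K := by exact_mod_cast hK
  have hK0 : (0 : ℝ) < K := by linarith
  have hα1 : 0 < α + 1 := by linarith
  have hKα : 0 < (K : ℝ) ^ α := Real.rpow_pos_of_pos hK0 α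
  have e1 : hh α K t ^ 4 = (K : ℝ) ^ (4 * α / (α + 1)) * t ^ (4 / (α + 1)) := by
    rw [AnaA2_hh, ← Real.rpow_natCast, ← Real.rpow_mul (by positivity),
      Real.mul_rpow hKα.le ht.le, ← Real.rpow_mul hK0.le]
    congr 2
    · push_cast
      field_simp
    · push_cast
      field_simp
  have e2 : (K : ℝ) ^ 2 ≤ (K : ℝ) ^ (4 * α / (α + 1)) := by
    rw [← Real.rpow_natCast]
    apply Real.rpow_le_rpow_of_exponent_le hK1
    rw [le_div_iff₀ hα1]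
    push_cast
    linarith
  rw [Real.rpow_sub ht, Real.rpow_one, le_div_iff₀ (by positivity), e1]
  have h3 : 0 < t ^ (4 / (α + 1)) := Real.rpow_pos_of_pos ht _
  calc t ^ (4 / (α + 1)) / t * (t * (K : ℝ) ^ 2) = (K : ℝ) ^ 2 * t ^ (4 / (α + 1)) := by
        field_simp
    _ ≤ _ := mul_le_mul_of_nonneg_right e2 h3.le

/-- stretched exponentials beat powers -/
lemma ev_exp {c δ e : ℝ} (hc : 0 < c) (hδ : 0 < δ) (he : 0 < e) (p : ℕ) :
    ∃ N : ℕ, ∀ t : ℕ, N ≤ t → (t : ℝ) ^ p * Real.exp (-(c * (t : ℝ) ^ δ)) ≤ e := by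
  have h1 := tendsto_rpow_mul_exp_neg_mul_atTop_nhds_zero ((p : ℝ) / δ) c hc
  have h2 : Filter.Tendsto (fun t : ℕ => (t : ℝ) ^ δ) Filter.atTop Filter.atTop :=
    (tendsto_rpow_atTop hδ).comp tendsto_natCast_atTop_atTop
  have h3 := h1.comp h2
  have h4 := h3.eventually (ge_mem_nhds he)
  obtain ⟨N, hN⟩ := Filter.eventually_atTop.1 h4
  refine ⟨N, fun t ht => ?_⟩
  have h5 := hN t ht
  simp only [Function.comp_apply] at h5
  rw [← Real.rpow_mul (Nat.cast_nonneg t), mul_div_cancel₀ _ hδ.ne', Real.rpow_natCast] at h5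
  rwa [← neg_mul]

lemma ev_rpow {c δ : ℝ} (hc : 0 < c) (hδ : 0 < δ) (B : ℝ) :
    ∃ N : ℕ, ∀ t : ℕ, N ≤ t → B ≤ c * (t : ℝ) ^ δ := by
  have h2 : Filter.Tendsto (fun t : ℕ => c * (t : ℝ) ^ δ) Filter.atTop Filter.atTop :=
    Filter.Tendsto.const_mul_atTop hc
      ((tendsto_rpow_atTop hδ).comp tendsto_natCast_atTop_atTop)
  obtain ⟨N, hN⟩ := Filter.eventually_atTop.1 (h2.eventually (Filter.eventually_ge_atTop B))
  exact ⟨N, hN⟩

end Pool.Agent.W_63dac5_h39
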