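import Pool.Agent.W_63dac5_h39.AnaA2

/-!
# The induction for the means (proofs row 559, step 2)
-/

set_option autoImplicit false

namespace Pool.Agent.W_63dac5_h39

/-- The properties of the means `m`, of the tail `G` of the number of stubs, of the tails `U` and of
the probabilities `L` which are used in the induction. -/
structure Dat (α κ1 κ2 cv : ℝ) (K : ℕ) (m G L : ℕ → ℝ) (U : ℕ → ℕ → ℝ) (v : ℝ) : Prop where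
  m0 : ∀ n, 0 ≤ m n
  mle : ∀ n, m n ≤ n
  mmono : ∀ s n, s ≤ n → m s ≤ m n
  G0 : ∀ x, 0 ≤ G x
  Glow : ∀ (x : ℕ) (y : ℝ), (x : ℝ) ≤ y → 0 < y → κ1 * min 1 (((K : ℝ) / y) ^ α) ≤ G x
  Gup : ∀ x : ℕ, 1 ≤ x → G x ≤ κ2 * ((K : ℝ) / x) ^ α
  U0 : ∀ n x, 0 ≤ U n x
  Uhalf : ∀ n x j : ℕ, 2 * m n ≤ (x : ℝ) + 1 → U n (j * (x + 1)) ≤ (1 / 2) ^ j
  low : ∀ n : ℕ, n / 2 * G ⌊2 * m n⌋₊ ≤ m n
  step : ∀ n, m (n + 1) ≤ m n + G ⌈m n / 4⌉₊ + L n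
  v0 : 0 ≤ v
  vle : v ≤ cv * (K : ℝ) ^ 2
  Lle : ∀ (t b M k : ℕ) (θ : ℝ), 0 < k → b ≤ t → 4 * (k : ℝ) ≤ b * G (2 * M) → 0 ≤ θ →
    θ * (2 * (M + k + 1)) ≤ 1 →
    m b + t * (2 * (t + 1) * U t M + Real.exp (-(b * G (2 * M) / 4))) ≤ m t / 2 →
    t * (2 * (t + 1) * U t M) ≤ m t / 8 →
    L t ≤ 2 * (t + 1) * U t M + Real.exp (-θ * (k * m t / 8) + t * (θ ^ 2 * v))

variable {α κ1 κ2 cv : ℝ}

/-- `m n ≥ (κ1 / 2) h n` for `n ≥ K`: otherwise `2 m n < h n`, `G ⌊2 m n⌋ ≥ κ1 (K / h) ^ α = κ1 h / n`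
(`Glow` with `y = h n`, `div_hh`, `hh_ge`), and `low` gives `m n ≥ (κ1 / 2) h n`. -/
lemma Dat.m_low (h2 : 2 < α) (hκ : 0 < κ1) (hκ1 : κ1 ≤ 1) {K : ℕ} (hK : 1 ≤ K) {m G L : ℕ → ℝ} {U : ℕ → ℕ → ℝ}
    {v : ℝ} (D : Dat α κ1 κ2 cv K m G L U v) {n : ℕ} (hn : K ≤ n) :
    κ1 / 2 * hh α K n ≤ m n := by
  have hK' : (1 : ℝ) ≤ K := by exact_mod_cast hK
  have hn' : (K : ℝ) ≤ n := by exact_mod_cast hn
  have hn0 : (0 : ℝ) < n := by linarith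
  obtain ⟨h3, h4⟩ := hh_ge h2 hK hn'
  have hh0 : 0 < hh α K n := by linarith
  by_contra hcon
  push Not at hcon
  have hm0 := D.m0 n
  have h5 : 2 * m n ≤ hh α K n := by nlinarith
  have h6 : ((⌊2 * m n⌋₊ : ℕ) : ℝ) ≤ hh α K n :=
    le_trans (Nat.floor_le (by linarith)) h5
  have h7 := D.Glow ⌊2 * m n⌋₊ (hh α K n) h6 hh0
  rw [div_hh h2 hK hn0] at h7
  have h8 : hh α K n / n ≤ 1 := (div_le_one hn0).2 h4
  rw [min_eq_right h8] at h7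
  have h9 := D.low n
  have h10 : (n : ℝ) / 2 * (κ1 * (hh α K n / n)) = κ1 / 2 * hh α K n := by
    field_simp
  have h11 : (n : ℝ) / 2 * (κ1 * (hh α K n / n)) ≤ n / 2 * G ⌊2 * m n⌋₊ :=
    mul_le_mul_of_nonneg_left h7 (by positivity)
  linarith

end Pool.Agent.W_63dac5_h39
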