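import Pool.Agent.W_63dac5_h39.AnaB

/-!
# The parameters of step 7 (proofs row 559)
-/

set_option autoImplicit false

namespace Pool.Agent.W_63dac5_h39

/-- the exponent `ε` of step 7; `α ε = β - 1/4` for `β = 1 / (α + 1)` -/
noncomputable def ep (α : ℝ) : ℝ := (4 / (α + 1) - 1) / (4 * α)

lemma ep_pos {α : ℝ} (h2 : 2 < α) (h3 : α < 3) : 0 < ep α := by
  unfold ep
  apply div_pos
  · have h : 1 < 4 / (α + 1) := by
      rw [lt_div_iff₀ (by linarith)]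
      linarith
    linarith
  · linarith

lemma mul_ep {α : ℝ} (h2 : 2 < α) : α * ep α = 1 / (α + 1) - 1 / 4 := by
  unfold ep
  have h1 : α ≠ 0 := by linarith
  have h2' : α + 1 ≠ 0 := by linarith
  field_simp

variable {α κ1 κ2 cv : ℝ}

private lemma AnaC_half_exp {T : ℝ} {j : ℕ} (h : T ≤ j) (hT : 0 ≤ T) :
    ((1 : ℝ) / 2) ^ j ≤ Real.exp (-(1 / 2 * T)) := by
  have h1 : ((1 : ℝ) / 2) ≤ Real.exp (-(1 / 2)) := by
    have h3 := Real.add_one_le_exp (-(1 / 2 : ℝ))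
    linarith
  calc ((1 : ℝ) / 2) ^ j ≤ (Real.exp (-(1 / 2))) ^ j := pow_le_pow_left₀ (by norm_num) h1 j
    _ = Real.exp (j * (-(1 / 2))) := by rw [Real.exp_nat_mul]
    _ ≤ Real.exp (-(1 / 2 * T)) := by
        apply Real.exp_le_exp.mpr
        nlinarith

/-- Step 7, parameters.  `β = 1 / (α + 1)`, `ε = ep α`, `c0 = κ1 / 2`, `T = t ^ ε ≥ 1`, `h = hh α K t ≥ 1`.
`x = ⌈2 m t⌉`, `j = ⌈T⌉`, `M = j (x + 1) ≤ 2 T (2 C2 h + 2) ≤ 8 C2 h T`; `U t M ≤ (1/2) ^ j ≤ exp (-T / 2)`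
(`Uhalf`).  `Glow` with `y = 16 C2 h T ≥ 2 M`: `G (2 M) ≥ κ1 (16 C2) ^ (-α) T ^ (-α) h / t` by `div_hh`
(the minimum is the second term, as `K ≤ h ≤ t`).  `η ≤ 1/2` with `C2 η ^ β ≤ c0 / 8`, `b = ⌊η t⌋ ≥ η t / 2` for
large `t`, `m b ≤ C2 h (b) ≤ C2 η ^ β h (t) ≤ c0 h / 8 ≤ m t / 8` (`hh_mono`, `hh_mul`, `Dat.m_low`).  So
`b G (2 M) ≥ 8 c3 T ^ (-α) h` with `c3 = η κ1 (16 C2) ^ (-α) / 16`; `k = ⌊2 c3 T ^ (-α) h⌋`, and
`T ^ (-α) h ≥ t ^ (1/4 - β) t ^ β = t ^ (1/4)` is large (`rpow_le_hh`), so `k ≥ c3 T ^ (-α) h` and `k > 0`;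
`k ≤ h`, `1 ≤ h`, so `M + k + 1 ≤ 10 C2 h T`. -/
theorem par7 (h2 : 2 < α) (h3 : α < 3) (hκ : 0 < κ1) (hκ1 : κ1 ≤ 1) {C2 : ℝ} (hC2 : 1 ≤ C2) :
    ∃ c3 : ℝ, 0 < c3 ∧ ∃ K0 : ℕ, ∀ K : ℕ, K0 ≤ K → ∀ (m G L : ℕ → ℝ) (U : ℕ → ℕ → ℝ) (v : ℝ),
      Dat α κ1 κ2 cv K m G L U v → ∀ t : ℕ, K ≤ t → (∀ n : ℕ, n ≤ t → m n ≤ C2 * hh α K n) →
      ∃ b M k : ℕ, 0 < k ∧ b ≤ t ∧ 4 * (k : ℝ) ≤ b * G (2 * M) ∧ m b ≤ m t / 8 ∧
        U t M ≤ Real.exp (-(1 / 2 * (t : ℝ) ^ ep α)) ∧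
        c3 * ((t : ℝ) ^ (-(α * ep α)) * hh α K t) ≤ k ∧
        (M : ℝ) + k + 1 ≤ 10 * C2 * (hh α K t * (t : ℝ) ^ ep α) := by
  have hα0 : 0 < α := by linarith
  have hα1 : 0 < α + 1 := by linarith
  have hC0 : 0 < C2 := by linarith
  have hq0 : 0 < κ1 / (16 * C2) := by positivity
  have hq1 : κ1 / (16 * C2) ≤ 1 / 16 := by
    rw [div_le_div_iff₀ (by positivity) (by norm_num)]
    nlinarith
  set η : ℝ := (κ1 / (16 * C2)) ^ (α + 1) with hη
  have hη0 : 0 < η := Real.rpow_pos_of_pos hq0 _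
  have hη1 : η ≤ 1 / 16 := by
    calc η ≤ (κ1 / (16 * C2)) ^ (1 : ℝ) :=
          Real.rpow_le_rpow_of_exponent_ge hq0 (by linarith) (by linarith)
      _ = κ1 / (16 * C2) := Real.rpow_one _
      _ ≤ 1 / 16 := hq1
  have hηβ : η ^ (1 / (α + 1)) = κ1 / (16 * C2) := by
    rw [hη, ← Real.rpow_mul hq0.le, mul_one_div_cancel hα1.ne', Real.rpow_one]
  set A : ℝ := κ1 * (16 * C2) ^ (-α) with hA
  have hA0 : 0 < A := by positivity
  have hA1 : A ≤ 1 := by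
    have h4 : (16 * C2) ^ (-α) ≤ 1 :=
      Real.rpow_le_one_of_one_le_of_nonpos (by linarith) (by linarith)
    have h5 : 0 < (16 * C2) ^ (-α) := by positivity
    calc A = κ1 * (16 * C2) ^ (-α) := hA
      _ ≤ 1 * 1 := mul_le_mul hκ1 h4 h5.le (by norm_num)
      _ = 1 := by norm_num
  set c3 : ℝ := η * A / 16 with hc3
  have hc30 : 0 < c3 := by positivity
  have hc31 : c3 ≤ 1 / 256 := by
    rw [hc3]
    have : η * A ≤ 1 / 16 * 1 := mul_le_mul hη1 hA1 hA0.le (by norm_num)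
    linarith
  obtain ⟨N0, hN0⟩ := ev_rpow (c := c3) (δ := 1 / 4) hc30 (by norm_num) 1
  refine ⟨c3, hc30, max 1 (max N0 ⌈2 / η⌉₊), ?_⟩
  intro K hK m G L U v D t hKt hm
  have hK1 : 1 ≤ K := le_trans (le_max_left _ _) hK
  have hKN : N0 ≤ K := le_trans (le_trans (le_max_left _ _) (le_max_right _ _)) hK
  have hKη : ⌈2 / η⌉₊ ≤ K := le_trans (le_trans (le_max_right _ _) (le_max_right _ _)) hK
  have ht1 : (1 : ℝ) ≤ t := by
    have : 1 ≤ t := le_trans hK1 hKt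
    exact_mod_cast this
  have ht0 : (0 : ℝ) < t := by linarith
  have hKt' : (K : ℝ) ≤ t := by exact_mod_cast hKt
  have hK1' : (1 : ℝ) ≤ K := by exact_mod_cast hK1
  obtain ⟨hKh, hht⟩ := hh_ge (α := α) (K := K) h2 hK1 hKt'
  set h : ℝ := hh α K t with hhdef
  have hh1 : 1 ≤ h := le_trans hK1' hKh
  have hh0 : 0 < h := by linarith
  have hε := ep_pos h2 h3
  set T : ℝ := (t : ℝ) ^ ep α with hT
  have hT1 : 1 ≤ T := Real.one_le_rpow ht1 hε.le
  have hT0 : 0 < T := by linarith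
  set x : ℕ := ⌈2 * m t⌉₊ with hx
  set j : ℕ := ⌈T⌉₊ with hj
  have hx1 : 2 * m t ≤ (x : ℝ) := Nat.le_ceil _
  have hx2 : (x : ℝ) ≤ 2 * m t + 1 := (Nat.ceil_lt_add_one (by linarith [D.m0 t])).le
  have hj1 : T ≤ (j : ℝ) := Nat.le_ceil _
  have hj2 : (j : ℝ) ≤ T + 1 := (Nat.ceil_lt_add_one hT0.le).le
  have hmt : m t ≤ C2 * h := hm t le_rfl
  have hCh : 1 ≤ C2 * h := by nlinarith
  have hChT : C2 * h ≤ C2 * h * T := le_mul_of_one_le_right (by linarith) hT1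
  have hM : ((j * (x + 1) : ℕ) : ℝ) ≤ 8 * C2 * h * T := by
    push_cast
    have e1 : (x : ℝ) + 1 ≤ 4 * (C2 * h) := by linarith
    have e2 : (j : ℝ) ≤ 2 * T := by linarith
    calc (j : ℝ) * (x + 1) ≤ (2 * T) * (4 * (C2 * h)) :=
          mul_le_mul e2 e1 (by positivity) (by positivity)
      _ = 8 * C2 * h * T := by ring
  -- the bound for `G`
  have hG : A * ((t : ℝ) ^ (-(α * ep α)) * h) / t ≤ G (2 * (j * (x + 1))) := by
    have hy0 : 0 < 16 * C2 * h * T := by positivity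
    have hy : ((2 * (j * (x + 1)) : ℕ) : ℝ) ≤ 16 * C2 * h * T := by
      have : ((2 * (j * (x + 1)) : ℕ) : ℝ) = 2 * ((j * (x + 1) : ℕ) : ℝ) := by push_cast; ring
      rw [this]
      linarith
    have h5 := D.Glow _ _ hy hy0
    have hKy : (K : ℝ) / (16 * C2 * h * T) ≤ 1 := by
      rw [div_le_one hy0]
      nlinarith
    have hKy0 : 0 ≤ (K : ℝ) / (16 * C2 * h * T) := by positivity
    have hmin : min 1 (((K : ℝ) / (16 * C2 * h * T)) ^ α) = ((K : ℝ) / (16 * C2 * h * T)) ^ α :=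
      min_eq_right (Real.rpow_le_one hKy0 hKy hα0.le)
    rw [hmin] at h5
    have hsplit : (K : ℝ) / (16 * C2 * h * T) = (K : ℝ) / h * ((16 * C2)⁻¹ * T⁻¹) := by
      field_simp
    have e3 : ((K : ℝ) / (16 * C2 * h * T)) ^ α = h / t * ((16 * C2) ^ (-α) * (t : ℝ) ^ (-(α * ep α))) := by
      rw [hsplit, Real.mul_rpow (by positivity) (by positivity),
        Real.mul_rpow (by positivity) (by positivity), hhdef, div_hh h2 hK1 ht0,
        Real.inv_rpow (by positivity), Real.inv_rpow (by positivity), hT,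
        ← Real.rpow_mul ht0.le, ← Real.rpow_neg (by positivity), ← Real.rpow_neg ht0.le,
        mul_comm (ep α) α]
    rw [e3] at h5
    calc A * ((t : ℝ) ^ (-(α * ep α)) * h) / t
        = κ1 * (h / t * ((16 * C2) ^ (-α) * (t : ℝ) ^ (-(α * ep α)))) := by
          rw [hA]; field_simp
      _ ≤ _ := h5
  -- the block length
  set b : ℕ := ⌊η * t⌋₊ with hb
  have hηt : 2 ≤ η * t := by
    have h6 : 2 / η ≤ K := le_trans (Nat.le_ceil _) (by exact_mod_cast hKη)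
    rw [div_le_iff₀ hη0] at h6
    nlinarith
  have hb1 : (b : ℝ) ≤ η * t := Nat.floor_le (by positivity)
  have hb2 : η * t / 2 ≤ (b : ℝ) := by
    have := Nat.lt_floor_add_one (η * (t : ℝ))
    rw [← hb] at this
    linarith
  have hbt : b ≤ t := by
    have : (b : ℝ) ≤ t := by nlinarith
    exact_mod_cast this
  have hmb : m b ≤ m t / 8 := by
    have h7 : m b ≤ C2 * hh α K b := hm b hbt
    have h8 : hh α K (b : ℝ) ≤ hh α K (η * t) := hh_mono h2 (by positivity) hb1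
    have h9 : hh α K (η * t) = κ1 / (16 * C2) * h := by
      rw [hh_mul h2 hη0.le ht0.le, hηβ]
    have h10 : κ1 / 2 * h ≤ m t := D.m_low h2 hκ hκ1 hK1 hKt
    have h11 : C2 * (κ1 / (16 * C2) * h) = κ1 / 2 * h / 8 := by
      field_simp
      norm_num
    calc m b ≤ C2 * hh α K b := h7
      _ ≤ C2 * (κ1 / (16 * C2) * h) := by
          rw [← h9]
          exact mul_le_mul_of_nonneg_left h8 hC0.le
      _ = κ1 / 2 * h / 8 := h11
      _ ≤ m t / 8 := by linarith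
  set W : ℝ := (t : ℝ) ^ (-(α * ep α)) * h with hW
  have hp0 : 0 < (t : ℝ) ^ (-(α * ep α)) := by positivity
  have hp1 : (t : ℝ) ^ (-(α * ep α)) ≤ 1 :=
    Real.rpow_le_one_of_one_le_of_nonpos ht1 (by have := mul_pos hα0 hε; linarith)
  have hWh : W ≤ h := by
    rw [hW]
    nlinarith
  have hW0 : 0 < W := by positivity
  have hWt : (t : ℝ) ^ (1 / 4 : ℝ) ≤ W := by
    have h12 := rpow_le_hh (α := α) (K := K) h2 hK1 ht0.le
    calc (t : ℝ) ^ (1 / 4 : ℝ) = (t : ℝ) ^ (-(α * ep α)) * (t : ℝ) ^ (1 / (α + 1)) := by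
          rw [← Real.rpow_add ht0]
          congr 1
          rw [mul_ep h2]
          ring
      _ ≤ W := mul_le_mul_of_nonneg_left h12 hp0.le
  have hcW : 1 ≤ c3 * W := by
    have h13 := hN0 t (le_trans hKN hKt)
    calc (1 : ℝ) ≤ c3 * (t : ℝ) ^ (1 / 4 : ℝ) := h13
      _ ≤ c3 * W := mul_le_mul_of_nonneg_left hWt hc30.le
  have hbG : 8 * c3 * W ≤ b * G (2 * (j * (x + 1))) := by
    have h14 : A * W / t ≤ G (2 * (j * (x + 1))) := hG
    calc 8 * c3 * W = (η * t / 2) * (A * W / t) := by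
          rw [hc3]
          field_simp
          norm_num
      _ ≤ b * G (2 * (j * (x + 1))) :=
          mul_le_mul hb2 h14 (by positivity) (by positivity)
  set k : ℕ := ⌊2 * c3 * W⌋₊ with hk
  have hk1 : (k : ℝ) ≤ 2 * c3 * W := Nat.floor_le (by positivity)
  have hk2 : c3 * W ≤ (k : ℝ) := by
    have := Nat.lt_floor_add_one (2 * c3 * W)
    rw [← hk] at this
    linarith
  have hkpos : 0 < k := by
    have : (0 : ℝ) < k := by linarith
    exact_mod_cast this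
  have hkh : (k : ℝ) ≤ C2 * h * T := by
    have : 2 * c3 * W ≤ h := by nlinarith
    nlinarith
  refine ⟨b, j * (x + 1), k, hkpos, hbt, by linarith, hmb, ?_, hk2, ?_⟩
  · have h15 := D.Uhalf t x j (by linarith)
    exact le_trans h15 (AnaC_half_exp hj1 hT0.le)
  · have : 10 * C2 * (h * T) = 8 * C2 * h * T + C2 * h * T + C2 * h * T := by ring
    rw [this]
    linarith

end Pool.Agent.W_63dac5_h39
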