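import Pool.Agent.W_63dac5_h39.AnaC

/-!
# Step 7 (proofs row 559)
-/

set_option autoImplicit false

namespace Pool.Agent.W_63dac5_h39

variable {α κ1 κ2 cv : ℝ}

/-- Step 7, the exponent.  `S = t ^ (-α ε)`, `T = t ^ ε`, `β = 1 / (α + 1)`, `q = k m`.  With
`θ = min (1 / (2 (M + k + 1))) (k m / (16 t (v + 1)))` the exponent is at most `- θ k m / 16`
(because `t θ ^ 2 v ≤ θ k m / 16`).  First case: `θ k m / 16 ≥ c3 S h c0 h / (320 C2 h T) ≥ c t ^ (β - (α + 1) ε)`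
(`rpow_le_hh`) and `β - (α + 1) ε ≥ 1/8` because `(α + 1) ε = (3 - α) / (4 α) ≤ 1/8`.  Second case:
`θ k m / 16 = (k m) ^ 2 / (256 t (v + 1)) ≥ (c3 c0) ^ 2 S ^ 2 h ^ 4 / (512 cv t K ^ 2) ≥ c t ^ (2 α ε)` because of
`hh_four` and `4 β - 1 = 4 α ε`. -/
theorem exp7 (h2 : 2 < α) (h3 : α < 3) {c0 c3 C2 : ℝ} (hc0 : 0 < c0) (hc3 : 0 < c3) (hcv : 1 ≤ cv)
    (hC2 : 1 ≤ C2) : ∃ c δ : ℝ, 0 < c ∧ 0 < δ ∧ ∀ (K t : ℕ) (q Q v : ℝ), 1 ≤ K → K ≤ t → 0 ≤ v →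
      v ≤ cv * (K : ℝ) ^ 2 → c3 * ((t : ℝ) ^ (-(α * ep α)) * hh α K t) * (c0 * hh α K t) ≤ q →
      0 < Q → Q ≤ 10 * C2 * (hh α K t * (t : ℝ) ^ ep α) →
      ∃ θ : ℝ, 0 ≤ θ ∧ θ * (2 * Q) ≤ 1 ∧ -θ * (q / 8) + t * (θ ^ 2 * v) ≤ -(c * (t : ℝ) ^ δ) := by
  have hep := ep_pos h2 h3
  have hme := mul_ep h2
  have hαp : 0 < α * ep α := mul_pos (by linarith) hep
  have hβ : 1 / (α + 1) ≤ 1 / 3 := by
    apply one_div_le_one_div_of_le (by norm_num) (by linarith)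
  have hep8 : ep α ≤ 1 / 8 := by nlinarith
  have hcv0 : 0 < cv := by linarith
  have hC20 : 0 < C2 := by linarith
  refine ⟨min (c3 * c0 / (320 * C2)) ((c3 * c0) ^ 2 / (512 * cv)), min (1 / 8) (2 * (α * ep α)),
    lt_min (by positivity) (by positivity), lt_min (by norm_num) (by linarith), ?_⟩
  intro K t q Q v hK hKt hv hvle hq hQ hQle
  have htpos : (1 : ℝ) ≤ t := by exact_mod_cast hK.trans hKt
  have ht0 : (0 : ℝ) < t := by linarith
  have hK1 : (1 : ℝ) ≤ K := by exact_mod_cast hK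
  have hhge : (t : ℝ) ^ (1 / (α + 1)) ≤ hh α K t := rpow_le_hh h2 hK ht0.le
  have hfour := hh_four (K := K) h2 hK ht0
  have hhpos : 0 < hh α K t := lt_of_lt_of_le (Real.rpow_pos_of_pos ht0 _) hhge
  have hSpos : 0 < (t : ℝ) ^ (-(α * ep α)) := Real.rpow_pos_of_pos ht0 _
  have hTpos : 0 < (t : ℝ) ^ ep α := Real.rpow_pos_of_pos ht0 _
  have k1 : (t : ℝ) ^ (1 / 8 : ℝ) * (t : ℝ) ^ ep α ≤ (t : ℝ) ^ (-(α * ep α)) * hh α K t := by
    calc (t : ℝ) ^ (1 / 8 : ℝ) * (t : ℝ) ^ ep α = (t : ℝ) ^ (1 / 8 + ep α) := by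
          rw [← Real.rpow_add ht0]
      _ ≤ (t : ℝ) ^ (-(α * ep α) + 1 / (α + 1)) :=
          Real.rpow_le_rpow_of_exponent_le htpos (by linarith)
      _ = (t : ℝ) ^ (-(α * ep α)) * (t : ℝ) ^ (1 / (α + 1)) := by rw [← Real.rpow_add ht0]
      _ ≤ (t : ℝ) ^ (-(α * ep α)) * hh α K t := by gcongr
  have k2 : (t : ℝ) ^ (2 * (α * ep α)) ≤
      ((t : ℝ) ^ (-(α * ep α))) ^ 2 * (hh α K t ^ 4 / (t * (K : ℝ) ^ 2)) := by
    calc (t : ℝ) ^ (2 * (α * ep α)) = ((t : ℝ) ^ (-(α * ep α))) ^ 2 * (t : ℝ) ^ (4 / (α + 1) - 1) := by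
          rw [← Real.rpow_natCast, ← Real.rpow_mul ht0.le, ← Real.rpow_add ht0]
          congr 1
          push_cast
          have h4 : 4 / (α + 1) = 4 * (1 / (α + 1)) := by ring
          rw [h4]
          linarith
      _ ≤ _ := by gcongr
  set h := hh α K t
  set S := (t : ℝ) ^ (-(α * ep α))
  set T := (t : ℝ) ^ ep α
  have hq0 : 0 < q := lt_of_lt_of_le (by positivity) hq
  have hv1 : 0 < v + 1 := by linarith
  have e8 : (t : ℝ) ^ min (1 / 8 : ℝ) (2 * (α * ep α)) ≤ (t : ℝ) ^ (1 / 8 : ℝ) :=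
    Real.rpow_le_rpow_of_exponent_le htpos (min_le_left _ _)
  have e9 : (t : ℝ) ^ min (1 / 8 : ℝ) (2 * (α * ep α)) ≤ (t : ℝ) ^ (2 * (α * ep α)) :=
    Real.rpow_le_rpow_of_exponent_le htpos (min_le_right _ _)
  have e0 : 0 < (t : ℝ) ^ min (1 / 8 : ℝ) (2 * (α * ep α)) := Real.rpow_pos_of_pos ht0 _
  have A0 : 0 < 1 / (2 * Q) := by positivity
  have B0 : 0 < q / (16 * t * (v + 1)) := by positivity
  have hθ0 : 0 < min (1 / (2 * Q)) (q / (16 * t * (v + 1))) := lt_min A0 B0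
  refine ⟨min (1 / (2 * Q)) (q / (16 * t * (v + 1))), hθ0.le, ?_, ?_⟩
  · calc min (1 / (2 * Q)) (q / (16 * t * (v + 1))) * (2 * Q) ≤ 1 / (2 * Q) * (2 * Q) := by
          gcongr
          exact min_le_left _ _
      _ = 1 := by field_simp
  · have hlow : min (c3 * c0 / (320 * C2)) ((c3 * c0) ^ 2 / (512 * cv)) *
        (t : ℝ) ^ min (1 / 8 : ℝ) (2 * (α * ep α)) ≤
        min (1 / (2 * Q)) (q / (16 * t * (v + 1))) * (q / 16) := by
      rcases min_choice (1 / (2 * Q)) (q / (16 * t * (v + 1))) with hm | hm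
      · rw [hm]
        have : c3 * c0 / (320 * C2) * (t : ℝ) ^ (1 / 8 : ℝ) ≤ 1 / (2 * Q) * (q / 16) := by
          rw [show 1 / (2 * Q) * (q / 16) = q / (32 * Q) by field_simp; ring]
          rw [le_div_iff₀ (by positivity)]
          calc c3 * c0 / (320 * C2) * (t : ℝ) ^ (1 / 8 : ℝ) * (32 * Q)
              ≤ c3 * c0 / (320 * C2) * (t : ℝ) ^ (1 / 8 : ℝ) * (32 * (10 * C2 * (h * T))) := by
                gcongr
            _ = c3 * c0 * h * ((t : ℝ) ^ (1 / 8 : ℝ) * T) := by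
                field_simp
                ring
            _ ≤ c3 * c0 * h * (S * h) := by gcongr
            _ = c3 * (S * h) * (c0 * h) := by ring
            _ ≤ q := hq
        refine le_trans ?_ this
        exact mul_le_mul (min_le_left _ _) e8 e0.le (by positivity)
      · rw [hm]
        have hKp : (1 : ℝ) ≤ (K : ℝ) ^ 2 := by nlinarith
        have hv2 : v + 1 ≤ 2 * cv * (K : ℝ) ^ 2 := by nlinarith
        have : (c3 * c0) ^ 2 / (512 * cv) * (t : ℝ) ^ (2 * (α * ep α)) ≤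
            q / (16 * t * (v + 1)) * (q / 16) := by
          calc (c3 * c0) ^ 2 / (512 * cv) * (t : ℝ) ^ (2 * (α * ep α))
              ≤ (c3 * c0) ^ 2 / (512 * cv) * (S ^ 2 * (h ^ 4 / (t * (K : ℝ) ^ 2))) := by
                gcongr
            _ = (c3 * (S * h) * (c0 * h)) ^ 2 / (256 * t * (2 * cv * (K : ℝ) ^ 2)) := by
                field_simp
                ring
            _ ≤ q ^ 2 / (256 * t * (v + 1)) := by gcongr
            _ = q / (16 * t * (v + 1)) * (q / 16) := by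
                field_simp
                ring
        refine le_trans ?_ this
        exact mul_le_mul (min_le_right _ _) e9 e0.le (by positivity)
    set θ := min (1 / (2 * Q)) (q / (16 * t * (v + 1)))
    have hθ2 : θ * (16 * t * (v + 1)) ≤ q := by
      calc θ * (16 * t * (v + 1)) ≤ q / (16 * t * (v + 1)) * (16 * t * (v + 1)) := by
            gcongr
            exact min_le_right _ _
        _ = q := by field_simp
    have h5 : (t : ℝ) * (θ ^ 2 * v) ≤ θ * (q / 16) := by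
      have h6 : θ * (θ * (16 * t * (v + 1))) ≤ θ * q := by gcongr
      have h7 : 0 ≤ (t : ℝ) * θ ^ 2 := by positivity
      nlinarith
    linarith

/-- Step 7: `par7`, `exp7` (with `q = k m t`, `Q = M + k + 1`, `c0 = κ1 / 2`, `Dat.m_low`), `Lle`, `ev_exp`;
`exp (-(b G (2 M) / 4)) ≤ exp (-k)` and `k ≥ c3 t ^ (1/4)` (`mul_ep`, `rpow_le_hh`); `m t ≥ c0 h ≥ c0`. -/
theorem step7 (h2 : 2 < α) (h3 : α < 3) (hκ : 0 < κ1) (hκ1 : κ1 ≤ 1) (hcv : 1 ≤ cv) {C2 : ℝ}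
    (hC2 : 1 ≤ C2) : ∃ K0 : ℕ, ∀ K : ℕ, K0 ≤ K → ∀ (m G L : ℕ → ℝ) (U : ℕ → ℕ → ℝ) (v : ℝ),
      Dat α κ1 κ2 cv K m G L U v → ∀ t : ℕ, K ≤ t → (∀ n : ℕ, n ≤ t → m n ≤ C2 * hh α K n) →
      L t ≤ 1 / (t : ℝ) ^ 3 := by
  obtain ⟨c3, hc3, K1, hpar⟩ := par7 (κ2 := κ2) (cv := cv) h2 h3 hκ hκ1 hC2
  have hc0 : 0 < κ1 / 2 := by positivity
  obtain ⟨c, δ, hc, hδ, hexp⟩ := exp7 h2 h3 hc0 hc3 hcv hC2
  have hep := ep_pos h2 h3
  have hme := mul_ep h2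
  obtain ⟨N1, hN1⟩ := ev_exp (c := 1 / 2) (δ := ep α) (e := min (1 / 8) (κ1 / 2 / 32))
    (by norm_num) hep (lt_min (by norm_num) (by positivity)) 4
  obtain ⟨N2, hN2⟩ := ev_exp (c := c3) (δ := 1 / 4) (e := κ1 / 2 / 8) hc3 (by norm_num)
    (by positivity) 1
  obtain ⟨N3, hN3⟩ := ev_exp (c := c) (δ := δ) (e := 1 / 2) hc hδ (by norm_num) 3
  refine ⟨1 + K1 + N1 + N2 + N3, ?_⟩
  intro K hK m G L U v D t hKt hm
  have hK1 : 1 ≤ K := by omega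
  obtain ⟨b, M, k, hk, hbt, hkb, hmb, hU, hkc, hMk⟩ := hpar K (by omega) m G L U v D t hKt hm
  have hN1' := hN1 t (by omega)
  have hN2' := hN2 t (by omega)
  have hN3' := hN3 t (by omega)
  have htpos : (1 : ℝ) ≤ t := by exact_mod_cast hK1.trans hKt
  have ht0 : (0 : ℝ) < t := by linarith
  have hhge : (t : ℝ) ^ (1 / (α + 1)) ≤ hh α K t := rpow_le_hh h2 hK1 ht0.le
  have hh1 : 1 ≤ hh α K t := le_trans (Real.one_le_rpow htpos (by positivity)) hhge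
  have hmt : κ1 / 2 * hh α K t ≤ m t := D.m_low h2 hκ hκ1 hK1 hKt
  have hmt1 : κ1 / 2 ≤ m t := by nlinarith
  have hq : c3 * ((t : ℝ) ^ (-(α * ep α)) * hh α K t) * (κ1 / 2 * hh α K t) ≤ k * m t := by
    have : 0 ≤ κ1 / 2 * hh α K t := by positivity
    exact mul_le_mul hkc hmt this (by positivity)
  obtain ⟨θ, hθ0, hθ1, hθ2⟩ := hexp K t (k * m t) (M + k + 1) v hK1 hKt D.v0 D.vle hq
    (by positivity) hMk
  have hk4 : (t : ℝ) ^ (1 / 4 : ℝ) ≤ (t : ℝ) ^ (-(α * ep α)) * hh α K t := by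
    calc (t : ℝ) ^ (1 / 4 : ℝ) = (t : ℝ) ^ (-(α * ep α) + 1 / (α + 1)) := by
          congr 1
          linarith
      _ = (t : ℝ) ^ (-(α * ep α)) * (t : ℝ) ^ (1 / (α + 1)) := by rw [← Real.rpow_add ht0]
      _ ≤ _ := by gcongr
  have hk5 : c3 * (t : ℝ) ^ (1 / 4 : ℝ) ≤ k := le_trans (by gcongr) hkc
  have hE0 : 0 < Real.exp (-(1 / 2 * (t : ℝ) ^ ep α)) := Real.exp_pos _
  have hUn := D.U0 t M
  set E := Real.exp (-(1 / 2 * (t : ℝ) ^ ep α))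
  have hE1 : (t : ℝ) ^ 4 * E ≤ 1 / 8 := le_trans hN1' (min_le_left _ _)
  have hE2 : (t : ℝ) ^ 4 * E ≤ κ1 / 2 / 32 := le_trans hN1' (min_le_right _ _)
  have ht24 : (t : ℝ) ^ 2 ≤ (t : ℝ) ^ 4 := pow_le_pow_right₀ htpos (by norm_num)
  have hcU : (t : ℝ) * (2 * (t + 1) * U t M) ≤ m t / 8 := by
    calc (t : ℝ) * (2 * (t + 1) * U t M) ≤ t * (2 * (t + t) * E) := by gcongr
      _ = 4 * (t ^ 2 * E) := by ring
      _ ≤ 4 * (t ^ 4 * E) := by gcongr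
      _ ≤ m t / 8 := by linarith
  have hcE : (t : ℝ) * Real.exp (-(b * G (2 * M) / 4)) ≤ m t / 8 := by
    calc (t : ℝ) * Real.exp (-(b * G (2 * M) / 4))
        ≤ t ^ 1 * Real.exp (-(c3 * (t : ℝ) ^ (1 / 4 : ℝ))) := by
          rw [pow_one]
          gcongr
          linarith
      _ ≤ m t / 8 := by linarith
  have hmt0 := D.m0 t
  have hL := D.Lle t b M k θ hk hbt hkb hθ0 hθ1 (by linarith) hcU
  have hF1 : 2 * ((t : ℝ) + 1) * U t M ≤ 1 / 2 * (1 / (t : ℝ) ^ 3) := by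
    calc 2 * ((t : ℝ) + 1) * U t M ≤ 2 * (t + t) * E := by gcongr
      _ = 4 * (t ^ 4 * E) * (1 / (t : ℝ) ^ 3) := by
          field_simp
          ring
      _ ≤ 1 / 2 * (1 / (t : ℝ) ^ 3) := by
          gcongr
          linarith
  have hF2 : Real.exp (-θ * (k * m t / 8) + t * (θ ^ 2 * v)) ≤ 1 / 2 * (1 / (t : ℝ) ^ 3) := by
    calc Real.exp (-θ * (k * m t / 8) + t * (θ ^ 2 * v)) ≤ Real.exp (-(c * (t : ℝ) ^ δ)) := by
          gcongr
      _ = (t ^ 3 * Real.exp (-(c * (t : ℝ) ^ δ))) * (1 / (t : ℝ) ^ 3) := by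
          field_simp
      _ ≤ 1 / 2 * (1 / (t : ℝ) ^ 3) := by gcongr
  linarith

end Pool.Agent.W_63dac5_h39
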