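import Pool.Agent.W_63dac5_h39.AnaD

/-!
# Step 8 (proofs row 559)
-/

set_option autoImplicit false

namespace Pool.Agent.W_63dac5_h39

variable {α κ1 κ2 cv : ℝ}

/-- The tail at `⌈m / 4⌉`, if `m ≥ c h`. -/
private lemma AnaE_G (h2 : 2 < α) (hκ2 : 0 ≤ κ2) {K : ℕ} (hK : 1 ≤ K) {m G L : ℕ → ℝ}
    {U : ℕ → ℕ → ℝ} {v : ℝ} (D : Dat α κ1 κ2 cv K m G L U v) {t : ℕ} (hKt : K ≤ t) {c : ℝ}
    (hc : 0 < c) (hm : c * hh α K t ≤ m t) :
    G ⌈m t / 4⌉₊ ≤ κ2 * ((4 / c) ^ α * (hh α K t / t)) := by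
  have hK' : (1 : ℝ) ≤ K := by exact_mod_cast hK
  have hKt' : (K : ℝ) ≤ t := by exact_mod_cast hKt
  have ht0 : (0 : ℝ) < t := by linarith
  obtain ⟨hKh, -⟩ := hh_ge (α := α) (K := K) h2 hK hKt'
  have hh0 : 0 < hh α K t := by linarith
  have hm0 : 0 < m t := lt_of_lt_of_le (by positivity) hm
  have hx1 : 1 ≤ ⌈m t / 4⌉₊ := Nat.one_le_ceil_iff.mpr (by positivity)
  have hx0 : (0 : ℝ) < (⌈m t / 4⌉₊ : ℕ) := by exact_mod_cast hx1
  have hG := D.Gup ⌈m t / 4⌉₊ hx1
  refine hG.trans (mul_le_mul_of_nonneg_left ?_ hκ2)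
  rw [← div_hh h2 hK ht0, ← Real.mul_rpow (by positivity) (by positivity)]
  apply Real.rpow_le_rpow (by positivity) _ (by linarith)
  rw [div_le_iff₀ hx0]
  have h1 : m t / 4 ≤ (⌈m t / 4⌉₊ : ℕ) := Nat.le_ceil _
  calc (K : ℝ) = 4 / c * (K / hh α K t) * (c * hh α K t / 4) := by field_simp
    _ ≤ 4 / c * (K / hh α K t) * (⌈m t / 4⌉₊ : ℕ) := by
        apply mul_le_mul_of_nonneg_left _ (by positivity)
        linarith

/-- Step 8.  `β = 1 / (α + 1)`, `c0 = κ1 / 2`.  Choose `C2 ≥ 2` with `κ2 (8 / C2) ^ α ≤ C2 β / 4`, and `K0` at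
least the one of `step7`, at least `3`, with `C2 K0 / 2 ≥ κ2 (4 / c0) ^ α + 1`.  Strong induction for
`m n ≤ C2 h n`: for `n ≤ K` by `mle` and `hh_small`; for `t + 1` with `t ≥ K` by `step` and `step7`:
if `m t ≤ C2 h / 2`, use `G ⌈m t / 4⌉ ≤ κ2 (4 K / m t) ^ α ≤ κ2 (4 / c0) ^ α h / t ≤ κ2 (4 / c0) ^ α` (`Gup`, `Dat.m_low`,
`div_hh`) and `C2 h / 2 ≥ C2 K / 2`; otherwise `G ⌈m t / 4⌉ ≤ κ2 (8 / C2) ^ α h / t ≤ (C2 β / 4) h / t` and
`1 / t ^ 3 ≤ (C2 β / 4) h / t`, and `hh_succ`. -/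
theorem ana (h2 : 2 < α) (h3 : α < 3) (hκ : 0 < κ1) (hκ1 : κ1 ≤ 1) (hκ2 : 1 ≤ κ2) (hcv : 1 ≤ cv) :
    ∃ K0 : ℕ, ∀ K : ℕ, K0 ≤ K → ∀ (m G L : ℕ → ℝ) (U : ℕ → ℕ → ℝ) (v : ℝ),
      Dat α κ1 κ2 cv K m G L U v → ∀ t : ℕ, K ≤ t → L t ≤ 1 / (t : ℝ) ^ 3 ∧ 0 < m t := by
  have hα1 : 0 < α + 1 := by linarith
  set C2 : ℝ := 8 + 4 * κ2 * (α + 1) with hC2
  have hC28 : 8 ≤ C2 := by
    rw [hC2]
    have : 0 ≤ 4 * κ2 * (α + 1) := by positivity
    linarith
  have hC20 : 0 < C2 := by linarith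
  -- `κ2 ≤ C2 β / 4`
  have hβ : κ2 ≤ C2 * (1 / (α + 1)) / 4 := by
    rw [mul_one_div, le_div_iff₀ (by norm_num : (0 : ℝ) < 4), le_div_iff₀ hα1]
    rw [hC2]; linarith
  obtain ⟨K1, hstep⟩ := step7 (κ2 := κ2) h2 h3 hκ hκ1 hcv (by linarith : (1 : ℝ) ≤ C2)
  set A : ℝ := κ2 * (4 / (κ1 / 2)) ^ α with hA
  have hA0 : 0 ≤ A := by positivity
  refine ⟨K1 + 3 + ⌈A + 1⌉₊, ?_⟩
  intro K hK m G L U v D
  have hK3 : 3 ≤ K := by omega
  have hK1 : 1 ≤ K := by omega
  have hKA : A + 1 ≤ K := le_trans (Nat.le_ceil _) (by exact_mod_cast (by omega : ⌈A + 1⌉₊ ≤ K))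
  have hK' : (3 : ℝ) ≤ K := by exact_mod_cast hK3
  have key : ∀ n : ℕ, m n ≤ C2 * hh α K n := by
    intro n
    induction n using Nat.strong_induction_on with
    | _ n ih =>
      by_cases hn : n ≤ K
      · have hn' : (n : ℝ) ≤ K := by exact_mod_cast hn
        have h4 := hh_small (α := α) h2 hK1 (Nat.cast_nonneg n) hn'
        have h5 := D.mle n
        have h6 := hh_nonneg α K (Nat.cast_nonneg n : (0 : ℝ) ≤ n)
        nlinarith
      · obtain ⟨t, rfl⟩ : ∃ t, n = t + 1 := ⟨n - 1, by omega⟩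
        have hKt : K ≤ t := by omega
        have hKt' : (K : ℝ) ≤ t := by exact_mod_cast hKt
        have ht3 : (3 : ℝ) ≤ t := by linarith
        have ht0 : (0 : ℝ) < t := by linarith
        obtain ⟨hKh, hht⟩ := hh_ge (α := α) (K := K) h2 hK1 hKt'
        have hh0 : 0 < hh α K t := by linarith
        have hL := hstep K (by omega) m G L U v D t hKt (fun s hs => ih s (by omega))
        have hmt := ih t (by omega)
        have hst := D.step t
        have hlow := D.m_low h2 hκ hκ1 hK1 hKt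
        have hL1 : 1 / (t : ℝ) ^ 3 ≤ 1 / t := by
          apply one_div_le_one_div_of_le ht0
          nlinarith [sq_nonneg ((t : ℝ) - 1), mul_pos ht0 ht0]
        have hsucc := hh_succ (α := α) (K := K) h2 hK1 (by linarith : (1 : ℝ) ≤ t)
        have hcast : ((t + 1 : ℕ) : ℝ) = (t : ℝ) + 1 := by push_cast; ring
        rw [hcast]
        have hht0 : 0 ≤ hh α K t / t := by positivity
        by_cases hcase : m t ≤ C2 * hh α K t / 2
        · have hG := AnaE_G h2 (by linarith) hK1 D hKt (by positivity : 0 < κ1 / 2) hlow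
          have hht1 : hh α K t / t ≤ 1 := (div_le_one ht0).2 hht
          have hp : 0 ≤ (4 / (κ1 / 2)) ^ α := by positivity
          have hG2 : κ2 * ((4 / (κ1 / 2)) ^ α * (hh α K t / t)) ≤ A := by
            rw [hA]
            apply mul_le_mul_of_nonneg_left _ (by linarith)
            nlinarith
          have hL2 : 1 / (t : ℝ) ≤ 1 := by
            rw [div_le_one ht0]; linarith
          have hmono : hh α K t ≤ hh α K (t + 1) := hh_mono h2 ht0.le (by linarith)
          have h7 : A + 1 ≤ C2 * hh α K t / 2 := by nlinarith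
          have h8 : C2 * hh α K t ≤ C2 * hh α K (t + 1) :=
            mul_le_mul_of_nonneg_left hmono hC20.le
          linarith
        · push Not at hcase
          have hG := AnaE_G h2 (by linarith) hK1 D hKt (by positivity : 0 < C2 / 2)
            (by linarith : C2 / 2 * hh α K t ≤ m t)
          have hp1 : (4 / (C2 / 2)) ^ α ≤ 1 := by
            apply Real.rpow_le_one (by positivity) _ (by linarith)
            rw [div_le_one (by positivity)]
            linarith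
          have hG2 : κ2 * ((4 / (C2 / 2)) ^ α * (hh α K t / t)) ≤
              C2 * (1 / (α + 1)) / 4 * (hh α K t / t) := by
            have h9 : (4 / (C2 / 2)) ^ α * (hh α K t / t) ≤ 1 * (hh α K t / t) :=
              mul_le_mul_of_nonneg_right hp1 hht0
            calc κ2 * ((4 / (C2 / 2)) ^ α * (hh α K t / t)) ≤ κ2 * (1 * (hh α K t / t)) :=
                  mul_le_mul_of_nonneg_left h9 (by linarith)
              _ = κ2 * (hh α K t / t) := by ring
              _ ≤ _ := mul_le_mul_of_nonneg_right hβ hht0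
          have hL2 : 1 / (t : ℝ) ≤ C2 * (1 / (α + 1)) / 4 * (hh α K t / t) := by
            calc 1 / (t : ℝ) ≤ hh α K t / t := by
                  apply div_le_div_of_nonneg_right _ ht0.le
                  linarith
              _ = 1 * (hh α K t / t) := by ring
              _ ≤ _ := mul_le_mul_of_nonneg_right (by linarith) hht0
          have h10 : C2 * (hh α K t + 1 / (α + 1) / 2 * (hh α K t / t)) ≤
              C2 * hh α K (t + 1) := mul_le_mul_of_nonneg_left hsucc hC20.le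
          have h11 : C2 * (hh α K t + 1 / (α + 1) / 2 * (hh α K t / t)) =
              C2 * hh α K t + C2 * (1 / (α + 1)) / 4 * (hh α K t / t) +
                C2 * (1 / (α + 1)) / 4 * (hh α K t / t) := by ring
          linarith
  intro t hKt
  refine ⟨hstep K (by omega) m G L U v D t hKt (fun n _ => key n), ?_⟩
  have hKt' : (K : ℝ) ≤ t := by exact_mod_cast hKt
  obtain ⟨hKh, -⟩ := hh_ge (α := α) (K := K) h2 hK1 hKt'
  have hlow := D.m_low h2 hκ hκ1 hK1 hKt
  have : 0 < κ1 / 2 * hh α K t := mul_pos (by linarith) (by linarith)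
  linarith

end Pool.Agent.W_63dac5_h39
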