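import Pool.Agent.W_MP_63dac5_pr.Prob
import Pool.Agent.W_63dac5_h37.ExTools

/-!
# Exponential bound for Lipschitz functions of independent letters (proofs row 559, step 5)
-/

set_option autoImplicit false

namespace Pool.Agent.W_63dac5_h39

open ENNReal
open Pool.Agent.W_MP_63dac5_pr Pool.Agent.W_63dac5_h37

variable {α : Type*}

/-- `exp y ≤ 1 + y + y ^ 2` for `|y| ≤ 1` -/
lemma exp_le_quad {y : ℝ} (h : |y| ≤ 1) : Real.exp y ≤ 1 + y + y ^ 2 := by
  have h1 := Real.abs_exp_sub_one_sub_id_le h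
  have h2 := (abs_le.mp h1).2
  linarith

/-- One letter.  Pointwise `exp (-θ F a) + exp (-θ F0) θ F a ≤ exp (-θ F0) (1 + θ F0 + θ ^ 2 (W a) ^ 2)`
(`exp_le_quad` with `y = -θ (F a - F0)`).  Sum with weights `ν`: with `m` the mean of `F` this gives
`X + exp (-θ F0) θ m ≤ exp (-θ F0) (1 + θ F0 + θ ^ 2 v)`, so
`X ≤ exp (-θ F0) (1 + θ (F0 - m) + θ ^ 2 v) ≤ exp (-θ m + θ ^ 2 v)`. -/
lemma one_letter {ν : α → ℝ≥0∞} (hν : ∑' a, ν a = 1) {W F : α → ℝ} {F0 v θ C : ℝ} (hθ : 0 ≤ θ)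
    (hW : ∀ a, θ * W a ≤ 1) (hv0 : 0 ≤ v)
    (hv : ∑' a, ν a * ENNReal.ofReal (W a ^ 2) ≤ ENNReal.ofReal v)
    (hF : ∀ a, 0 ≤ F a) (hC : ∀ a, F a ≤ C) (hF0 : 0 ≤ F0) (hL : ∀ a, |F a - F0| ≤ W a) :
    ∑' a, ν a * ENNReal.ofReal (Real.exp (-θ * F a)) ≤
      ENNReal.ofReal (Real.exp (-θ * (∑' a, ν a * ENNReal.ofReal (F a)).toReal + θ ^ 2 * v)) := by
  set e0 : ℝ := Real.exp (-θ * F0) with he0
  have he0p : 0 < e0 := Real.exp_pos _
  have hpt : ∀ a, Real.exp (-θ * F a) + e0 * θ * F a ≤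
      e0 * (1 + θ * F0) + e0 * θ ^ 2 * W a ^ 2 := by
    intro a
    have hW0 : 0 ≤ W a := le_trans (abs_nonneg _) (hL a)
    have hy : |-θ * (F a - F0)| ≤ θ * W a := by
      rw [abs_mul, abs_neg, abs_of_nonneg hθ]
      exact mul_le_mul_of_nonneg_left (hL a) hθ
    have hq := exp_le_quad (le_trans hy (hW a))
    have hsq : (-θ * (F a - F0)) ^ 2 ≤ (θ * W a) ^ 2 := by
      rw [← sq_abs]
      exact pow_le_pow_left₀ (abs_nonneg _) hy 2
    have hexp : Real.exp (-θ * F a) = e0 * Real.exp (-θ * (F a - F0)) := by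
      rw [he0, ← Real.exp_add]
      congr 1
      ring
    have h3 : Real.exp (-θ * (F a - F0)) ≤ 1 + -θ * (F a - F0) + (θ * W a) ^ 2 := by linarith
    have h4 := mul_le_mul_of_nonneg_left h3 he0p.le
    rw [hexp]
    nlinarith [h4]
  set M : ℝ≥0∞ := ∑' a, ν a * ENNReal.ofReal (F a) with hM
  set X : ℝ≥0∞ := ∑' a, ν a * ENNReal.ofReal (Real.exp (-θ * F a)) with hX
  have hMle : M ≤ ENNReal.ofReal C := by
    calc M ≤ ∑' a, ν a * ENNReal.ofReal C :=
          ENNReal.tsum_le_tsum fun a => by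
            gcongr
            exact hC a
      _ = ENNReal.ofReal C := by rw [ENNReal.tsum_mul_right, hν, one_mul]
  have hMtop : M ≠ ⊤ := ne_top_of_le_ne_top ENNReal.ofReal_ne_top hMle
  have hXle : X ≤ 1 := by
    calc X ≤ ∑' a, ν a * 1 :=
          ENNReal.tsum_le_tsum fun a => by
            gcongr
            rw [← ENNReal.ofReal_one]
            apply ENNReal.ofReal_le_ofReal
            rw [Real.exp_le_one_iff]
            have := mul_nonneg hθ (hF a)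
            linarith
      _ = 1 := by rw [ENNReal.tsum_mul_right, hν, one_mul]
  have hXtop : X ≠ ⊤ := ne_top_of_le_ne_top ENNReal.one_ne_top hXle
  have hA0 : 0 ≤ e0 * θ := mul_nonneg he0p.le hθ
  have hB0 : 0 ≤ e0 * (1 + θ * F0) :=
    mul_nonneg he0p.le (by have := mul_nonneg hθ hF0; linarith)
  have hD0 : 0 ≤ e0 * θ ^ 2 := mul_nonneg he0p.le (sq_nonneg _)
  have hsum : X + ENNReal.ofReal (e0 * θ) * M ≤
      ENNReal.ofReal (e0 * (1 + θ * F0)) + ENNReal.ofReal (e0 * θ ^ 2) * ENNReal.ofReal v := by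
    have h1 : X + ENNReal.ofReal (e0 * θ) * M =
        ∑' a, ν a * ENNReal.ofReal (Real.exp (-θ * F a) + e0 * θ * F a) := by
      rw [hX, hM, ← ENNReal.tsum_mul_left, ← ENNReal.tsum_add]
      refine tsum_congr fun a => ?_
      rw [ENNReal.ofReal_add (Real.exp_pos _).le (mul_nonneg hA0 (hF a)),
        ENNReal.ofReal_mul hA0]
      ring
    have h2 : ∑' a, ν a * ENNReal.ofReal (e0 * (1 + θ * F0) + e0 * θ ^ 2 * W a ^ 2) =
        ENNReal.ofReal (e0 * (1 + θ * F0)) +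
          ENNReal.ofReal (e0 * θ ^ 2) * ∑' a, ν a * ENNReal.ofReal (W a ^ 2) := by
      rw [← ENNReal.tsum_mul_left]
      have : ENNReal.ofReal (e0 * (1 + θ * F0)) =
          ∑' a, ν a * ENNReal.ofReal (e0 * (1 + θ * F0)) := by
        rw [ENNReal.tsum_mul_right, hν, one_mul]
      rw [this, ← ENNReal.tsum_add]
      refine tsum_congr fun a => ?_
      rw [ENNReal.ofReal_add hB0 (mul_nonneg hD0 (sq_nonneg _)), ENNReal.ofReal_mul hD0]
      ring
    rw [h1]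
    calc ∑' a, ν a * ENNReal.ofReal (Real.exp (-θ * F a) + e0 * θ * F a)
        ≤ ∑' a, ν a * ENNReal.ofReal (e0 * (1 + θ * F0) + e0 * θ ^ 2 * W a ^ 2) :=
          ENNReal.tsum_le_tsum fun a =>
            mul_le_mul_right (ENNReal.ofReal_le_ofReal (hpt a)) _
      _ = _ := h2
      _ ≤ _ := by
          gcongr
  have hreal : X.toReal + e0 * θ * M.toReal ≤ e0 * (1 + θ * F0) + e0 * θ ^ 2 * v := by
    have h1 : X + ENNReal.ofReal (e0 * θ) * M =
        ENNReal.ofReal (X.toReal + e0 * θ * M.toReal) := by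
      rw [ENNReal.ofReal_add ENNReal.toReal_nonneg (mul_nonneg hA0 ENNReal.toReal_nonneg),
        ENNReal.ofReal_mul hA0, ENNReal.ofReal_toReal hXtop, ENNReal.ofReal_toReal hMtop]
    have h2 : ENNReal.ofReal (e0 * (1 + θ * F0)) + ENNReal.ofReal (e0 * θ ^ 2) * ENNReal.ofReal v =
        ENNReal.ofReal (e0 * (1 + θ * F0) + e0 * θ ^ 2 * v) := by
      rw [ENNReal.ofReal_add hB0 (mul_nonneg hD0 hv0), ENNReal.ofReal_mul hD0]
    rw [h1, h2] at hsum
    exact (ENNReal.ofReal_le_ofReal_iff (add_nonneg hB0 (mul_nonneg hD0 hv0))).mp hsum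
  rw [← ENNReal.ofReal_toReal hXtop]
  apply ENNReal.ofReal_le_ofReal
  have h5 : X.toReal ≤ e0 * (θ * (F0 - M.toReal) + θ ^ 2 * v + 1) := by nlinarith [hreal]
  have h6 : e0 * (θ * (F0 - M.toReal) + θ ^ 2 * v + 1) ≤
      e0 * Real.exp (θ * (F0 - M.toReal) + θ ^ 2 * v) :=
    mul_le_mul_of_nonneg_left (Real.add_one_le_exp _) he0p.le
  have h7 : e0 * Real.exp (θ * (F0 - M.toReal) + θ ^ 2 * v) =
      Real.exp (-θ * M.toReal + θ ^ 2 * v) := by
    rw [he0, ← Real.exp_add]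
    congr 1
    ring
  linarith

end Pool.Agent.W_63dac5_h39
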