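import Pool.Agent.W_63dac5_h39.Dev

/-!
# Exponential bound for Lipschitz functions of independent letters (proofs row 559, step 5)
-/

set_option autoImplicit false

namespace Pool.Agent.W_63dac5_h39

open ENNReal
open Pool.Agent.W_MP_63dac5_pr Pool.Agent.W_63dac5_h37

variable {α : Type*}

private lemma Dev2_bdd {ν : α → ℝ≥0∞} (hν : ∑' a, ν a = 1) (n : ℕ) (f : List α → ℝ) {C : ℝ}
    (hC : ∀ w, w.length = n → f w ≤ C) :
    Ex ν n (fun w => ENNReal.ofReal (f w)) ≤ ENNReal.ofReal C := by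
  calc Ex ν n (fun w => ENNReal.ofReal (f w)) ≤ Ex ν n (fun _ => ENNReal.ofReal C) :=
        Ex_mono ν n fun w hw => ENNReal.ofReal_le_ofReal (hC w hw)
    _ = ENNReal.ofReal C := Ex_const hν n _

/-- Induction on `n` for all `f`.  For `n + 1` put `F a = (Ex ν n (fun w => ofReal (f (a :: w)))).toReal`;
`|F a - F a0| ≤ W a` by monotonicity of `Ex` (add the constant `W a`), `one_letter`. -/
theorem expo {ν : α → ℝ≥0∞} (hν : ∑' a, ν a = 1) (a0 : α) {W : α → ℝ} {v θ C : ℝ} (hθ : 0 ≤ θ)
    (hW : ∀ a, θ * W a ≤ 1) (hv0 : 0 ≤ v)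
    (hv : ∑' a, ν a * ENNReal.ofReal (W a ^ 2) ≤ ENNReal.ofReal v) (n : ℕ) (f : List α → ℝ)
    (hf : ∀ w, 0 ≤ f w) (hC : ∀ w, w.length = n → f w ≤ C)
    (hL : ∀ x a y, |f (x ++ a :: y) - f (x ++ a0 :: y)| ≤ W a) :
    Ex ν n (fun w => ENNReal.ofReal (Real.exp (-θ * f w))) ≤
      ENNReal.ofReal (Real.exp (-θ * (Ex ν n (fun w => ENNReal.ofReal (f w))).toReal +
        n * (θ ^ 2 * v))) := by
  induction n generalizing f with
  | zero =>
    simp only [Ex]
    rw [ENNReal.toReal_ofReal (hf [])]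
    simp
  | succ n ih =>
    have hW0 : ∀ a, 0 ≤ W a := fun a => le_trans (abs_nonneg _) (hL [] a [])
    set G : α → ℝ≥0∞ := fun a => Ex ν n (fun w => ENNReal.ofReal (f (a :: w))) with hG
    have hGle : ∀ a, G a ≤ ENNReal.ofReal C := fun a =>
      Dev2_bdd hν n (fun w => f (a :: w)) fun w hw => hC _ (by simp [hw])
    have hGtop : ∀ a, G a ≠ ⊤ := fun a => ne_top_of_le_ne_top ENNReal.ofReal_ne_top (hGle a)
    set F : α → ℝ := fun a => (G a).toReal with hF
    have hFC : ∀ a, F a ≤ max C 0 := by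
      intro a
      have h1 : (G a).toReal ≤ (ENNReal.ofReal C).toReal :=
        ENNReal.toReal_mono ENNReal.ofReal_ne_top (hGle a)
      rw [ENNReal.toReal_ofReal'] at h1
      exact h1
    have hcomp : ∀ a b c : α, (∀ w, f (a :: w) ≤ f (b :: w) + W c) → F a ≤ F b + W c := by
      intro a b c hab
      have h1 : G a ≤ G b + ENNReal.ofReal (W c) := by
        calc G a ≤ Ex ν n (fun w => ENNReal.ofReal (f (b :: w)) + ENNReal.ofReal (W c)) := by
              refine Ex_mono ν n fun w _ => ?_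
              rw [← ENNReal.ofReal_add (hf _) (hW0 c)]
              exact ENNReal.ofReal_le_ofReal (hab w)
          _ = G b + ENNReal.ofReal (W c) := by rw [Ex_add, Ex_const hν]
      have h2 := ENNReal.toReal_mono (ENNReal.add_ne_top.2 ⟨hGtop b, ENNReal.ofReal_ne_top⟩) h1
      rw [ENNReal.toReal_add (hGtop b) ENNReal.ofReal_ne_top, ENNReal.toReal_ofReal (hW0 c)] at h2
      exact h2
    have hFL : ∀ a, |F a - F a0| ≤ W a := by
      intro a
      have hl : ∀ w, |f (a :: w) - f (a0 :: w)| ≤ W a := fun w => hL [] a w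
      have h1 := hcomp a a0 a (fun w => by
        have := (abs_le.1 (hl w)).2
        linarith)
      have h2 := hcomp a0 a a (fun w => by
        have := (abs_le.1 (hl w)).1
        linarith)
      rw [abs_le]
      constructor <;> linarith
    have hone := one_letter hν (W := W) (F := F) (F0 := F a0) hθ hW hv0 hv
      (fun a => ENNReal.toReal_nonneg) hFC ENNReal.toReal_nonneg hFL
    have hmean : ∑' a, ν a * ENNReal.ofReal (F a) =
        Ex ν (n + 1) (fun w => ENNReal.ofReal (f w)) := by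
      simp only [Ex]
      refine tsum_congr fun a => ?_
      rw [hF]
      simp only
      rw [ENNReal.ofReal_toReal (hGtop a)]
    rw [hmean] at hone
    have hstep : Ex ν (n + 1) (fun w => ENNReal.ofReal (Real.exp (-θ * f w))) ≤
        ENNReal.ofReal (Real.exp (n * (θ ^ 2 * v))) *
          ∑' a, ν a * ENNReal.ofReal (Real.exp (-θ * F a)) := by
      rw [← ENNReal.tsum_mul_left]
      simp only [Ex]
      refine ENNReal.tsum_le_tsum fun a => ?_
      have h1 := ih (fun w => f (a :: w)) (fun w => hf _) (fun w hw => hC _ (by simp [hw]))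
        (fun x b y => hL (a :: x) b y)
      have h2 : ENNReal.ofReal (Real.exp (-θ * F a + n * (θ ^ 2 * v))) =
          ENNReal.ofReal (Real.exp (n * (θ ^ 2 * v))) * ENNReal.ofReal (Real.exp (-θ * F a)) := by
        rw [← ENNReal.ofReal_mul (Real.exp_pos _).le, ← Real.exp_add, add_comm]
      calc ν a * Ex ν n (fun w => ENNReal.ofReal (Real.exp (-θ * f (a :: w))))
          ≤ ν a * ENNReal.ofReal (Real.exp (-θ * F a + n * (θ ^ 2 * v))) := by
            gcongr
        _ = _ := by
            rw [h2]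
            ring
    refine hstep.trans ?_
    calc ENNReal.ofReal (Real.exp (n * (θ ^ 2 * v))) *
          ∑' a, ν a * ENNReal.ofReal (Real.exp (-θ * F a))
        ≤ ENNReal.ofReal (Real.exp (n * (θ ^ 2 * v))) *
          ENNReal.ofReal (Real.exp (-θ * (Ex ν (n + 1) (fun w => ENNReal.ofReal (f w))).toReal +
            θ ^ 2 * v)) := by gcongr
      _ = _ := by
        rw [← ENNReal.ofReal_mul (Real.exp_pos _).le, ← Real.exp_add]
        congr 2
        push_cast
        ring

/-- Markov: the indicator is at most `exp (θ (E - s)) exp (-θ f w)`, then `expo`. -/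
theorem lower_tail {ν : α → ℝ≥0∞} (hν : ∑' a, ν a = 1) (a0 : α) {W : α → ℝ} {v θ C s : ℝ}
    (hθ : 0 ≤ θ) (hW : ∀ a, θ * W a ≤ 1) (hv0 : 0 ≤ v)
    (hv : ∑' a, ν a * ENNReal.ofReal (W a ^ 2) ≤ ENNReal.ofReal v) (n : ℕ) (f : List α → ℝ)
    (hf : ∀ w, 0 ≤ f w) (hC : ∀ w, w.length = n → f w ≤ C)
    (hL : ∀ x a y, |f (x ++ a :: y) - f (x ++ a0 :: y)| ≤ W a) :
    Ex ν n (fun w => if f w + s ≤ (Ex ν n (fun w => ENNReal.ofReal (f w))).toReal then 1 else 0) ≤
      ENNReal.ofReal (Real.exp (-θ * s + n * (θ ^ 2 * v))) := by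
  set E : ℝ := (Ex ν n (fun w => ENNReal.ofReal (f w))).toReal with hE
  have h1 := expo hν a0 hθ hW hv0 hv n f hf hC hL
  rw [← hE] at h1
  have h2 : Ex ν n (fun w => if f w + s ≤ E then 1 else 0) ≤
      ENNReal.ofReal (Real.exp (θ * (E - s))) *
        Ex ν n (fun w => ENNReal.ofReal (Real.exp (-θ * f w))) := by
    rw [← Ex_mul_left]
    refine Ex_mono ν n fun w _ => ?_
    split_ifs with h
    · rw [← ENNReal.ofReal_mul (Real.exp_pos _).le, ← Real.exp_add, ← ENNReal.ofReal_one]
      apply ENNReal.ofReal_le_ofReal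
      have h3 : 0 ≤ θ * (E - s) + -θ * f w := by nlinarith
      linarith [Real.add_one_le_exp (θ * (E - s) + -θ * f w)]
    · exact bot_le
  refine h2.trans ?_
  calc ENNReal.ofReal (Real.exp (θ * (E - s))) *
        Ex ν n (fun w => ENNReal.ofReal (Real.exp (-θ * f w)))
      ≤ ENNReal.ofReal (Real.exp (θ * (E - s))) *
        ENNReal.ofReal (Real.exp (-θ * E + n * (θ ^ 2 * v))) := by gcongr
    _ = _ := by
      rw [← ENNReal.ofReal_mul (Real.exp_pos _).le, ← Real.exp_add]
      congr 2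
      ring

end Pool.Agent.W_63dac5_h39
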