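import Pool.Agent.W_63dac5_h39.Law

/-!
# Power tails: the tail of the number of right stubs, and the second moment (proofs row 559)
-/

set_option autoImplicit false

namespace Pool.Agent.W_63dac5_h39

open ENNReal
open Pool.Agent.W_MP_63dac5_pr Pool.Agent.W_63dac5_h37

variable {α ρ : ℝ} {K : ℕ} {μ : PMF ℕ}

private noncomputable def Law2_T (μ : PMF ℕ) (x : ℕ) : ℝ≥0∞ :=
  ∑' d : ℕ, μ d * (if x < d then 1 else 0)

private lemma Law2_T_le_one (μ : PMF ℕ) (x : ℕ) : Law2_T μ x ≤ 1 := by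
  unfold Law2_T
  refine le_trans ?_ μ.tsum_coe.le
  refine ENNReal.tsum_le_tsum fun d => ?_
  by_cases h1 : x < d
  · rw [if_pos h1, mul_one]
  · rw [if_neg h1, mul_zero]; exact bot_le

private lemma Law2_T_toReal (μ : PMF ℕ) (x : ℕ) : (Law2_T μ x).toReal = Dt μ x := by
  unfold Law2_T Dt
  rw [ENNReal.tsum_toReal_eq]
  · refine tsum_congr fun d => ?_
    by_cases h1 : x < d
    · rw [if_pos h1, if_pos h1, mul_one]
    · rw [if_neg h1, if_neg h1, mul_zero, ENNReal.toReal_zero]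
  · intro d
    by_cases h1 : x < d
    · rw [if_pos h1, mul_one]; exact μ.apply_ne_top d
    · rw [if_neg h1, mul_zero]; exact ENNReal.zero_ne_top

private lemma Law2_T_eq (μ : PMF ℕ) (x : ℕ) : Law2_T μ x = ENNReal.ofReal (Dt μ x) := by
  rw [← Law2_T_toReal, ENNReal.ofReal_toReal]
  exact ((Law2_T_le_one μ x).trans_lt ENNReal.one_lt_top).ne

private lemma Law2_Dt_le_one (μ : PMF ℕ) (x : ℕ) : Dt μ x ≤ 1 := by
  rw [← Law2_T_toReal]
  have h := ENNReal.toReal_mono ENNReal.one_ne_top (Law2_T_le_one μ x)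
  simpa using h

private lemma Law2_Dt_nonneg (μ : PMF ℕ) (x : ℕ) : 0 ≤ Dt μ x := by
  rw [← Law2_T_toReal]
  exact ENNReal.toReal_nonneg

private lemma Law2_Dt_ge (hK : 1 ≤ K) (h : Tail α ρ K μ) {x : ℕ} (hx : x < K) :
    1 / ρ ≤ Dt μ x := by
  have hKr : (0 : ℝ) < K := by exact_mod_cast hK
  have h1 := h.low K le_rfl
  rw [div_self hKr.ne', Real.one_rpow] at h1
  refine h1.trans ?_
  rw [← Law2_T_toReal, ← Law2_T_toReal]
  apply ENNReal.toReal_mono ((Law2_T_le_one μ x).trans_lt ENNReal.one_lt_top).ne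
  unfold Law2_T
  refine ENNReal.tsum_le_tsum fun d => ?_
  gcongr
  by_cases h2 : K < d
  · rw [if_pos h2, if_pos (by omega)]
  · rw [if_neg h2]; exact bot_le

/-- If `2 x < K` then `Dt μ (2 x) = 1`; otherwise `Dt μ (2 x) ≥ (K / (2 y)) ^ α / ρ`. -/
lemma Tail.Glow (h2 : 2 < α) (hρ : 1 ≤ ρ) (hK : 1 ≤ K) (h : Tail α ρ K μ) (x : ℕ) (y : ℝ)
    (hxy : (x : ℝ) ≤ y) (hy : 0 < y) :
    1 / (2 ^ (α + 1) * ρ) * min 1 (((K : ℝ) / y) ^ α) ≤ (Gt (nu μ) x).toReal := by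
  have hG := Dt_le_Gt μ x
  have hKr : (0 : ℝ) < K := by exact_mod_cast hK
  have h2a : (0 : ℝ) < 2 ^ α := Real.rpow_pos_of_pos (by norm_num) α
  have h2a1 : (1 : ℝ) ≤ 2 ^ α := Real.one_le_rpow (by norm_num) (by linarith)
  have hpow : (2 : ℝ) ^ (α + 1) = 2 ^ α * 2 := by
    rw [Real.rpow_add (by norm_num), Real.rpow_one]
  have hc0 : (0 : ℝ) < 1 / (2 ^ (α + 1) * ρ) := by
    rw [hpow]
    positivity
  by_cases hx : 2 * x < K
  · have hge := Law2_Dt_ge hK h hx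
    have h3 : 1 / (2 ^ (α + 1) * ρ) ≤ 1 / ρ / 2 := by
      rw [div_div]
      apply one_div_le_one_div_of_le (by linarith)
      rw [hpow]
      nlinarith
    calc 1 / (2 ^ (α + 1) * ρ) * min 1 (((K : ℝ) / y) ^ α)
        ≤ 1 / (2 ^ (α + 1) * ρ) * 1 := by
          apply mul_le_mul_of_nonneg_left (min_le_left _ _) hc0.le
      _ ≤ 1 / ρ / 2 := by rw [mul_one]; exact h3
      _ ≤ (Gt (nu μ) x).toReal := by linarith
  · have hx2 : K ≤ 2 * x := by omega
    have hlow := h.low (2 * x) hx2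
    have hx0 : (0 : ℝ) < x := by
      have : 0 < x := by omega
      exact_mod_cast this
    have h4 : (K : ℝ) / (2 * y) ≤ (K : ℝ) / ((2 * x : ℕ) : ℝ) := by
      push_cast
      apply div_le_div_of_nonneg_left hKr.le (by positivity)
      linarith
    have h5 : ((K : ℝ) / (2 * y)) ^ α ≤ ((K : ℝ) / ((2 * x : ℕ) : ℝ)) ^ α :=
      Real.rpow_le_rpow (by positivity) h4 (by linarith)
    have h6 : ((K : ℝ) / (2 * y)) ^ α = ((K : ℝ) / y) ^ α / 2 ^ α := by
      rw [← Real.div_rpow (by positivity) (by norm_num)]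
      congr 1
      field_simp
    calc 1 / (2 ^ (α + 1) * ρ) * min 1 (((K : ℝ) / y) ^ α)
        ≤ 1 / (2 ^ (α + 1) * ρ) * ((K : ℝ) / y) ^ α := by
          apply mul_le_mul_of_nonneg_left (min_le_right _ _) hc0.le
      _ = (((K : ℝ) / (2 * y)) ^ α / ρ) / 2 := by
          rw [h6, hpow]
          field_simp
      _ ≤ (((K : ℝ) / ((2 * x : ℕ) : ℝ)) ^ α / ρ) / 2 := by
          have hρ0 : (0 : ℝ) < ρ := by linarith
          have := div_le_div_of_nonneg_right h5 hρ0.le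
          linarith
      _ ≤ Dt μ (2 * x) / 2 := by linarith
      _ ≤ (Gt (nu μ) x).toReal := by linarith

lemma Tail.Gup (h2 : 2 < α) (hρ : 1 ≤ ρ) (hK : 1 ≤ K) (h : Tail α ρ K μ) (x : ℕ) (hx : 1 ≤ x) :
    (Gt (nu μ) x).toReal ≤ ρ * ((K : ℝ) / x) ^ α := by
  refine (Gt_le_Dt μ x).trans ?_
  by_cases hKx : K ≤ x
  · exact h.up x hKx
  · refine (Law2_Dt_le_one μ x).trans ?_
    have hx0 : (0 : ℝ) < x := by exact_mod_cast hx
    have h3 : (1 : ℝ) ≤ (K : ℝ) / x := by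
      rw [le_div_iff₀ hx0, one_mul]
      have : x ≤ K := by omega
      exact_mod_cast this
    have h4 : (1 : ℝ) ≤ ((K : ℝ) / x) ^ α := Real.one_le_rpow h3 (by linarith)
    nlinarith

private lemma Law2_step {β : ℝ} (hβ : 0 < β) {x : ℝ} (hx : 1 ≤ x) :
    β * 2 ^ (-(β + 1)) * x ^ (-(β + 1)) ≤ x ^ (-β) - (x + 1) ^ (-β) := by
  have hx0 : (0 : ℝ) < x := by linarith
  have h1 : 1 + β / (x + 1) ≤ ((x + 1) / x) ^ β := by
    rw [Real.rpow_def_of_pos (by positivity)]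
    have h2 : 1 - ((x + 1) / x)⁻¹ ≤ Real.log ((x + 1) / x) :=
      Real.one_sub_inv_le_log_of_pos (by positivity)
    have h3 : 1 - ((x + 1) / x)⁻¹ = 1 / (x + 1) := by
      field_simp
      ring
    rw [h3] at h2
    have h4 := Real.add_one_le_exp (Real.log ((x + 1) / x) * β)
    have h5 : β / (x + 1) ≤ Real.log ((x + 1) / x) * β := by
      have := mul_le_mul_of_nonneg_right h2 hβ.le
      calc β / (x + 1) = 1 / (x + 1) * β := by ring
        _ ≤ _ := this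
    linarith
  have h6 : x ^ (-β) = (x + 1) ^ (-β) * ((x + 1) / x) ^ β := by
    rw [Real.div_rpow (by positivity) hx0.le, Real.rpow_neg hx0.le, Real.rpow_neg (by positivity)]
    have h7 : (0 : ℝ) < (x + 1) ^ β := Real.rpow_pos_of_pos (by positivity) β
    have h8 : (0 : ℝ) < x ^ β := Real.rpow_pos_of_pos hx0 β
    field_simp
  have h9 : (0 : ℝ) < (x + 1) ^ (-β) := Real.rpow_pos_of_pos (by positivity) _
  have h10 : (x + 1) ^ (-(β + 1)) = (x + 1) ^ (-β) / (x + 1) := by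
    rw [neg_add, Real.rpow_add (by positivity), Real.rpow_neg_one]
    rfl
  have h11 : (2 * x) ^ (-(β + 1)) ≤ (x + 1) ^ (-(β + 1)) := by
    apply Real.rpow_le_rpow_of_nonpos (by positivity) (by linarith) (by linarith)
  rw [Real.mul_rpow (by norm_num) hx0.le] at h11
  calc β * 2 ^ (-(β + 1)) * x ^ (-(β + 1)) = β * (2 ^ (-(β + 1)) * x ^ (-(β + 1))) := by ring
    _ ≤ β * (x + 1) ^ (-(β + 1)) := mul_le_mul_of_nonneg_left h11 hβ.le
    _ = (x + 1) ^ (-β) * (β / (x + 1)) := by rw [h10]; ring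
    _ ≤ (x + 1) ^ (-β) * (((x + 1) / x) ^ β - 1) :=
        mul_le_mul_of_nonneg_left (by linarith) h9.le
    _ = x ^ (-β) - (x + 1) ^ (-β) := by rw [h6]; ring

private lemma Law2_partial (h2 : 2 < α) (hρ : 1 ≤ ρ) (hK : 1 ≤ K) (h : Tail α ρ K μ) (m : ℕ) :
    ∑ x ∈ Finset.range (K + m), (2 * (x : ℝ) + 1) * Dt μ x ≤
      (K : ℝ) ^ 2 + 3 * ρ * 2 ^ (α - 1) / (α - 2) * (K : ℝ) ^ α *
        ((K : ℝ) ^ (2 - α) - ((K : ℝ) + m) ^ (2 - α)) := by
  have hKr : (1 : ℝ) ≤ K := by exact_mod_cast hK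
  induction m with
  | zero =>
    have h3 : ∀ n : ℕ, ∑ x ∈ Finset.range n, (2 * (x : ℝ) + 1) * Dt μ x ≤ (n : ℝ) ^ 2 := by
      intro n
      induction n with
      | zero => simp
      | succ n ih =>
        rw [Finset.sum_range_succ]
        have h4 := Law2_Dt_le_one μ n
        have h5 : (0 : ℝ) ≤ n := Nat.cast_nonneg n
        push_cast
        nlinarith
    rw [Nat.add_zero]
    refine (h3 K).trans (le_of_eq ?_)
    simp
  | succ m ih =>
    rw [← Nat.add_assoc, Finset.sum_range_succ]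
    have hx : (1 : ℝ) ≤ (K : ℝ) + m := by
      have : (0 : ℝ) ≤ m := Nat.cast_nonneg m
      linarith
    have hx0 : (0 : ℝ) < (K : ℝ) + m := by linarith
    have hup := h.up (K + m) (by omega)
    have hstep := Law2_step (β := α - 2) (by linarith) hx
    have e1 : -(α - 2) = 2 - α := by ring
    have e2 : -(α - 2 + 1) = 1 - α := by ring
    rw [e1, e2] at hstep
    have hD : Dt μ (K + m) ≤ ρ * ((K : ℝ) ^ α / ((K : ℝ) + m) ^ α) := by
      refine hup.trans (le_of_eq ?_)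
      rw [Real.div_rpow (by positivity) (by positivity)]
      push_cast
      rfl
    have hKa : (0 : ℝ) < (K : ℝ) ^ α := Real.rpow_pos_of_pos (by linarith) α
    have hxa : (0 : ℝ) < ((K : ℝ) + m) ^ α := Real.rpow_pos_of_pos hx0 α
    have hpow : ((K : ℝ) + m) ^ (1 - α) = ((K : ℝ) + m) / ((K : ℝ) + m) ^ α := by
      rw [Real.rpow_sub hx0, Real.rpow_one]
    have h2pow : (2 : ℝ) ^ (1 - α) * 2 ^ (α - 1) = 1 := by
      rw [← Real.rpow_add (by norm_num)]
      simp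
    have h2a : (0 : ℝ) < 2 ^ (α - 1) := Real.rpow_pos_of_pos (by norm_num) _
    have hαp : (0 : ℝ) < α - 2 := by linarith
    have hρ0 : (0 : ℝ) < ρ := by linarith
    have hterm : (2 * ((K + m : ℕ) : ℝ) + 1) * Dt μ (K + m) ≤
        3 * ρ * 2 ^ (α - 1) / (α - 2) * (K : ℝ) ^ α *
          (((K : ℝ) + m) ^ (2 - α) - ((K : ℝ) + m + 1) ^ (2 - α)) := by
      calc (2 * ((K + m : ℕ) : ℝ) + 1) * Dt μ (K + m)
          ≤ (3 * ((K : ℝ) + m)) * (ρ * ((K : ℝ) ^ α / ((K : ℝ) + m) ^ α)) := by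
            apply mul_le_mul _ hD (Law2_Dt_nonneg μ _) (by positivity)
            push_cast
            linarith
        _ = 3 * ρ * (K : ℝ) ^ α * ((K : ℝ) + m) ^ (1 - α) := by
            rw [hpow]; ring
        _ = 3 * ρ * 2 ^ (α - 1) / (α - 2) * (K : ℝ) ^ α *
            ((α - 2) * 2 ^ (1 - α) * ((K : ℝ) + m) ^ (1 - α)) := by
            have : 3 * ρ * 2 ^ (α - 1) / (α - 2) * (K : ℝ) ^ α *
              ((α - 2) * 2 ^ (1 - α) * ((K : ℝ) + m) ^ (1 - α)) =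
              3 * ρ * (K : ℝ) ^ α * ((K : ℝ) + m) ^ (1 - α) * (2 ^ (1 - α) * 2 ^ (α - 1)) := by
              field_simp
            rw [this, h2pow, mul_one]
        _ ≤ _ := by
            apply mul_le_mul_of_nonneg_left hstep
            positivity
    have e3 : ((K : ℝ) + (m + 1 : ℕ)) = (K : ℝ) + m + 1 := by push_cast; ring
    rw [e3]
    have hsplit : (K : ℝ) ^ 2 + 3 * ρ * 2 ^ (α - 1) / (α - 2) * (K : ℝ) ^ α *
        ((K : ℝ) ^ (2 - α) - ((K : ℝ) + m + 1) ^ (2 - α)) =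
        ((K : ℝ) ^ 2 + 3 * ρ * 2 ^ (α - 1) / (α - 2) * (K : ℝ) ^ α *
        ((K : ℝ) ^ (2 - α) - ((K : ℝ) + m) ^ (2 - α))) +
        3 * ρ * 2 ^ (α - 1) / (α - 2) * (K : ℝ) ^ α *
          (((K : ℝ) + m) ^ (2 - α) - ((K : ℝ) + m + 1) ^ (2 - α)) := by ring
    rw [hsplit]
    exact add_le_add ih hterm

/-- `d ^ 2 = ∑ x < d, (2 x + 1)`, so the second moment is `∑ x, (2 x + 1) Dt μ x`, at most
`K ^ 2 + 3 ρ K ^ α ∑ x ≥ K, x ^ (1 - α)`, and
`x ^ (1 - α) ≤ 2 ^ (α - 1) / (α - 2) (x ^ (2 - α) - (x + 1) ^ (2 - α))` telescopes. -/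
lemma Tail.sq (h2 : 2 < α) (hρ : 1 ≤ ρ) (hK : 1 ≤ K) (h : Tail α ρ K μ) :
    ∑' a : ℕ × ℕ, nu μ a * ENNReal.ofReal (((a.1 : ℝ) + a.2) ^ 2) ≤
      ENNReal.ofReal ((1 + 3 * ρ * 2 ^ (α - 1) / (α - 2)) * (K : ℝ) ^ 2) := by
  have hKr : (1 : ℝ) ≤ K := by exact_mod_cast hK
  have h1 := tsum_nu μ (fun a => ((a.1 : ℝ) + a.2) ^ 2) (fun a => by positivity)
  have h3 : ∀ d, Av d (fun a => ((a.1 : ℝ) + a.2) ^ 2) = (d : ℝ) ^ 2 := by
    intro d
    rw [← Av_const d ((d : ℝ) ^ 2)]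
    refine Av_congr fun a ha => ?_
    have : ((a.1 : ℝ) + a.2) = (d : ℝ) := by exact_mod_cast ha
    simp only [this]
  simp only [h3] at h1
  rw [h1]
  have h4 : ∀ d : ℕ, ENNReal.ofReal ((d : ℝ) ^ 2) =
      ∑' x : ℕ, ENNReal.ofReal (2 * (x : ℝ) + 1) * (if x < d then 1 else 0) := by
    intro d
    rw [tsum_eq_sum (s := Finset.range d)]
    · have h5 : ∑ x ∈ Finset.range d, ENNReal.ofReal (2 * (x : ℝ) + 1) * (if x < d then 1 else 0) =
          ∑ x ∈ Finset.range d, ENNReal.ofReal (2 * (x : ℝ) + 1) := by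
        refine Finset.sum_congr rfl fun x hx => ?_
        rw [if_pos (Finset.mem_range.1 hx), mul_one]
      rw [h5, ← ENNReal.ofReal_sum_of_nonneg (fun x _ => by positivity)]
      congr 1
      induction d with
      | zero => simp
      | succ d ih => 
        rw [Finset.sum_range_succ]
        have ih' : (d : ℝ) ^ 2 = ∑ x ∈ Finset.range d, (2 * (x : ℝ) + 1) := by
          clear h5 ih
          induction d with
          | zero => simp
          | succ d ih => rw [Finset.sum_range_succ, ← ih]; push_cast; ring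
        rw [← ih']
        push_cast
        ring
    · intro x hx
      rw [if_neg (by rwa [Finset.mem_range] at hx), mul_zero]
  have h6 : ∑' d, μ d * ENNReal.ofReal ((d : ℝ) ^ 2) =
      ∑' x : ℕ, ENNReal.ofReal (2 * (x : ℝ) + 1) * Law2_T μ x := by
    calc ∑' d, μ d * ENNReal.ofReal ((d : ℝ) ^ 2)
        = ∑' d, ∑' x : ℕ, μ d * (ENNReal.ofReal (2 * (x : ℝ) + 1) * (if x < d then 1 else 0)) := by
          refine tsum_congr fun d => ?_
          rw [h4, ENNReal.tsum_mul_left]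
      _ = ∑' x : ℕ, ∑' d, μ d * (ENNReal.ofReal (2 * (x : ℝ) + 1) * (if x < d then 1 else 0)) :=
          ENNReal.tsum_comm
      _ = _ := by
          refine tsum_congr fun x => ?_
          unfold Law2_T
          rw [← ENNReal.tsum_mul_left]
          refine tsum_congr fun d => ?_
          ring
  rw [h6, ENNReal.tsum_eq_iSup_nat]
  refine iSup_le fun n => ?_
  have h7 : ∑ x ∈ Finset.range n, ENNReal.ofReal (2 * (x : ℝ) + 1) * Law2_T μ x =
      ENNReal.ofReal (∑ x ∈ Finset.range n, (2 * (x : ℝ) + 1) * Dt μ x) := by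
    rw [ENNReal.ofReal_sum_of_nonneg
      (fun x _ => mul_nonneg (by positivity) (Law2_Dt_nonneg μ x))]
    refine Finset.sum_congr rfl fun x _ => ?_
    rw [Law2_T_eq, ENNReal.ofReal_mul (by positivity)]
  rw [h7]
  apply ENNReal.ofReal_le_ofReal
  have h8 : ∑ x ∈ Finset.range n, (2 * (x : ℝ) + 1) * Dt μ x ≤
      ∑ x ∈ Finset.range (K + n), (2 * (x : ℝ) + 1) * Dt μ x := by
    apply Finset.sum_le_sum_of_subset_of_nonneg
    · intro x hx
      rw [Finset.mem_range] at hx ⊢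
      omega
    · intro x _ _
      exact mul_nonneg (by positivity) (Law2_Dt_nonneg μ x)
  refine (h8.trans (Law2_partial h2 hρ hK h n)).trans ?_
  have h9 : (0 : ℝ) ≤ ((K : ℝ) + n) ^ (2 - α) := by positivity
  have hαp : (0 : ℝ) < α - 2 := by linarith
  have hρ0 : (0 : ℝ) < ρ := by linarith
  have hK0 : (0 : ℝ) < K := by linarith
  have h10 : (K : ℝ) ^ α * (K : ℝ) ^ (2 - α) = (K : ℝ) ^ 2 := by
    rw [← Real.rpow_add hK0]
    have : α + (2 - α) = ((2 : ℕ) : ℝ) := by push_cast; ring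
    rw [this, Real.rpow_natCast]
  have h11 : (0 : ℝ) ≤ 3 * ρ * 2 ^ (α - 1) / (α - 2) := by positivity
  have h12 : (0 : ℝ) ≤ (K : ℝ) ^ α := by positivity
  calc (K : ℝ) ^ 2 + 3 * ρ * 2 ^ (α - 1) / (α - 2) * (K : ℝ) ^ α *
        ((K : ℝ) ^ (2 - α) - ((K : ℝ) + n) ^ (2 - α))
      ≤ (K : ℝ) ^ 2 + 3 * ρ * 2 ^ (α - 1) / (α - 2) * (K : ℝ) ^ α * (K : ℝ) ^ (2 - α) := by
        have := mul_le_mul_of_nonneg_left (a := 3 * ρ * 2 ^ (α - 1) / (α - 2) * (K : ℝ) ^ α)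
          (b := (K : ℝ) ^ (2 - α) - ((K : ℝ) + n) ^ (2 - α)) (c := (K : ℝ) ^ (2 - α))
          (by linarith) (by positivity)
        linarith
    _ = (1 + 3 * ρ * 2 ^ (α - 1) / (α - 2)) * (K : ℝ) ^ 2 := by
        rw [mul_assoc (3 * ρ * 2 ^ (α - 1) / (α - 2)), h10]
        ring

end Pool.Agent.W_63dac5_h39
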