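import Pool.Agent.W_63dac5_h39.Law

/-!
# Pareto laws: the hypotheses are satisfied (proofs row 559, corollary)
-/

set_option autoImplicit false

namespace Pool.Agent.W_63dac5_h39

open ENNReal
open Pool.Agent.W_MP_63dac5_pr Pool.Agent.W_63dac5_h37

private noncomputable def parG (α : ℝ) (K : ℕ) (y : ℕ) : ℝ := ((K : ℝ) / y) ^ α

private lemma parG_tendsto {α : ℝ} (hα : 0 < α) (K : ℕ) :
    Filter.Tendsto (parG α K) Filter.atTop (nhds 0) := by
  have h1 : Filter.Tendsto (fun y : ℕ => (K : ℝ) / y) Filter.atTop (nhds 0) :=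
    tendsto_const_div_atTop_nhds_zero_nat (K : ℝ)
  have h2 := h1.rpow_const (p := α) (Or.inr hα.le)
  rw [Real.zero_rpow hα.ne'] at h2
  exact h2

private lemma parG_anti {α : ℝ} (hα : 0 < α) (K : ℕ) {y : ℕ} (hy : 1 ≤ y) :
    parG α K (y + 1) ≤ parG α K y := by
  unfold parG
  have hy' : (0 : ℝ) < y := by exact_mod_cast hy
  refine Real.rpow_le_rpow (by positivity) ?_ hα.le
  refine div_le_div_of_nonneg_left (Nat.cast_nonneg K) hy' ?_
  push_cast
  linarith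

private lemma par_term_nonneg {α : ℝ} (hα : 0 < α) (K : ℕ) {x : ℕ} (hx : 1 ≤ x) (d : ℕ) :
    0 ≤ (if x < d then parG α K (d - 1) - parG α K d else 0) := by
  split_ifs with h
  · obtain ⟨e, rfl⟩ : ∃ e, d = e + 1 := ⟨d - 1, by omega⟩
    have := parG_anti hα K (y := e) (by omega)
    simp only [Nat.add_sub_cancel]
    linarith
  · exact le_rfl

private lemma par_tel {α : ℝ} (hα : 0 < α) (K : ℕ) {x : ℕ} (hx : 1 ≤ x) :
    HasSum (fun d : ℕ => if x < d then parG α K (d - 1) - parG α K d else 0) (parG α K x) := by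
  rw [hasSum_iff_tendsto_nat_of_nonneg (par_term_nonneg hα K hx)]
  rw [← Filter.tendsto_add_atTop_iff_nat (x + 1)]
  have h1 : ∀ k : ℕ, ∑ i ∈ Finset.range (k + (x + 1)),
      (if x < i then parG α K (i - 1) - parG α K i else 0) = parG α K x - parG α K (x + k) := by
    intro k
    induction k with
    | zero =>
      rw [Finset.sum_eq_zero]
      · simp
      · intro i hi
        rw [Finset.mem_range] at hi
        rw [if_neg (by omega)]
    | succ k ih =>
      rw [show k + 1 + (x + 1) = (k + (x + 1)) + 1 by omega, Finset.sum_range_succ, ih,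
        if_pos (by omega)]
      rw [show k + (x + 1) - 1 = x + k by omega, show k + (x + 1) = x + (k + 1) by omega]
      ring
  simp only [h1]
  have h2 : Filter.Tendsto (fun k : ℕ => parG α K (x + k)) Filter.atTop (nhds 0) := by
    have := (Filter.tendsto_add_atTop_iff_nat x).2 (parG_tendsto hα K)
    refine this.congr fun k => ?_
    rw [add_comm]
  have h3 := h2.const_sub (parG α K x)
  rw [sub_zero] at h3
  exact h3

private lemma par_bound {α : ℝ} (hα : 1 ≤ α) (K : ℕ) {e : ℕ} (he : 1 ≤ e) :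
    parG α K e - parG α K (e + 1) ≤
      (α * (K : ℝ) ^ α * 2 ^ α) * ((e + 1 : ℕ) : ℝ) ^ (-α - 1) := by
  have hα0 : 0 < α := by linarith
  have he' : (1 : ℝ) ≤ e := by exact_mod_cast he
  have he0 : (0 : ℝ) < e := by linarith
  have hK : (0 : ℝ) ≤ K := Nat.cast_nonneg K
  have hs : (0 : ℝ) < ((e + 1 : ℕ) : ℝ) := by positivity
  unfold parG
  rw [Real.div_rpow hK he0.le, Real.div_rpow hK hs.le]
  have h1 := one_add_mul_self_le_rpow_one_add (s := -(1 / ((e + 1 : ℕ) : ℝ))) (p := α) (by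
    have : 1 / ((e + 1 : ℕ) : ℝ) ≤ 1 := by
      rw [div_le_one hs]; push_cast; linarith
    linarith) hα
  have h2 : 1 + -(1 / ((e + 1 : ℕ) : ℝ)) = e / ((e + 1 : ℕ) : ℝ) := by
    field_simp
    push_cast
    ring
  rw [h2, Real.div_rpow he0.le hs.le] at h1
  have hep : 0 < (e : ℝ) ^ α := Real.rpow_pos_of_pos he0 _
  have hsp : 0 < ((e + 1 : ℕ) : ℝ) ^ α := Real.rpow_pos_of_pos hs _
  have hKp : 0 ≤ (K : ℝ) ^ α := Real.rpow_nonneg hK _
  have h3 : (K : ℝ) ^ α / (e : ℝ) ^ α - (K : ℝ) ^ α / ((e + 1 : ℕ) : ℝ) ^ α ≤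
      (K : ℝ) ^ α / (e : ℝ) ^ α * (α / ((e + 1 : ℕ) : ℝ)) := by
    have h4 : (K : ℝ) ^ α / ((e + 1 : ℕ) : ℝ) ^ α =
        (K : ℝ) ^ α / (e : ℝ) ^ α * ((e : ℝ) ^ α / ((e + 1 : ℕ) : ℝ) ^ α) := by
      field_simp
    rw [h4]
    have h5 : 0 ≤ (K : ℝ) ^ α / (e : ℝ) ^ α := by positivity
    have h6 : α * -(1 / ((e + 1 : ℕ) : ℝ)) = -(α / ((e + 1 : ℕ) : ℝ)) := by ring
    rw [h6] at h1
    nlinarith [mul_le_mul_of_nonneg_left h1 h5]
  refine h3.trans ?_
  have h7 : ((e + 1 : ℕ) : ℝ) ^ α ≤ 2 ^ α * (e : ℝ) ^ α := by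
    rw [← Real.mul_rpow (by norm_num) he0.le]
    refine Real.rpow_le_rpow hs.le ?_ hα0.le
    push_cast
    linarith
  have h8 : ((e + 1 : ℕ) : ℝ) ^ (-α - 1) = 1 / ((e + 1 : ℕ) : ℝ) ^ α * (1 / ((e + 1 : ℕ) : ℝ)) := by
    rw [Real.rpow_sub hs, Real.rpow_neg hs.le, Real.rpow_one]
    ring
  rw [h8]
  have h9 : 1 / (e : ℝ) ^ α ≤ 2 ^ α * (1 / ((e + 1 : ℕ) : ℝ) ^ α) := by
    rw [div_le_iff₀ hep, mul_assoc, mul_comm (1 / ((e + 1 : ℕ) : ℝ) ^ α), ← mul_assoc, mul_one_div,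
      le_div_iff₀ hsp, one_mul]
    exact h7
  have h10 : 0 ≤ α * (K : ℝ) ^ α * (1 / ((e + 1 : ℕ) : ℝ)) := by positivity
  calc (K : ℝ) ^ α / (e : ℝ) ^ α * (α / ((e + 1 : ℕ) : ℝ))
      = (α * (K : ℝ) ^ α * (1 / ((e + 1 : ℕ) : ℝ))) * (1 / (e : ℝ) ^ α) := by ring
    _ ≤ (α * (K : ℝ) ^ α * (1 / ((e + 1 : ℕ) : ℝ))) * (2 ^ α * (1 / ((e + 1 : ℕ) : ℝ) ^ α)) :=
        mul_le_mul_of_nonneg_left h9 h10
    _ = _ := by ring

/-- `μ d = (K / (d - 1)) ^ α - (K / d) ^ α` for `d > K`, `0` otherwise: `Dt μ x = (K / x) ^ α` for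
`x ≥ K` (telescoping), and `∑ μ(d) d ^ a < ∞` for `a < α`: `μ d ≤ C d ^ (-α - 1)`. -/
theorem exists_pareto {α a : ℝ} (h2 : 2 < α) (ha : a < α) {K : ℕ} (hK : 1 ≤ K) :
    ∃ μ : PMF ℕ, μ 0 = 0 ∧ Tail α 1 K μ ∧ Summable (fun d : ℕ => (μ d).toReal * (d : ℝ) ^ a) := by
  have hα : 0 < α := by linarith
  have hK0 : (0 : ℝ) < K := by exact_mod_cast hK
  have hg1 : parG α K K = 1 := by
    unfold parG
    rw [div_self hK0.ne', Real.one_rpow]
  have hsum : HasSum (fun d : ℕ => ENNReal.ofReal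
      (if K < d then parG α K (d - 1) - parG α K d else 0)) 1 := by
    have h := par_tel hα K hK
    rw [hg1] at h
    have h3 := (ENNReal.hasSum_coe (f := fun d : ℕ => Real.toNNReal
      (if K < d then parG α K (d - 1) - parG α K d else 0)) (r := 1)).2 (by
        rw [← NNReal.hasSum_coe]
        refine (h.congr_fun ?_)
        intro d
        exact Real.coe_toNNReal _ (par_term_nonneg hα K hK d))
    exact h3
  let μ : PMF ℕ := ⟨_, hsum⟩
  have hμ : ∀ d, μ d = ENNReal.ofReal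
      (if K < d then parG α K (d - 1) - parG α K d else 0) := fun d => rfl
  have hμr : ∀ d, (μ d).toReal = (if K < d then parG α K (d - 1) - parG α K d else 0) := by
    intro d
    rw [hμ, ENNReal.toReal_ofReal (par_term_nonneg hα K hK d)]
  have hDt : ∀ x : ℕ, K ≤ x → Dt μ x = parG α K x := by
    intro x hx
    rw [← (par_tel hα K (x := x) (by omega)).tsum_eq]
    unfold Dt
    refine tsum_congr fun d => ?_
    by_cases h : x < d
    · rw [if_pos h, if_pos h, hμr, if_pos (by omega)]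
    · rw [if_neg h, if_neg h]
  refine ⟨μ, ?_, ⟨?_, ?_⟩, ?_⟩
  · rw [hμ, if_neg (by omega), ENNReal.ofReal_zero]
  · intro x hx
    rw [hDt x hx, div_one]
    exact le_rfl
  · intro x hx
    rw [hDt x hx, one_mul]
    exact le_rfl
  · have hS : Summable (fun d : ℕ => (α * (K : ℝ) ^ α * 2 ^ α) * (d : ℝ) ^ (a - α - 1)) :=
      (Real.summable_nat_rpow.2 (by linarith)).mul_left _
    refine Summable.of_nonneg_of_le (fun d => by positivity) (fun d => ?_) hS
    rw [hμr]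
    split_ifs with h
    · obtain ⟨e, rfl⟩ : ∃ e, d = e + 1 := ⟨d - 1, by omega⟩
      have hs : (0 : ℝ) < ((e + 1 : ℕ) : ℝ) := by positivity
      rw [Nat.add_sub_cancel]
      have h3 := par_bound (α := α) (by linarith) K (e := e) (by omega)
      have h4 : ((e + 1 : ℕ) : ℝ) ^ (a - α - 1) =
          ((e + 1 : ℕ) : ℝ) ^ (-α - 1) * ((e + 1 : ℕ) : ℝ) ^ a := by
        rw [← Real.rpow_add hs]
        congr 1
        ring
      rw [h4, ← mul_assoc]
      exact mul_le_mul_of_nonneg_right h3 (Real.rpow_nonneg hs.le _)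
    · rw [zero_mul]
      positivity

end Pool.Agent.W_63dac5_h39
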