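import Pool.Agent.W_63dac5_h39.Stk

/-!
# Subadditivity, comparison of `N (A ++ B)` with `N B` (proofs row 559, steps 1 and 3)
-/

set_option autoImplicit false

namespace Pool.Agent.W_63dac5_h39

open Pool.Agent.W_MP_63dac5_pr Pool.Agent.W_63dac5_h37

/-- `run_append`, `run_eq`, `nz_append`, `nz_srvL_le` -/
theorem Nw_append_le (A B : List (ℕ × ℕ)) : Nw (A ++ B) ≤ Nw A + Nw B := by
  unfold Nw
  rw [run_append, run_eq (run [] A) B, nz_append]
  have := nz_srvL_le (need [] B) (run [] A)
  omega

/-- mirror image of `Nw_append_le` (`Pw_eq`; `mir (A ++ B) = mir B ++ mir A`) -/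
theorem Pw_append_le (A B : List (ℕ × ℕ)) : Pw (A ++ B) ≤ Pw A + Pw B := by
  have h1 := Nw_append_le (mir B) (mir A)
  have h2 : mir (A ++ B) = mir B ++ mir A := by
    simp [mir]
  rw [Pw_eq, Pw_eq, Pw_eq, h2]
  omega

/-- `k` demands larger than the number of nonzero entries: only entries larger than `k` survive.
Induction on `ls` for all `u` and `k`: if `M < l` use `big_serve_full`, otherwise `big_serve_le`;
`nz_serve_le` keeps the first hypothesis. -/
theorem nz_srvL_le_big {M k : ℕ} {ls u : List ℕ} (h1 : nz u ≤ M) (h2 : k ≤ big M ls) :
    nz (srvL ls u) ≤ big k u := by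
  induction ls generalizing u k with
  | nil =>
    have hk : k = 0 := by simpa [big] using h2
    subst hk
    rw [big_zero]
    exact le_refl _
  | cons l ls ih =>
    have h3 : nz (serve l u) ≤ M := (nz_serve_le l u).trans h1
    by_cases hl : M < l
    · have h4 : big M (l :: ls) = 1 + big M ls := by simp [big, hl]
      rw [h4] at h2
      cases k with
      | zero =>
        have h5 := ih h3 (Nat.zero_le _)
        rw [big_zero] at h5 ⊢
        exact h5.trans (nz_serve_le l u)
      | succ k =>
        have h5 : nz (srvL ls (serve l u)) ≤ big k (serve l u) := ih h3 (by omega)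
        rw [big_serve_full (k := k) (l := l) (u := u) (by omega)] at h5
        exact h5
    · have h4 : big M (l :: ls) = big M ls := by simp [big, hl]
      rw [h4] at h2
      exact (ih h3 h2).trans (big_serve_le k l u)

/-- `run_append`, `run_eq`, `nz_append`, `nz_srvL_le_big` -/
theorem Nw_append_le_big {M k : ℕ} {A B : List (ℕ × ℕ)} (h1 : Nw A ≤ M)
    (h2 : k ≤ big M (need [] B)) : Nw (A ++ B) ≤ Nw B + big k (run [] A) := by
  unfold Nw
  rw [run_append, run_eq (run [] A) B, nz_append]
  have := nz_srvL_le_big (ls := need [] B) (u := run [] A) h1 h2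
  omega

/-- If no prefix of `B` has more than `M` letters with unused right stubs, then every letter with
more than `2 M` left stubs has more than `M` unused left stubs.  Induction from the right
(`need_snoc`, `List.reverseRecOn`). -/
theorem big_need_ge {M : ℕ} {B : List (ℕ × ℕ)} (h : ∀ v, v <+: B → Nw v ≤ M) :
    big (2 * M) (B.map Prod.fst) ≤ big M (need [] B) := by
  induction B using List.reverseRecOn with
  | nil => simp [big, need]
  | append_singleton B a ih =>
    have h1 := ih fun v hv => h v (hv.trans (List.prefix_append B [a]))
    have h2 : Nw B ≤ M := h B (List.prefix_append B [a])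
    rw [need_snoc, List.map_append, big_append, big_append]
    have h3 : big (2 * M) ([a].map Prod.fst) ≤ big M [a.1 - nz (run [] B)] := by
      unfold Nw at h2
      simp only [List.map_cons, List.map_nil, big]
      split_ifs with h4 h5
      · exact le_refl _
      · omega
      · omega
      · exact le_refl _
    omega

end Pool.Agent.W_63dac5_h39
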