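import Pool.Agent.W_63dac5_h39.PrA2
import Pool.Agent.W_63dac5_h39.Stk2

/-!
# Submultiplicativity of the tail (proofs row 559, step 1)
-/

set_option autoImplicit false

namespace Pool.Agent.W_63dac5_h39

open ENNReal
open Pool.Agent.W_MP_63dac5_pr Pool.Agent.W_63dac5_h37

variable {ν : ℕ × ℕ → ℝ≥0∞}

/-- `j` is the length of the shortest prefix with `Pw` larger than `x` -/
def First (x j : ℕ) (w : List (ℕ × ℕ)) : Prop :=
  x < Pw (w.take j) ∧ ∀ i < j, Pw (w.take i) ≤ x

private lemma Pw_nil : Pw [] = 0 := by simp [Pw, need, nz]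

private lemma take_take_le {j i : ℕ} (w : List (ℕ × ℕ)) (h : i ≤ j) :
    (w.take j).take i = w.take i := by
  rw [List.take_take, min_eq_left h]

private lemma first_take {x j : ℕ} {w : List (ℕ × ℕ)} (h : First x j w) :
    First x j (w.take j) := by
  refine ⟨?_, fun i hi => ?_⟩
  · rw [take_take_le w (le_refl j)]; exact h.1
  · rw [take_take_le w hi.le]; exact h.2 i hi

private lemma take_first {x j : ℕ} {w : List (ℕ × ℕ)} (h : First x j (w.take j)) :
    First x j w := by
  refine ⟨?_, fun i hi => ?_⟩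
  · have := h.1
    rw [take_take_le w (le_refl j)] at this; exact this
  · have := h.2 i hi
    rw [take_take_le w hi.le] at this; exact this

private lemma first_unique {x j k : ℕ} {w : List (ℕ × ℕ)} (h : First x j w) (h' : First x k w) :
    j = k := by
  rcases lt_trichotomy j k with h1 | h1 | h1
  · exact absurd h.1 (not_lt.2 (h'.2 j h1))
  · exact h1
  · exact absurd h'.1 (not_lt.2 (h.2 k h1))

private lemma exists_first {x : ℕ} {w : List (ℕ × ℕ)} (h : x < Pw w) :
    ∃ j, j ≤ w.length ∧ First x j w ∧ Pw (w.take j) ≤ x + 1 := by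
  classical
  have hex : ∃ j, x < Pw (w.take j) := ⟨w.length, by rwa [List.take_length]⟩
  have h1 : x < Pw (w.take (Nat.find hex)) := Nat.find_spec hex
  have h2 : ∀ i < Nat.find hex, Pw (w.take i) ≤ x := fun i hi => not_lt.1 (Nat.find_min hex hi)
  have h3 : Nat.find hex ≤ w.length := Nat.find_min' hex (by rwa [List.take_length])
  generalize Nat.find hex = j at h1 h2 h3
  refine ⟨j, h3, ⟨h1, h2⟩, ?_⟩
  cases j with
  | zero =>
    rw [List.take_zero, Pw_nil] at h1
    omega
  | succ i =>
    have h4 := h2 i (Nat.lt_succ_self i)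
    have h5 : w.take (i + 1) = w.take i ++ [w[i]'(by omega)] := by
      rw [List.take_succ_eq_append_getElem (by omega)]
    rw [h5, Pw_snoc]
    split_ifs <;> omega

private lemma Pr_eq' (n : ℕ) (A : List (ℕ × ℕ) → Prop) [DecidablePred A] :
    Pr ν n A = Ex ν n (fun w => if A w then 1 else 0) := by
  unfold Pr
  exact Ex_congr ν n fun w _ => by congr

/-- The shortest prefix with `Pw > x` has `Pw = x + 1` (`Pw_snoc`); `Pw_append_le`.  So the indicator
of `x + y + 1 < Pw w` is at most the sum over `j ≤ n` of the indicator of `First x j (w.take j)` times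
that of `y < Pw (w.drop j)`; `Ex_sum`, `Ex_append_mul`, `U_mono` for the second factor, and the sum
over `j` of the first factors is the probability of `x < Pw w` (`Pw_left_le`, disjoint events). -/
theorem U_submul (hν : Sym ν) (n x y : ℕ) : U ν n (x + y + 1) ≤ U ν n x * U ν n y := by
  classical
  rw [U_eq_Pw hν n (x + y + 1), U_eq_Pw hν n x, Pr_eq', Pr_eq']
  have h1 : Ex ν n (fun w => if x + y + 1 < Pw w then (1 : ℝ≥0∞) else 0) ≤
      Ex ν n (fun w => ∑ j ∈ Finset.range (n + 1),
        (if First x j (w.take j) then (1 : ℝ≥0∞) else 0) *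
          (if y < Pw (w.drop j) then (1 : ℝ≥0∞) else 0)) := by
    refine Ex_mono ν n fun w hw => ?_
    by_cases h : x + y + 1 < Pw w
    · rw [if_pos h]
      obtain ⟨j, hj, hF, hP⟩ := exists_first (x := x) (w := w) (by omega)
      have h2 := Pw_append_le (w.take j) (w.drop j)
      rw [List.take_append_drop] at h2
      have h3 : y < Pw (w.drop j) := by omega
      have h4 : j ∈ Finset.range (n + 1) := by rw [Finset.mem_range]; omega
      refine le_trans ?_ (Finset.single_le_sum
        (f := fun j => (if First x j (w.take j) then (1 : ℝ≥0∞) else 0) *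
          (if y < Pw (w.drop j) then (1 : ℝ≥0∞) else 0)) (fun _ _ => bot_le) h4)
      rw [if_pos (first_take hF), if_pos h3, mul_one]
    · rw [if_neg h]; exact bot_le
  refine h1.trans ?_
  rw [Ex_sum]
  have h2 : ∀ j ∈ Finset.range (n + 1),
      Ex ν n (fun w => (if First x j (w.take j) then (1 : ℝ≥0∞) else 0) *
          (if y < Pw (w.drop j) then (1 : ℝ≥0∞) else 0)) ≤
        Ex ν n (fun w => if First x j (w.take j) then (1 : ℝ≥0∞) else 0) * U ν n y := by
    intro j hj
    rw [Finset.mem_range] at hj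
    obtain ⟨d, rfl⟩ := Nat.exists_eq_add_of_le (show j ≤ n by omega)
    rw [Ex_append_mul ν j d (fun w => if First x j w then (1 : ℝ≥0∞) else 0)
      (fun w => if y < Pw w then (1 : ℝ≥0∞) else 0)]
    rw [Ex_take hν.one j d (fun w => if First x j w then (1 : ℝ≥0∞) else 0)]
    refine mul_le_mul' (le_refl _) ?_
    refine le_trans (le_of_eq ?_) (U_mono hν (Nat.le_add_left d j) y)
    rw [U_eq_Pw hν]
    unfold Pr
    exact Ex_congr ν d fun w _ => by congr
  refine (Finset.sum_le_sum h2).trans ?_
  rw [← Finset.sum_mul, ← Ex_sum]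
  refine mul_le_mul' ?_ (le_refl _)
  refine Ex_mono ν n fun w hw => ?_
  by_cases h : x < Pw w
  · rw [if_pos h]
    by_cases h3 : ∃ j ∈ Finset.range (n + 1), First x j (w.take j)
    · obtain ⟨j, hj, hF⟩ := h3
      rw [Finset.sum_eq_single_of_mem j hj, if_pos hF]
      intro k _ hkj
      rw [if_neg]
      intro hk
      exact hkj (first_unique (take_first hk) (take_first hF))
    · push Not at h3
      rw [Finset.sum_eq_zero fun j hj => if_neg (h3 j hj)]
      exact bot_le
  · rw [if_neg h]
    rw [Finset.sum_eq_zero]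
    intro j _
    rw [if_neg]
    intro hF
    have h4 := (take_first hF).1
    have h5 := Pw_left_le (w.take j) (w.drop j)
    rw [List.take_append_drop] at h5
    omega

/-- Induction on `j` -/
theorem U_pow (hν : Sym ν) (n x j : ℕ) : U ν n (j * (x + 1)) ≤ U ν n x ^ j := by
  induction j with
  | zero =>
    rw [pow_zero]
    exact Pr_le_one hν n _
  | succ j ih =>
    have h1 := U_submul hν n (j * (x + 1)) x
    have h2 : (j + 1) * (x + 1) = j * (x + 1) + x + 1 := by ring
    rw [h2, pow_succ]
    exact h1.trans (mul_le_mul' ih (le_refl _))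

/-- With Markov: if `2 mE ≤ x + 1` then `U n x ≤ 1/2`. -/
theorem U_half (hν : Sym ν) {n x : ℕ} (h : 2 * (mE ν n).toReal ≤ (x : ℝ) + 1) (j : ℕ) :
    (U ν n (j * (x + 1))).toReal ≤ (1 / 2) ^ j := by
  have hm : mE ν n ≠ ⊤ := ne_top_of_le_ne_top (ENNReal.natCast_ne_top n) (mE_le hν n)
  have hU : U ν n x ≠ ⊤ := ne_top_of_le_ne_top ENNReal.one_ne_top (Pr_le_one hν n _)
  have h1 := ENNReal.toReal_mono hm (markov (ν := ν) n x)
  rw [ENNReal.toReal_mul] at h1
  have h2 : ((x : ℝ≥0∞) + 1).toReal = (x : ℝ) + 1 := by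
    rw [ENNReal.toReal_add (ENNReal.natCast_ne_top x) ENNReal.one_ne_top]
    simp
  rw [h2] at h1
  have h3 : (U ν n x).toReal ≤ 1 / 2 := by
    have hx : (0 : ℝ) < (x : ℝ) + 1 := by positivity
    generalize (U ν n x).toReal = u at h1 ⊢
    generalize (mE ν n).toReal = m at h1 h
    by_contra hc
    push Not at hc
    have : ((x : ℝ) + 1) * (1 / 2) < ((x : ℝ) + 1) * u := by
      exact mul_lt_mul_of_pos_left hc hx
    linarith
  have hUp : U ν n x ^ j ≠ ⊤ := ENNReal.pow_ne_top hU
  have h4 := ENNReal.toReal_mono hUp (U_pow hν n x j)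
  rw [ENNReal.toReal_pow] at h4
  exact h4.trans (pow_le_pow_left₀ ENNReal.toReal_nonneg h3 j)

end Pool.Agent.W_63dac5_h39
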