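import Pool.Agent.W_63dac5_h39.PrA2

/-!
# Lower bound of the means, and their growth (proofs row 559, steps 2 and 8)
-/

set_option autoImplicit false

namespace Pool.Agent.W_63dac5_h39

open ENNReal
open Pool.Agent.W_MP_63dac5_pr Pool.Agent.W_63dac5_h37

variable {ν : ℕ × ℕ → ℝ≥0∞}

private lemma PrC2_Gt_anti {x y : ℕ} (h : x ≤ y) : Gt ν y ≤ Gt ν x := by
  unfold Gt
  refine ENNReal.tsum_le_tsum fun a => ?_
  by_cases h1 : y < a.2
  · rw [if_pos h1, if_pos (lt_of_le_of_lt h h1)]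
  · rw [if_neg h1, mul_zero]
    exact zero_le

private lemma PrC2_Gt_le_one (hν : Sym ν) (x : ℕ) : Gt ν x ≤ 1 := by
  rw [← hν.one]
  unfold Gt
  refine ENNReal.tsum_le_tsum fun a => ?_
  split_ifs
  · rw [mul_one]
  · rw [mul_zero]
    exact zero_le

private lemma PrC2_mE_ne_top (hν : Sym ν) (n : ℕ) : mE ν n ≠ ⊤ :=
  ne_top_of_le_ne_top (ENNReal.natCast_ne_top n) (mE_le hν n)

private lemma PrC2_e_le_one (hν : Sym ν) (n : ℕ) : Ex ν n (fun w => Gt ν (Pw w)) ≤ 1 := by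
  calc Ex ν n (fun w => Gt ν (Pw w)) ≤ Ex ν n (fun _ => 1) :=
        Ex_mono ν n fun w _ => PrC2_Gt_le_one hν _
    _ = 1 := Ex_one ν hν.one n

private lemma PrC2_key (hν : Sym ν) (j X : ℕ) :
    Gt ν X ≤ Ex ν j (fun w => Gt ν (Pw w)) + Gt ν X * U ν j X := by
  classical
  rw [U_eq_Pw hν]
  unfold Pr
  rw [← Ex_mul_left, ← Ex_add]
  conv_lhs => rw [← Ex_const hν.one j (Gt ν X)]
  refine Ex_mono ν j fun w _ => ?_
  by_cases h : X < Pw w
  · rw [if_pos h, mul_one]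
    exact le_add_self
  · rw [if_neg h, mul_zero, add_zero]
    exact PrC2_Gt_anti (not_lt.1 h)

/-- `mE n ≥ ∑ j < n, (1/2) Gt (⌊2 mE n⌋)`: `mE_succ`, and `Pw w ≤ 2 mE n` with probability at least `1/2`
(Markov), `Gt` is antitone. -/
theorem mean_low (hν : Sym ν) (n : ℕ) :
    n / 2 * (Gt ν ⌊2 * (mE ν n).toReal⌋₊).toReal ≤ (mE ν n).toReal := by
  set X : ℕ := ⌊2 * (mE ν n).toReal⌋₊ with hX
  have hX1 : 2 * (mE ν n).toReal < (X : ℝ) + 1 := Nat.lt_floor_add_one _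
  have hG1 : Gt ν X ≠ ⊤ := ne_top_of_le_ne_top ENNReal.one_ne_top (PrC2_Gt_le_one hν X)
  set g : ℝ := (Gt ν X).toReal with hg
  have hg0 : 0 ≤ g := ENNReal.toReal_nonneg
  have key : ∀ j : ℕ, j ≤ n → (j : ℝ) / 2 * g ≤ (mE ν j).toReal := by
    intro j
    induction j with
    | zero =>
      intro _
      simp
    | succ j ih =>
      intro hj
      have hj' : j ≤ n := by omega
      have h1 := ih hj'
      have he1 : Ex ν j (fun w => Gt ν (Pw w)) ≠ ⊤ :=
        ne_top_of_le_ne_top ENNReal.one_ne_top (PrC2_e_le_one hν j)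
      have hU1 : U ν j X ≠ ⊤ := ne_top_of_le_ne_top ENNReal.one_ne_top (Pr_le_one hν j _)
      have hm1 := PrC2_mE_ne_top hν j
      have hm2 := PrC2_mE_ne_top hν n
      rw [mE_succ hν j, ENNReal.toReal_add hm1 he1]
      set e : ℝ := (Ex ν j (fun w => Gt ν (Pw w))).toReal with he
      set u : ℝ := (U ν j X).toReal with hu
      have hu0 : 0 ≤ u := ENNReal.toReal_nonneg
      have h2 : ((X : ℝ) + 1) * u ≤ (mE ν n).toReal := by
        have h3 := (markov (ν := ν) j X).trans (mE_mono hν hj')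
        have h4 := ENNReal.toReal_mono hm2 h3
        rw [ENNReal.toReal_mul, ENNReal.toReal_add (ENNReal.natCast_ne_top X) ENNReal.one_ne_top,
          ENNReal.toReal_natCast, ENNReal.toReal_one] at h4
        exact h4
      have h5 : u ≤ 1 / 2 := by
        by_contra hcon
        push Not at hcon
        have hX0 : (0 : ℝ) < (X : ℝ) + 1 := by positivity
        nlinarith
      have h6 : g ≤ e + g * u := by
        have h7 := PrC2_key hν j X
        have h8 := ENNReal.toReal_mono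
          (ENNReal.add_ne_top.2 ⟨he1, ENNReal.mul_ne_top hG1 hU1⟩) h7
        rw [ENNReal.toReal_add he1 (ENNReal.mul_ne_top hG1 hU1), ENNReal.toReal_mul] at h8
        exact h8
      have h9 : g * u ≤ g * (1 / 2) := mul_le_mul_of_nonneg_left h5 hg0
      push_cast
      linarith
  exact key n le_rfl

/-- `mE (n + 1) ≤ mE n + Gt ⌈mE n / 4⌉ + Pr (4 Nw < mE n)`: `mE_succ`, and either `Pw w ≥ ⌈mE n / 4⌉` or
`4 Pw w < mE n` (`Pr_mir` for the probability). -/
theorem mean_step (hν : Sym ν) (n : ℕ) :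
    (mE ν (n + 1)).toReal ≤ (mE ν n).toReal + (Gt ν ⌈(mE ν n).toReal / 4⌉₊).toReal +
      (Pr ν n (fun w => 4 * (Nw w : ℝ) < (mE ν n).toReal)).toReal := by
  classical
  have he1 : Ex ν n (fun w => Gt ν (Pw w)) ≠ ⊤ :=
    ne_top_of_le_ne_top ENNReal.one_ne_top (PrC2_e_le_one hν n)
  have hm1 := PrC2_mE_ne_top hν n
  rw [mE_succ hν n, ENNReal.toReal_add hm1 he1, add_assoc]
  set m : ℝ := (mE ν n).toReal with hm
  set c : ℕ := ⌈m / 4⌉₊ with hc
  have hG1 : Gt ν c ≠ ⊤ := ne_top_of_le_ne_top ENNReal.one_ne_top (PrC2_Gt_le_one hν c)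
  have hP1 : Pr ν n (fun w => 4 * (Nw w : ℝ) < m) ≠ ⊤ :=
    ne_top_of_le_ne_top ENNReal.one_ne_top (Pr_le_one hν n _)
  have h1 : Ex ν n (fun w => Gt ν (Pw w)) ≤
      Gt ν c + Pr ν n (fun w => 4 * (Nw w : ℝ) < m) := by
    rw [← Pr_mir hν n (fun w => 4 * (Nw w : ℝ) < m)]
    unfold Pr
    conv_rhs => rw [← Ex_const hν.one n (Gt ν c)]
    rw [← Ex_add]
    refine Ex_mono ν n fun w _ => ?_
    by_cases h : 4 * (Nw (mir w) : ℝ) < m
    · rw [if_pos h]
      exact (PrC2_Gt_le_one hν _).trans le_add_self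
    · rw [if_neg h, add_zero]
      refine PrC2_Gt_anti ?_
      rw [hc, Nat.ceil_le, Pw_eq]
      push Not at h
      linarith
  have h2 := ENNReal.toReal_mono (ENNReal.add_ne_top.2 ⟨hG1, hP1⟩) h1
  rw [ENNReal.toReal_add hG1 hP1] at h2
  linarith

end Pool.Agent.W_63dac5_h39
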