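import Pool.Agent.W_63dac5_h39.PrD
import Pool.Agent.W_63dac5_h39.PrB
import Pool.Agent.W_63dac5_h39.PrC2
import Pool.Agent.W_63dac5_h39.AnaE
import Pool.Agent.W_63dac5_h39.Law2
import Pool.Agent.W_63dac5_h39.Par

/-!
# Percolation for degree laws of finite variance (proofs row 559, step 9)
-/

set_option autoImplicit false

namespace Pool.Agent.W_63dac5_h39

open ENNReal MeasureTheory ProbabilityTheory
open Pool.Agent.W_MP_63dac5_pr Pool.Agent.W_63dac5_h37

/-- the properties of `Dat` for the law `nu μ` -/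
theorem dat_of {α ρ : ℝ} {K : ℕ} {μ : PMF ℕ} (h2 : 2 < α) (hρ : 1 ≤ ρ) (hK : 1 ≤ K)
    (h : Tail α ρ K μ) :
    Dat α (1 / (2 ^ (α + 1) * ρ)) ρ (1 + 3 * ρ * 2 ^ (α - 1) / (α - 2)) K
      (fun n => (mE (nu μ) n).toReal) (fun x => (Gt (nu μ) x).toReal)
      (fun n => (Pr (nu μ) n (fun w => 4 * (Nw w : ℝ) < (mE (nu μ) n).toReal)).toReal)
      (fun n x => (U (nu μ) n x).toReal)
      ((1 + 3 * ρ * 2 ^ (α - 1) / (α - 2)) * (K : ℝ) ^ 2) := by
  have hν : Sym (nu μ) := sym_nu μ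
  have hα : 0 < α - 2 := by linarith
  have hv0 : 0 ≤ (1 + 3 * ρ * 2 ^ (α - 1) / (α - 2)) * (K : ℝ) ^ 2 := by positivity
  refine
    { m0 := fun n => ENNReal.toReal_nonneg
      mle := fun n => ?_
      mmono := fun s n hsn => ?_
      G0 := fun x => ENNReal.toReal_nonneg
      Glow := fun x y hxy hy => h.Glow h2 hρ hK x y hxy hy
      Gup := fun x hx => h.Gup h2 hρ hK x hx
      U0 := fun n x => ENNReal.toReal_nonneg
      Uhalf := fun n x j hx => U_half hν hx j
      low := fun n => mean_low hν n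
      step := fun n => mean_step hν n
      v0 := hv0
      vle := le_rfl
      Lle := ?_ }
  · have h1 := ENNReal.toReal_mono (ENNReal.natCast_ne_top n) (mE_le hν n)
    rwa [ENNReal.toReal_natCast] at h1
  · exact ENNReal.toReal_mono (ne_top_of_le_ne_top (ENNReal.natCast_ne_top n) (mE_le hν n))
      (mE_mono hν hsn)
  · intro t b M k θ hk hb h4k hθ hθ2 hA hB
    refine low_tail hν hv0 (h.sq h2 hρ hK) hθ hθ2 hk ?_ hB
    have h1 := mean_cmp hν hb h4k (M := M)
    linarith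

/-- a closed interval has no letter with unused right stubs: `Ua_eq_run` -/
lemma Nw_of_closed {x : ℤ → ℕ × ℕ} {n : ℕ} (h : Closed x 1 n) :
    Nw (pre (fun k => x ((k : ℤ) + 1)) n) = 0 := by
  unfold Nw
  rw [← Ua_eq_run]
  have h1 : ∀ m : ℕ, m ≤ n → nz (Ua x n m) = 0 := by
    intro m
    induction m with
    | zero => intro _; rfl
    | succ m ih =>
      intro hm
      have h2 := (h ((m : ℤ) + 1) (by omega) (by omega)).1
      simp only [Ua]
      rw [h2, Nat.sub_self]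
      simpa [nz] using ih (by omega)
  exact h1 n le_rfl

/-- `P (Closed 1 n) ≤ Pr (Nw = 0) ≤ Pr (4 Nw < mE n) ≤ n ^ (-3)` for `n ≥ K`; `percolation_of_tsum`. -/
theorem percolates {α ρ : ℝ} (h2 : 2 < α) (h3 : α < 3) (hρ : 1 ≤ ρ) :
    ∃ K0 : ℕ, ∀ K : ℕ, K0 ≤ K → ∀ μ : PMF ℕ, Tail α ρ K μ →
      ∀ {Ω : Type*} [MeasurableSpace Ω] (P : Measure Ω) [IsProbabilityMeasure P]
        (X : ℤ → Ω → ℕ × ℕ), (∀ i, Measurable (X i)) → iIndepFun X P →
        (∀ i a, P (X i ⁻¹' {a}) = nu μ a) →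
        ∀ᵐ ω ∂P, ∃ i : ℤ, {j : ℤ | (G (fun i => X i ω)).Reachable i j}.Infinite := by
  have hα : 0 < α - 2 := by linarith
  have hκ : 0 < 1 / (2 ^ (α + 1) * ρ) := by positivity
  have hκ1 : 1 / (2 ^ (α + 1) * ρ) ≤ 1 := by
    rw [div_le_one (by positivity)]
    have h5 : (1 : ℝ) ≤ 2 ^ (α + 1) := Real.one_le_rpow (by norm_num) (by linarith)
    nlinarith
  have hcv : 1 ≤ 1 + 3 * ρ * 2 ^ (α - 1) / (α - 2) := by
    have : 0 ≤ 3 * ρ * 2 ^ (α - 1) / (α - 2) := by positivity
    linarith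
  obtain ⟨K0, hK0⟩ := ana (κ1 := 1 / (2 ^ (α + 1) * ρ)) (κ2 := ρ)
    (cv := 1 + 3 * ρ * 2 ^ (α - 1) / (α - 2)) h2 h3 hκ hκ1 hρ hcv
  refine ⟨max K0 1, fun K hK μ hT Ω _ P _ X hX hind hlaw => ?_⟩
  have hK1 : 1 ≤ K := le_trans (le_max_right _ _) hK
  have hD := dat_of h2 hρ hK1 hT
  have hA := hK0 K (le_trans (le_max_left _ _) hK) _ _ _ _ _ hD
  have hν : Sym (nu μ) := sym_nu μ
  -- a degree of positive probability
  obtain ⟨d, hd, hd1⟩ : ∃ d, μ d ≠ 0 ∧ 1 ≤ d := by
    by_contra hne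
    push Not at hne
    have h1 := hT.low K le_rfl
    have h3 : Dt μ K = 0 := by
      unfold Dt
      have h4 : ∀ d : ℕ, (if K < d then (μ d).toReal else 0) = 0 := by
        intro d
        split_ifs with h5
        · have h6 : μ d = 0 := by
            by_contra h7
            exact absurd (hne d h7) (by omega)
          rw [h6, ENNReal.toReal_zero]
        · rfl
      simp only [h4, tsum_zero]
    have hK0 : (K : ℝ) ≠ 0 := by
      have : 0 < K := hK1
      positivity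
    rw [h3, div_self hK0, Real.one_rpow] at h1
    have : 0 < 1 / ρ := by positivity
    linarith
  have hd' : nu μ (0, d) ≠ 0 := by
    unfold nu
    simp only [zero_add, Nat.choose_self, Nat.cast_one, mul_one]
    exact ENNReal.div_ne_zero.2 ⟨hd, by simp⟩
  refine percolation_of_tsum hX hind hlaw (nu_swap μ) hd1 hd' ?_
  -- the probability of closed intervals
  have hcl : ∀ n : ℕ, K ≤ n → P {ω | Closed (fun i => X i ω) 1 (n : ℤ)} ≤
      ENNReal.ofReal (1 / (n : ℝ) ^ 3) := by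
    intro n hn
    obtain ⟨hL, hm⟩ := hA n hn
    have h5 : P {ω | Closed (fun i => X i ω) 1 (n : ℤ)} ≤
        Pr (nu μ) n (fun w => 4 * (Nw w : ℝ) < (mE (nu μ) n).toReal) := by
      classical
      unfold Pr
      rw [← measure_eq_Ex hX hind hlaw (fun k => (k : ℤ) + 1) n (fun i j _ _ h => by
        have : (i : ℤ) + 1 = (j : ℤ) + 1 := h
        omega) (fun w => 4 * (Nw w : ℝ) < (mE (nu μ) n).toReal)]
      refine measure_mono fun ω hω => ?_
      have h6 := Nw_of_closed hω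
      show 4 * ((Nw (pre (fun k => X ((k : ℤ) + 1) ω) n) : ℕ) : ℝ) < _
      rw [h6]
      simpa using hm
    refine le_trans h5 ?_
    have h7 : Pr (nu μ) n (fun w => 4 * (Nw w : ℝ) < (mE (nu μ) n).toReal) ≠ ∞ :=
      ne_top_of_le_ne_top ENNReal.one_ne_top (Pr_le_one hν n _)
    rw [← ENNReal.ofReal_toReal h7]
    exact ENNReal.ofReal_le_ofReal hL
  -- the sum
  have hterm : ∀ n : ℕ, (n : ℝ≥0∞) * P {ω | Closed (fun i => X i ω) 1 (n : ℤ)} ≤
      ENNReal.ofReal ((if n < K then (n : ℝ) else 0) + 1 / (n : ℝ) ^ 2) := by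
    intro n
    have hn0 : (0 : ℝ) ≤ n := Nat.cast_nonneg n
    by_cases hn : n < K
    · rw [if_pos hn]
      calc (n : ℝ≥0∞) * P {ω | Closed (fun i => X i ω) 1 (n : ℤ)} ≤ n * 1 := by
            gcongr; exact prob_le_one
        _ = ENNReal.ofReal n := by rw [mul_one, ENNReal.ofReal_natCast]
        _ ≤ _ := ENNReal.ofReal_le_ofReal (by
            have : 0 ≤ 1 / (n : ℝ) ^ 2 := by positivity
            linarith)
    · rw [if_neg hn, zero_add]
      push Not at hn
      have hnpos : (0 : ℝ) < n := by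
        have : 1 ≤ n := le_trans hK1 hn
        exact_mod_cast this
      calc (n : ℝ≥0∞) * P {ω | Closed (fun i => X i ω) 1 (n : ℤ)}
          ≤ n * ENNReal.ofReal (1 / (n : ℝ) ^ 3) := by gcongr; exact hcl n hn
        _ = ENNReal.ofReal (n * (1 / (n : ℝ) ^ 3)) := by
            rw [ENNReal.ofReal_mul hn0, ENNReal.ofReal_natCast]
        _ = ENNReal.ofReal (1 / (n : ℝ) ^ 2) := by
            congr 1
            field_simp
  have hsm : Summable fun n : ℕ => (if n < K then (n : ℝ) else 0) + 1 / (n : ℝ) ^ 2 := by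
    refine Summable.add ?_ ?_
    · refine summable_of_ne_finset_zero (s := Finset.range K) fun n hn => ?_
      rw [Finset.mem_range] at hn
      simp [hn]
    · exact Real.summable_one_div_nat_pow.2 (by norm_num)
  refine ne_top_of_le_ne_top ?_ (ENNReal.tsum_le_tsum hterm)
  exact hsm.tsum_ofReal_ne_top

end Pool.Agent.W_63dac5_h39
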