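import Pool.Agent.W_63dac5_h39.PrA
import Pool.Agent.W_MP_63dac5_pr.PowerTail
import Pool.Agent.W_MP_63dac5_pr.Matched

/-!
# The tail of the number of right stubs (proofs row 559)
-/

set_option autoImplicit false

namespace Pool.Agent.W_63dac5_h39

open ENNReal
open Pool.Agent.W_MP_63dac5_pr Pool.Agent.W_63dac5_h37

/-- the tail of the degree -/
noncomputable def Dt (μ : PMF ℕ) (x : ℕ) : ℝ := ∑' d : ℕ, (if x < d then (μ d).toReal else 0)

lemma sym_nu (μ : PMF ℕ) : Sym (nu μ) := ⟨tsum_nu_one μ, nu_swap μ⟩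

lemma Gt_anti {ν : ℕ × ℕ → ℝ≥0∞} {x y : ℕ} (h : x ≤ y) : Gt ν y ≤ Gt ν x := by
  unfold Gt
  refine ENNReal.tsum_le_tsum fun a => ?_
  by_cases h1 : y < a.2
  · rw [if_pos h1, if_pos (h.trans_lt h1)]
  · rw [if_neg h1, mul_zero]; exact bot_le

lemma Gt_le_one {ν : ℕ × ℕ → ℝ≥0∞} (hν : Sym ν) (x : ℕ) : Gt ν x ≤ 1 := by
  unfold Gt
  refine le_trans ?_ hν.one.le
  refine ENNReal.tsum_le_tsum fun a => ?_
  by_cases h1 : x < a.2
  · rw [if_pos h1, mul_one]
  · rw [if_neg h1, mul_zero]; exact bot_le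

/-- the tail of the degree in `ℝ≥0∞` -/
private noncomputable def DtE (μ : PMF ℕ) (x : ℕ) : ℝ≥0∞ :=
  ∑' d : ℕ, μ d * (if x < d then 1 else 0)

private lemma DtE_le_one (μ : PMF ℕ) (x : ℕ) : DtE μ x ≤ 1 := by
  unfold DtE
  refine le_trans ?_ μ.tsum_coe.le
  refine ENNReal.tsum_le_tsum fun d => ?_
  by_cases h1 : x < d
  · rw [if_pos h1, mul_one]
  · rw [if_neg h1, mul_zero]; exact bot_le

private lemma DtE_toReal (μ : PMF ℕ) (x : ℕ) : (DtE μ x).toReal = Dt μ x := by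
  unfold DtE Dt
  rw [ENNReal.tsum_toReal_eq]
  · refine tsum_congr fun d => ?_
    by_cases h1 : x < d
    · rw [if_pos h1, if_pos h1, mul_one]
    · rw [if_neg h1, if_neg h1, mul_zero, ENNReal.toReal_zero]
  · intro d
    by_cases h1 : x < d
    · rw [if_pos h1, mul_one]; exact μ.apply_ne_top d
    · rw [if_neg h1, mul_zero]; exact ENNReal.zero_ne_top

private lemma DtE_eq (μ : PMF ℕ) (x : ℕ) :
    DtE μ x = ∑' a, nu μ a * (if x < a.1 + a.2 then 1 else 0) := by
  have h := tsum_nu μ (fun a => if x < a.1 + a.2 then (1 : ℝ) else 0)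
    (fun a => by split_ifs <;> norm_num)
  have h1 : ∀ d, Av d (fun a => if x < a.1 + a.2 then (1 : ℝ) else 0) =
      if x < d then (1 : ℝ) else 0 := by
    intro d
    rw [← Av_const d (if x < d then (1 : ℝ) else 0)]
    exact Av_congr fun a ha => by rw [ha]
  simp only [h1] at h
  unfold DtE
  have h2 : ∀ p : Prop, ∀ _ : Decidable p,
      ENNReal.ofReal (if p then (1 : ℝ) else 0) = (if p then 1 else 0) := by
    intro p _
    split_ifs <;> simp
  simp only [h2] at h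
  exact h.symm

/-- `a.2 ≤ a.1 + a.2` (`tsum_nu_le`) -/
lemma Gt_le_Dt (μ : PMF ℕ) (x : ℕ) : (Gt (nu μ) x).toReal ≤ Dt μ x := by
  rw [← DtE_toReal]
  refine ENNReal.toReal_mono ((DtE_le_one μ x).trans_lt ENNReal.one_lt_top).ne ?_
  rw [DtE_eq]
  unfold Gt
  refine ENNReal.tsum_le_tsum fun a => ?_
  by_cases h1 : x < a.2
  · rw [if_pos h1, if_pos (by omega)]
  · rw [if_neg h1, mul_zero]; exact bot_le

/-- Given `D = d > 2 x`, one of `R`, `d - R` is larger than `x`, so by symmetry the conditional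
probability of `R > x` is at least `1/2`: `1 (2 x < a.1 + a.2) ≤ 1 (x < a.1) + 1 (x < a.2)` and the two
expectations on the right are equal (`tsum_nu_swap`). -/
lemma Dt_le_Gt (μ : PMF ℕ) (x : ℕ) : Dt μ (2 * x) ≤ 2 * (Gt (nu μ) x).toReal := by
  classical
  have hG : Gt (nu μ) x ≠ ⊤ :=
    ((Gt_le_one (sym_nu μ) x).trans_lt ENNReal.one_lt_top).ne
  have h1 : DtE μ (2 * x) ≤ Gt (nu μ) x + Gt (nu μ) x := by
    have h2 : Gt (nu μ) x = ∑' a : ℕ × ℕ, nu μ a * (if x < a.1 then 1 else 0) := by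
      have h3 := tsum_nu_swap μ (fun a => if x < a.2 then (1 : ℝ≥0∞) else 0)
      simp only [Prod.snd_swap] at h3
      rw [h3]
      unfold Gt
      exact tsum_congr fun a => by congr
    nth_rewrite 2 [h2]
    rw [DtE_eq]
    unfold Gt
    rw [← ENNReal.tsum_add]
    refine ENNReal.tsum_le_tsum fun a => ?_
    rw [← mul_add]
    refine mul_le_mul' le_rfl ?_
    by_cases ha : x < a.2
    · rw [if_pos ha]
      refine le_trans ?_ le_self_add
      split_ifs <;> simp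
    · by_cases hb : x < a.1
      · rw [if_pos hb]
        refine le_trans ?_ le_add_self
        split_ifs <;> simp
      · rw [if_neg (by omega)]; exact bot_le
  have h4 := ENNReal.toReal_mono (ENNReal.add_ne_top.2 ⟨hG, hG⟩) h1
  rw [DtE_toReal, ENNReal.toReal_add hG hG] at h4
  linarith

/-- power tails from `K` on -/
structure Tail (α ρ : ℝ) (K : ℕ) (μ : PMF ℕ) : Prop where
  low : ∀ x : ℕ, K ≤ x → ((K : ℝ) / x) ^ α / ρ ≤ Dt μ x
  up : ∀ x : ℕ, K ≤ x → Dt μ x ≤ ρ * ((K : ℝ) / x) ^ α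

end Pool.Agent.W_63dac5_h39
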