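import Pool.Agent.W_63dac5_h39.Stk

/-!
# Truncation of the marks (proofs row 559, step 6)
-/

set_option autoImplicit false

namespace Pool.Agent.W_63dac5_h39

open Pool.Agent.W_MP_63dac5_pr Pool.Agent.W_63dac5_h37

/-- truncation of a mark -/
def tr (Q : ℕ) (a : ℕ × ℕ) : ℕ × ℕ := (min a.1 Q, min a.2 Q)

/-- no infix has more than `M` letters with unused right (left) stubs -/
def Small (M : ℕ) (w : List (ℕ × ℕ)) : Prop := ∀ v, v <:+: w → Nw v ≤ M ∧ Pw v ≤ M

/-- `Nw (a :: w) = Nw w + (1 if Pw w < a.2)` (`run_cons_nil`, `nz_append`) -/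
lemma Nw_cons (a : ℕ × ℕ) (w : List (ℕ × ℕ)) :
    Nw (a :: w) = Nw w + (if Pw w < a.2 then 1 else 0) := by
  unfold Nw
  rw [run_cons_nil, nz_append]
  congr 1
  split_ifs with h
  · obtain ⟨k, hk⟩ : ∃ k, a.2 - Pw w = k + 1 := ⟨a.2 - Pw w - 1, by omega⟩
    rw [hk]; rfl
  · have : a.2 - Pw w = 0 := by omega
    rw [this]; rfl

private lemma Trunc_small_mono {M : ℕ} {w v : List (ℕ × ℕ)} (h : Small M w) (hv : v <:+: w) :
    Small M v := fun x hx => h x (hx.trans hv)

/-- Induction on the length of `w`: `Nw_cons` for the first letter, `Pw_snoc` for the last one;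
infixes of infixes are infixes; `min a.2 Q > Pw v` iff `a.2 > Pw v`, as `Pw v ≤ M < Q`. -/
theorem trunc_eq {M Q : ℕ} {w : List (ℕ × ℕ)} (h : Small M w) (hQ : M < Q) :
    Nw (w.map (tr Q)) = Nw w ∧ Pw (w.map (tr Q)) = Pw w := by
  have key : ∀ (n : ℕ) (w : List (ℕ × ℕ)), w.length = n → Small M w →
      Nw (w.map (tr Q)) = Nw w ∧ Pw (w.map (tr Q)) = Pw w := by
    intro n
    induction n with
    | zero =>
      intro w hw _
      rw [List.length_eq_zero_iff] at hw
      subst hw
      exact ⟨rfl, rfl⟩
    | succ n ih =>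
      intro w hw hs
      constructor
      · cases w with
        | nil => simp at hw
        | cons a v =>
          have hv : v <:+: a :: v := (List.suffix_cons a v).isInfix
          have h1 := ih v (by simpa using hw) (Trunc_small_mono hs hv)
          have h2 := (hs v hv).2
          rw [List.map_cons, Nw_cons, Nw_cons, h1.1, h1.2]
          congr 1
          have h3 : Pw v < (tr Q a).2 ↔ Pw v < a.2 := by
            unfold tr
            simp only [lt_min_iff]
            omega
          simp only [h3]
      · rcases List.eq_nil_or_concat w with h0 | ⟨v, a, h0⟩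
        · subst h0; simp at hw
        · rw [List.concat_eq_append] at h0
          subst h0
          have hv : v <:+: v ++ [a] := (List.prefix_append v [a]).isInfix
          have h1 := ih v (by simpa using hw) (Trunc_small_mono hs hv)
          have h2 := (hs v hv).1
          rw [List.map_append, List.map_singleton, Pw_snoc, Pw_snoc, h1.1, h1.2]
          congr 1
          have h3 : Nw v < (tr Q a).1 ↔ Nw v < a.1 := by
            unfold tr
            simp only [lt_min_iff]
            omega
          simp only [h3]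
  exact key _ w rfl h

/-- Induction on `w`: `run_cons_nil`, `cut` of an append, and
`min (min a.2 Q - p) k = min (a.2 - p) k` for `p = Pw w ≤ M`, `M + k ≤ Q`. -/
theorem cut_trunc {M Q k : ℕ} {w : List (ℕ × ℕ)} (h : Small M w) (hQ : M < Q) (hk : M + k ≤ Q) :
    cut k (run [] (w.map (tr Q))) = cut k (run [] w) := by
  induction w with
  | nil => rfl
  | cons a v ih =>
    have hv : v <:+: a :: v := (List.suffix_cons a v).isInfix
    have hs := Trunc_small_mono h hv
    have h2 := (h v hv).2
    rw [List.map_cons, run_cons_nil, run_cons_nil, cut_append, cut_append, ih hs,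
      (trunc_eq hs hQ).2]
    congr 1
    simp only [cut, tr]
    omega

/-- An infix `v` is a suffix of a prefix and a prefix of a suffix; `Nw_right_le`, `Pw_left_le`. -/
theorem small_of {M : ℕ} {w : List (ℕ × ℕ)} (h1 : ∀ v, v <+: w → Nw v ≤ M)
    (h2 : ∀ v, v <:+ w → Pw v ≤ M) : Small M w := by
  rintro v ⟨s, t, rfl⟩
  constructor
  · exact (Nw_right_le s v).trans (h1 _ ⟨t, rfl⟩)
  · refine (Pw_left_le v t).trans (h2 _ ⟨s, ?_⟩)
    rw [List.append_assoc]

end Pool.Agent.W_63dac5_h39
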