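import Pool.Agent.W_63dac5_h37.ExTools
import Pool.Agent.W_63dac5_h39.Trunc

/-!
# Tails and means of `Nw` (proofs row 559, steps 1, 2 and 6)
-/

set_option autoImplicit false

namespace Pool.Agent.W_63dac5_h39

open ENNReal
open Pool.Agent.W_MP_63dac5_pr Pool.Agent.W_63dac5_h37

/-- a symmetric probability on the marks -/
structure Sym (ν : ℕ × ℕ → ℝ≥0∞) : Prop where
  one : ∑' a, ν a = 1
  swap : ∀ a, ν a.swap = ν a

open Classical in
/-- the probability of an event for a word of `n` independent letters -/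
noncomputable def Pr (ν : ℕ × ℕ → ℝ≥0∞) (n : ℕ) (A : List (ℕ × ℕ) → Prop) : ℝ≥0∞ :=
  Ex ν n (fun w => if A w then 1 else 0)

/-- the tail of `Nw` -/
noncomputable def U (ν : ℕ × ℕ → ℝ≥0∞) (n x : ℕ) : ℝ≥0∞ := Pr ν n (fun w => x < Nw w)

/-- the mean of `Nw` -/
noncomputable def mE (ν : ℕ × ℕ → ℝ≥0∞) (n : ℕ) : ℝ≥0∞ := Ex ν n (fun w => (Nw w : ℝ≥0∞))

open Classical in
/-- the tail of the number of right stubs of a letter -/
noncomputable def Gt (ν : ℕ × ℕ → ℝ≥0∞) (x : ℕ) : ℝ≥0∞ :=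
  ∑' a, ν a * (if x < a.2 then 1 else 0)

variable {ν : ℕ × ℕ → ℝ≥0∞}

lemma Pr_mono {n : ℕ} {A B : List (ℕ × ℕ) → Prop} (h : ∀ w, w.length = n → A w → B w) :
    Pr ν n A ≤ Pr ν n B := by
  classical
  unfold Pr
  refine Ex_mono ν n fun w hw => ?_
  by_cases hA : A w
  · rw [if_pos hA, if_pos (h w hw hA)]
  · rw [if_neg hA]; exact bot_le

lemma Pr_le_one (hν : Sym ν) (n : ℕ) (A : List (ℕ × ℕ) → Prop) : Pr ν n A ≤ 1 := by
  classical
  rw [← Ex_one ν hν.one n]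
  unfold Pr
  refine Ex_mono ν n fun w _ => ?_
  split_ifs <;> simp

lemma Pr_or_le (n : ℕ) (A B : List (ℕ × ℕ) → Prop) :
    Pr ν n (fun w => A w ∨ B w) ≤ Pr ν n A + Pr ν n B := by
  classical
  unfold Pr
  rw [← Ex_add]
  refine Ex_mono ν n fun w _ => ?_
  by_cases hA : A w
  · rw [if_pos (Or.inl hA), if_pos hA]; exact le_self_add
  · by_cases hB : B w
    · rw [if_pos (Or.inr hB), if_pos hB]; exact le_add_self
    · rw [if_neg (by tauto)]; exact bot_le

/-- `Ex_mir` -/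
lemma Pr_mir (hν : Sym ν) (n : ℕ) (A : List (ℕ × ℕ) → Prop) :
    Pr ν n (fun w => A (mir w)) = Pr ν n A := by
  classical
  unfold Pr
  exact Ex_mir hν.swap n (fun w => if A w then 1 else 0)

lemma U_eq_Pw (hν : Sym ν) (n x : ℕ) : U ν n x = Pr ν n (fun w => x < Pw w) := by
  unfold U
  rw [← Pr_mir hν]
  simp only [Nw_eq, mir_mir]

/-- `Ex_drop` and `Nw_right_le` -/
lemma U_mono (hν : Sym ν) {s n : ℕ} (h : s ≤ n) (x : ℕ) : U ν s x ≤ U ν n x := by
  classical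
  obtain ⟨d, rfl⟩ := Nat.exists_eq_add_of_le' h
  unfold U Pr
  rw [← Ex_drop hν.one d s]
  refine Ex_mono ν _ fun w _ => ?_
  by_cases h1 : x < Nw (w.drop d)
  · have h2 := Nw_right_le (w.take d) (w.drop d)
    rw [List.take_append_drop] at h2
    rw [if_pos h1, if_pos (h1.trans_le h2)]
  · rw [if_neg h1]; exact bot_le

/-- Markov -/
lemma markov (n x : ℕ) : ((x : ℝ≥0∞) + 1) * U ν n x ≤ mE ν n := by
  classical
  unfold U Pr mE
  rw [← Ex_mul_left]
  refine Ex_mono ν n fun w _ => ?_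
  by_cases h : x < Nw w
  · rw [if_pos h, mul_one]
    exact_mod_cast h
  · rw [if_neg h, mul_zero]; exact bot_le

end Pool.Agent.W_63dac5_h39
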