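import Pool.Agent.W_63dac5_h39.PrA

/-!
# Means of `Nw`, prefixes and infixes (proofs row 559, steps 2 and 6)
-/

set_option autoImplicit false

namespace Pool.Agent.W_63dac5_h39

open ENNReal
open Pool.Agent.W_MP_63dac5_pr Pool.Agent.W_63dac5_h37

variable {ν : ℕ × ℕ → ℝ≥0∞}

lemma mE_le (hν : Sym ν) (n : ℕ) : mE ν n ≤ n := by
  rw [← Ex_const hν.one n (n : ℝ≥0∞)]
  unfold mE
  refine Ex_mono ν n fun w hw => ?_
  have := Nw_le_length w
  rw [hw] at this
  exact_mod_cast this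

lemma mE_zero : mE ν 0 = 0 := by
  simp [mE, Ex, Nw, run, nz]

/-- `Ex_drop` and `Nw_right_le` -/
lemma mE_mono (hν : Sym ν) {s n : ℕ} (h : s ≤ n) : mE ν s ≤ mE ν n := by
  obtain ⟨d, rfl⟩ := Nat.exists_eq_add_of_le' h
  unfold mE
  rw [← Ex_drop hν.one d s]
  refine Ex_mono ν _ fun w _ => ?_
  have h2 := Nw_right_le (w.take d) (w.drop d)
  rw [List.take_append_drop] at h2
  exact_mod_cast h2

/-- `Nw_cons` and the definition of `Ex` (or `Ex_snoc'` with `Pw_snoc`) -/
lemma mE_succ (hν : Sym ν) (n : ℕ) :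
    mE ν (n + 1) = mE ν n + Ex ν n (fun w => Gt ν (Pw w)) := by
  classical
  have h1 : mE ν (n + 1) = ∑' a, ν a * Ex ν n (fun w => (Nw w : ℝ≥0∞) +
      (if Pw w < a.2 then 1 else 0)) := by
    unfold mE
    simp only [Ex, Nw_cons]
    refine tsum_congr fun a => ?_
    congr 1
    refine Ex_congr ν n fun w _ => ?_
    split_ifs <;> simp
  rw [h1]
  have h2 : ∀ a : ℕ × ℕ, ν a * Ex ν n (fun w => (Nw w : ℝ≥0∞) + (if Pw w < a.2 then 1 else 0)) =
      ν a * mE ν n + Ex ν n (fun w => ν a * (if Pw w < a.2 then 1 else 0)) := by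
    intro a
    rw [Ex_add, mul_add, Ex_mul_left]
    rfl
  simp only [h2]
  rw [ENNReal.tsum_add, ENNReal.tsum_mul_right, hν.one, one_mul, ← Ex_tsum]
  rfl

/-- no prefix has more than `M` letters with unused right stubs; union bound over the prefixes
(`Ex_take`, `U_mono`) -/
lemma Pr_prefix_le (hν : Sym ν) (n M : ℕ) :
    Pr ν n (fun w => ¬ ∀ v, v <+: w → Nw v ≤ M) ≤ ((n : ℝ≥0∞) + 1) * U ν n M := by
  classical
  have h1 : Pr ν n (fun w => ¬ ∀ v, v <+: w → Nw v ≤ M) ≤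
      ∑ j ∈ Finset.range (n + 1), Ex ν n (fun w => if M < Nw (w.take j) then 1 else 0) := by
    rw [← Ex_sum]
    unfold Pr
    refine Ex_mono ν n fun w hw => ?_
    by_cases h : ∀ v, v <+: w → Nw v ≤ M
    · rw [if_neg (not_not.2 h)]; exact bot_le
    · rw [if_pos h]
      push Not at h
      obtain ⟨v, hv, hM⟩ := h
      have h2 : v = w.take v.length := List.prefix_iff_eq_take.1 hv
      have h3 : v.length ∈ Finset.range (n + 1) := by
        rw [Finset.mem_range, ← hw]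
        have := hv.length_le
        omega
      refine le_trans ?_ (Finset.single_le_sum
        (f := fun j => if M < Nw (w.take j) then (1 : ℝ≥0∞) else 0) (fun _ _ => bot_le) h3)
      rw [← h2, if_pos hM]
  refine h1.trans ?_
  have h2 : ∀ j ∈ Finset.range (n + 1),
      Ex ν n (fun w => if M < Nw (w.take j) then (1 : ℝ≥0∞) else 0) ≤ U ν n M := by
    intro j hj
    rw [Finset.mem_range] at hj
    obtain ⟨d, rfl⟩ := Nat.exists_eq_add_of_le (show j ≤ n by omega)
    rw [Ex_take hν.one j d (fun w => if M < Nw w then 1 else 0)]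
    refine le_trans (le_of_eq ?_) (U_mono hν (Nat.le_add_right j d) M)
    unfold U Pr
    exact Ex_congr ν j fun w _ => by congr
  refine (Finset.sum_le_sum h2).trans (le_of_eq ?_)
  rw [Finset.sum_const, Finset.card_range, nsmul_eq_mul]
  push_cast
  rfl

/-- `small_of`, `Pr_prefix_le` and its mirror image -/
lemma Pr_not_small (hν : Sym ν) (n M : ℕ) :
    Pr ν n (fun w => ¬ Small M w) ≤ 2 * ((n : ℝ≥0∞) + 1) * U ν n M := by
  have h1 : Pr ν n (fun w => ¬ Small M w) ≤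
      Pr ν n (fun w => (¬ ∀ v, v <+: w → Nw v ≤ M) ∨ ¬ ∀ v, v <+: mir w → Nw v ≤ M) := by
    refine Pr_mono fun w _ h => ?_
    by_contra h2
    push Not at h2
    refine h (small_of h2.1 fun v hv => ?_)
    rw [Pw_eq]
    refine h2.2 _ ?_
    obtain ⟨x, rfl⟩ := hv
    refine ⟨mir x, ?_⟩
    simp [mir]
  refine (h1.trans (Pr_or_le _ _ _)).trans ?_
  have h2 := Pr_mir hν n (fun w => ¬ ∀ v, v <+: w → Nw v ≤ M)
  rw [h2]
  have h3 := Pr_prefix_le hν n M
  calc _ ≤ ((n : ℝ≥0∞) + 1) * U ν n M + ((n : ℝ≥0∞) + 1) * U ν n M := add_le_add h3 h3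
    _ = _ := by ring

end Pool.Agent.W_63dac5_h39
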