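import Pool.Agent.W_63dac5_h39.PrA

/-!
# A Chernoff bound (proofs row 559, step 3)
-/

set_option autoImplicit false

namespace Pool.Agent.W_63dac5_h39

open ENNReal
open Pool.Agent.W_MP_63dac5_pr Pool.Agent.W_63dac5_h37

variable {ν : ℕ × ℕ → ℝ≥0∞}

/-- the generating function of one letter -/
private noncomputable def gen (ν : ℕ × ℕ → ℝ≥0∞) (y : ℕ) : ℝ≥0∞ :=
  ∑' a, ν a * (if y < a.1 then ENNReal.ofReal (Real.exp (-1)) else 1)

private lemma Gt_eq (hν : Sym ν) (y : ℕ) : Gt ν y = ∑' a, ν a * (if y < a.1 then 1 else 0) := by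
  unfold Gt
  rw [← (Equiv.prodComm ℕ ℕ).tsum_eq]
  refine tsum_congr fun a => ?_
  have h1 : (Equiv.prodComm ℕ ℕ) a = a.swap := rfl
  rw [h1, hν.swap, Prod.snd_swap]

private lemma gen_add (hν : Sym ν) (y : ℕ) :
    gen ν y + Gt ν y * ENNReal.ofReal (1 - Real.exp (-1)) = 1 := by
  have he : ENNReal.ofReal (Real.exp (-1)) + ENNReal.ofReal (1 - Real.exp (-1)) = 1 := by
    rw [← ENNReal.ofReal_add (Real.exp_pos _).le
      (sub_nonneg.2 (Real.exp_le_one_iff.2 (by norm_num)))]
    simp
  rw [Gt_eq hν, ← ENNReal.tsum_mul_right, gen, ← ENNReal.tsum_add]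
  refine Eq.trans (tsum_congr fun a => ?_) hν.one
  by_cases h : y < a.1
  · simp only [h, if_true, mul_one]
    rw [← mul_add, he, mul_one]
  · simp [h]

private lemma gen_le (hν : Sym ν) (y : ℕ) :
    gen ν y ≤ ENNReal.ofReal (Real.exp (-((Gt ν y).toReal / 2))) := by
  have h := gen_add hν y
  have hg : gen ν y ≤ 1 := h ▸ le_self_add
  have hgt : gen ν y ≠ ⊤ := ne_top_of_le_ne_top ENNReal.one_ne_top hg
  have hpos : 0 ≤ 1 - Real.exp (-1) := sub_nonneg.2 (Real.exp_le_one_iff.2 (by norm_num))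
  have hr : (gen ν y).toReal + (Gt ν y).toReal * (1 - Real.exp (-1)) = 1 := by
    have h2 : Gt ν y * ENNReal.ofReal (1 - Real.exp (-1)) ≠ ⊤ :=
      ne_top_of_le_ne_top ENNReal.one_ne_top (h ▸ le_add_self)
    have h3 := congrArg ENNReal.toReal h
    rw [ENNReal.toReal_add hgt h2, ENNReal.toReal_mul, ENNReal.toReal_ofReal hpos,
      ENNReal.toReal_one] at h3
    exact h3
  have he : Real.exp (-1) ≤ 1 / 2 := by
    rw [Real.exp_neg, one_div]
    exact inv_anti₀ (by norm_num) (by have := Real.add_one_le_exp 1; linarith)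
  have hG : 0 ≤ (Gt ν y).toReal := ENNReal.toReal_nonneg
  have h1 : (gen ν y).toReal ≤ 1 - (Gt ν y).toReal / 2 := by nlinarith
  have h4 := Real.add_one_le_exp (-((Gt ν y).toReal / 2))
  rw [← ENNReal.ofReal_toReal hgt]
  exact ENNReal.ofReal_le_ofReal (by linarith)

private lemma Ex_exp (b y : ℕ) :
    Ex ν b (fun w => ENNReal.ofReal (Real.exp (-(big y (w.map Prod.fst) : ℝ)))) = gen ν y ^ b := by
  induction b with
  | zero => simp [Ex, big]
  | succ b ih =>
    rw [pow_succ', ← ih]
    simp only [Ex]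
    rw [gen, ← ENNReal.tsum_mul_right]
    refine tsum_congr fun a => ?_
    rw [mul_assoc]
    congr 1
    rw [← Ex_mul_left]
    refine Ex_congr ν b fun w _ => ?_
    by_cases h : y < a.1
    · simp only [List.map_cons, big, h, if_true]
      rw [← ENNReal.ofReal_mul (Real.exp_pos _).le, ← Real.exp_add]
      push_cast
      congr 2
      ring
    · simp [big, h]

/-- Chernoff: with `G` the probability of `y < a.1`, the mean of `exp (- number)` is
`(1 - G (1 - exp (-1))) ^ b ≤ exp (- b G / 2)` (induction on `b`), and the indicator of `number < k` is at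
most `exp k exp (- number)`. -/
theorem chernoff (hν : Sym ν) (b y k : ℕ) :
    Pr ν b (fun w => big y (w.map Prod.fst) < k) ≤
      ENNReal.ofReal (Real.exp (k - b * (Gt ν y).toReal / 2)) := by
  calc Pr ν b (fun w => big y (w.map Prod.fst) < k)
      ≤ Ex ν b (fun w => ENNReal.ofReal (Real.exp k) *
          ENNReal.ofReal (Real.exp (-(big y (w.map Prod.fst) : ℝ)))) := by
        refine Ex_mono ν b fun w _ => ?_
        rw [← ENNReal.ofReal_mul (Real.exp_pos _).le, ← Real.exp_add]
        split_ifs with h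
        · rw [← ENNReal.ofReal_one]
          refine ENNReal.ofReal_le_ofReal (Real.one_le_exp ?_)
          have : ((big y (w.map Prod.fst) : ℕ) : ℝ) ≤ k := by exact_mod_cast h.le
          linarith
        · exact bot_le
    _ = ENNReal.ofReal (Real.exp k) * gen ν y ^ b := by rw [Ex_mul_left, Ex_exp]
    _ ≤ ENNReal.ofReal (Real.exp k) *
          ENNReal.ofReal (Real.exp (-((Gt ν y).toReal / 2))) ^ b := by
        gcongr
        exact gen_le hν y
    _ = ENNReal.ofReal (Real.exp (k - b * (Gt ν y).toReal / 2)) := by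
        rw [← ENNReal.ofReal_pow (Real.exp_pos _).le, ← Real.exp_nat_mul,
          ← ENNReal.ofReal_mul (Real.exp_pos _).le, ← Real.exp_add]
        congr 2
        ring

end Pool.Agent.W_63dac5_h39
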