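import Pool.Agent.W_63dac5_h39.PrA2
import Pool.Agent.W_63dac5_h39.PrB2
import Pool.Agent.W_63dac5_h39.Stk2

/-!
# Comparison of means (proofs row 559, step 3)
-/

set_option autoImplicit false

namespace Pool.Agent.W_63dac5_h39

open ENNReal
open Pool.Agent.W_MP_63dac5_pr Pool.Agent.W_63dac5_h37

variable {ν : ℕ × ℕ → ℝ≥0∞}

/-- the mean number of entries larger than `k` of the stack -/
noncomputable def bE (ν : ℕ × ℕ → ℝ≥0∞) (n k : ℕ) : ℝ≥0∞ :=
  Ex ν n (fun w => (big k (run [] w) : ℝ≥0∞))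

/-- For a word `A ++ B`, `|A| = t`, `|B| = b`, `Nw (A ++ B) ≤ Nw B + big k (run [] A) + t 1(bad)` where
`bad` means `M < Nw A`, or some prefix of `B` has `Nw > M`, or `big (2 M) (B.map fst) < k`
(`Nw_append_le_big`, `big_need_ge`, `Nw_append_le`, `Nw A ≤ t`); `Pr_prefix_le`, `chernoff`, `U_mono`;
`mE t ≤ mE (t + b)`. -/
theorem mean_cmp (hν : Sym ν) {t b M k : ℕ} (hb : b ≤ t)
    (hk : 4 * (k : ℝ) ≤ b * (Gt ν (2 * M)).toReal) :
    (mE ν t).toReal ≤ (mE ν b).toReal + (bE ν t k).toReal +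
      t * (2 * (t + 1) * (U ν t M).toReal + Real.exp (-(b * (Gt ν (2 * M)).toReal / 4))) := by
  classical
  -- the pointwise bound
  have hpt : ∀ w : List (ℕ × ℕ), w.length = t + b →
      (Nw w : ℝ≥0∞) ≤ (Nw (w.drop t) : ℝ≥0∞) + (big k (run [] (w.take t)) : ℝ≥0∞) +
        (t : ℝ≥0∞) * (((if M < Nw (w.take t) then (1 : ℝ≥0∞) else 0) +
          (if ¬ ∀ v, v <+: w.drop t → Nw v ≤ M then (1 : ℝ≥0∞) else 0)) +
          (if big (2 * M) ((w.drop t).map Prod.fst) < k then (1 : ℝ≥0∞) else 0)) := by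
    intro w hw
    have hAB : w.take t ++ w.drop t = w := List.take_append_drop t w
    have hA : (w.take t).length = t := by rw [List.length_take]; omega
    by_cases hg : Nw (w.take t) ≤ M ∧ (∀ v, v <+: w.drop t → Nw v ≤ M) ∧
        k ≤ big (2 * M) ((w.drop t).map Prod.fst)
    · obtain ⟨g1, g2, g3⟩ := hg
      have h1 := Nw_append_le_big g1 (g3.trans (big_need_ge g2))
      rw [hAB] at h1
      refine le_trans ?_ le_self_add
      exact_mod_cast h1
    · have h1 := Nw_append_le (w.take t) (w.drop t)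
      rw [hAB] at h1
      have h2 := Nw_le_length (w.take t)
      rw [hA] at h2
      have h3 : Nw w ≤ Nw (w.drop t) + t := by omega
      have h4 : (1 : ℝ≥0∞) ≤ ((if M < Nw (w.take t) then (1 : ℝ≥0∞) else 0) +
          (if ¬ ∀ v, v <+: w.drop t → Nw v ≤ M then (1 : ℝ≥0∞) else 0)) +
          (if big (2 * M) ((w.drop t).map Prod.fst) < k then (1 : ℝ≥0∞) else 0) := by
        by_cases g1 : M < Nw (w.take t)
        · rw [if_pos g1, add_assoc]; exact le_self_add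
        · by_cases g2 : ¬ ∀ v, v <+: w.drop t → Nw v ≤ M
          · rw [if_pos g2]
            exact le_trans le_add_self le_self_add
          · have g3 : big (2 * M) ((w.drop t).map Prod.fst) < k := by
              by_contra g3
              exact hg ⟨not_lt.1 g1, not_not.1 g2, not_lt.1 g3⟩
            rw [if_pos g3]; exact le_add_self
      calc (Nw w : ℝ≥0∞) ≤ (Nw (w.drop t) : ℝ≥0∞) + (t : ℝ≥0∞) := by exact_mod_cast h3
        _ ≤ ((Nw (w.drop t) : ℝ≥0∞) + (big k (run [] (w.take t)) : ℝ≥0∞)) + (t : ℝ≥0∞) * 1 := by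
            rw [mul_one]
            exact add_le_add le_self_add le_rfl
        _ ≤ _ := add_le_add le_rfl (mul_le_mul' le_rfl h4)
  -- expectations
  have hE : mE ν t ≤ mE ν b + bE ν t k + (t : ℝ≥0∞) * ((U ν t M +
      Pr ν b (fun w => ¬ ∀ v, v <+: w → Nw v ≤ M)) +
      Pr ν b (fun w => big (2 * M) (w.map Prod.fst) < k)) := by
    refine (mE_mono hν (Nat.le_add_right t b)).trans ?_
    unfold mE
    refine (Ex_mono ν (t + b) hpt).trans (le_of_eq ?_)
    rw [Ex_add, Ex_add, Ex_mul_left, Ex_add, Ex_add]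
    rw [Ex_drop hν.one t b (fun w => (Nw w : ℝ≥0∞)),
      Ex_take hν.one t b (fun w => (big k (run [] w) : ℝ≥0∞)),
      Ex_take hν.one t b (fun w => if M < Nw w then (1 : ℝ≥0∞) else 0),
      Ex_drop hν.one t b (fun w => if ¬ ∀ v, v <+: w → Nw v ≤ M then (1 : ℝ≥0∞) else 0),
      Ex_drop hν.one t b (fun w => if big (2 * M) (w.map Prod.fst) < k then (1 : ℝ≥0∞) else 0)]
    unfold bE U Pr
    congr
    all_goals
      funext w
      congr
  set e : ℝ := Real.exp (-(b * (Gt ν (2 * M)).toReal / 4)) with he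
  have he0 : 0 ≤ e := (Real.exp_pos _).le
  have hc : Pr ν b (fun w => big (2 * M) (w.map Prod.fst) < k) ≤ ENNReal.ofReal e := by
    refine (chernoff hν b (2 * M) k).trans (ENNReal.ofReal_le_ofReal ?_)
    rw [he]
    exact Real.exp_le_exp.2 (by linarith)
  have hp : Pr ν b (fun w => ¬ ∀ v, v <+: w → Nw v ≤ M) ≤ ((t : ℝ≥0∞) + 1) * U ν t M := by
    refine (Pr_prefix_le hν b M).trans ?_
    refine mul_le_mul' (add_le_add ?_ le_rfl) (U_mono hν hb M)
    exact_mod_cast hb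
  have hU : U ν t M + ((t : ℝ≥0∞) + 1) * U ν t M ≤ 2 * ((t : ℝ≥0∞) + 1) * U ν t M := by
    calc U ν t M + ((t : ℝ≥0∞) + 1) * U ν t M
        = 1 * U ν t M + ((t : ℝ≥0∞) + 1) * U ν t M := by rw [one_mul]
      _ ≤ ((t : ℝ≥0∞) + 1) * U ν t M + ((t : ℝ≥0∞) + 1) * U ν t M :=
          add_le_add (mul_le_mul' le_add_self le_rfl) le_rfl
      _ = 2 * ((t : ℝ≥0∞) + 1) * U ν t M := by rw [← two_mul, mul_assoc]
  have hF : mE ν t ≤ mE ν b + bE ν t k + (t : ℝ≥0∞) *
      (2 * ((t : ℝ≥0∞) + 1) * U ν t M + ENNReal.ofReal e) := by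
    refine hE.trans (add_le_add le_rfl (mul_le_mul' le_rfl (add_le_add ?_ hc)))
    exact (add_le_add le_rfl hp).trans hU
  -- finiteness
  have f1 : mE ν b ≠ ⊤ := ne_top_of_le_ne_top (ENNReal.natCast_ne_top b) (mE_le hν b)
  have f2 : bE ν t k ≠ ⊤ := by
    refine ne_top_of_le_ne_top (ENNReal.natCast_ne_top t) (le_trans ?_ (mE_le hν t))
    unfold bE mE
    refine Ex_mono ν t fun w _ => ?_
    have h1 := big_anti (Nat.zero_le k) (run [] w)
    rw [big_zero] at h1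
    exact_mod_cast h1
  have f3 : U ν t M ≠ ⊤ := ne_top_of_le_ne_top ENNReal.one_ne_top (Pr_le_one hν t _)
  have f4 : 2 * ((t : ℝ≥0∞) + 1) * U ν t M ≠ ⊤ :=
    ENNReal.mul_ne_top (ENNReal.mul_ne_top (by simp)
      (ENNReal.add_ne_top.2 ⟨ENNReal.natCast_ne_top t, ENNReal.one_ne_top⟩)) f3
  have f5 : 2 * ((t : ℝ≥0∞) + 1) * U ν t M + ENNReal.ofReal e ≠ ⊤ :=
    ENNReal.add_ne_top.2 ⟨f4, ENNReal.ofReal_ne_top⟩
  have f6 : (t : ℝ≥0∞) * (2 * ((t : ℝ≥0∞) + 1) * U ν t M + ENNReal.ofReal e) ≠ ⊤ :=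
    ENNReal.mul_ne_top (ENNReal.natCast_ne_top t) f5
  have hG := ENNReal.toReal_mono (ENNReal.add_ne_top.2 ⟨ENNReal.add_ne_top.2 ⟨f1, f2⟩, f6⟩) hF
  rw [ENNReal.toReal_add (ENNReal.add_ne_top.2 ⟨f1, f2⟩) f6, ENNReal.toReal_add f1 f2,
    ENNReal.toReal_mul, ENNReal.toReal_add f4 ENNReal.ofReal_ne_top, ENNReal.toReal_mul,
    ENNReal.toReal_mul, ENNReal.toReal_add (ENNReal.natCast_ne_top t) ENNReal.one_ne_top,
    ENNReal.toReal_ofReal he0, ENNReal.toReal_natCast, ENNReal.toReal_one,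
    ENNReal.toReal_ofNat] at hG
  exact hG

end Pool.Agent.W_63dac5_h39
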