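import Pool.Agent.W_63dac5_h39.PrC
import Pool.Agent.W_63dac5_h39.Adj
import Pool.Agent.W_63dac5_h39.Dev2

/-!
# The lower tail of `Nw` (proofs row 559, step 7)
-/

set_option autoImplicit false

namespace Pool.Agent.W_63dac5_h39

open ENNReal
open Pool.Agent.W_MP_63dac5_pr Pool.Agent.W_63dac5_h37

variable {ν : ℕ × ℕ → ℝ≥0∞}

/-- the function to which the exponential bound is applied -/
noncomputable def Z (k Q : ℕ) (w : List (ℕ × ℕ)) : ℝ := (cut k (run [] (w.map (tr Q))) : ℝ)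

/-- `0 ≤ Z ≤ k n` (`cut_le`) -/
lemma Z_bound (k Q : ℕ) (w : List (ℕ × ℕ)) : 0 ≤ Z k Q w ∧ Z k Q w ≤ k * w.length := by
  refine ⟨Nat.cast_nonneg _, ?_⟩
  have h1 := cut_le k (run [] (w.map (tr Q)))
  have h2 : nz (run [] (w.map (tr Q))) ≤ w.length := by
    have h := Nw_le_length (w.map (tr Q))
    rw [List.length_map] at h
    exact h
  unfold Z
  calc ((cut k (run [] (w.map (tr Q))) : ℕ) : ℝ) ≤ ((k * nz (run [] (w.map (tr Q))) : ℕ) : ℝ) :=
        Nat.cast_le.2 h1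
    _ ≤ ((k * w.length : ℕ) : ℝ) := Nat.cast_le.2 (Nat.mul_le_mul_left k h2)
    _ = k * w.length := by push_cast; rfl

/-- `cut_run_lip` for the truncated letters -/
lemma Z_lip (k Q : ℕ) (x : List (ℕ × ℕ)) (a : ℕ × ℕ) (y : List (ℕ × ℕ)) :
    |Z k Q (x ++ a :: y) - Z k Q (x ++ (0, 0) :: y)| ≤ (min a.1 Q : ℕ) + (min a.2 Q : ℕ) := by
  have h := cut_run_lip k (x.map (tr Q)) (tr Q a) (y.map (tr Q))
  have h0 : tr Q (0, 0) = (0, 0) := by simp [tr]
  unfold Z
  rw [List.map_append, List.map_append, List.map_cons, List.map_cons, h0]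
  exact h

private lemma PrD_U_ne (hν : Sym ν) (n x : ℕ) : U ν n x ≠ ∞ :=
  ne_top_of_le_ne_top ENNReal.one_ne_top (Pr_le_one hν n _)

private lemma PrD_ExZ_ne (hν : Sym ν) (t k Q : ℕ) :
    Ex ν t (fun w => ENNReal.ofReal (Z k Q w)) ≠ ∞ := by
  refine ne_top_of_le_ne_top (b := ENNReal.ofReal ((k : ℝ) * t)) ENNReal.ofReal_ne_top ?_
  refine (Ex_mono ν t (g := fun _ => ENNReal.ofReal ((k : ℝ) * t)) fun w hw => ?_).trans ?_
  · refine ENNReal.ofReal_le_ofReal ?_
    have h := (Z_bound k Q w).2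
    rwa [hw] at h
  · rw [Ex_const hν.one]

private lemma PrD_Z_small {M k : ℕ} {w : List (ℕ × ℕ)} (h : Small M w) :
    Z k (M + k + 1) w = (cut k (run [] w) : ℝ) := by
  unfold Z
  rw [cut_trunc h (by omega) (by omega)]

/-- The mean of `Z`: `Z ≥ k big k (run [] w)` on `Small M` (`cut_trunc`, `mul_big_le_cut`), and
`big k ≤ n`. -/
lemma Z_mean (hν : Sym ν) {t M k : ℕ} :
    k * (bE ν t k).toReal - k * t * (2 * (t + 1) * (U ν t M).toReal) ≤
      (Ex ν t (fun w => ENNReal.ofReal (Z k (M + k + 1) w))).toReal := by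
  classical
  have hpt : ∀ w : List (ℕ × ℕ), w.length = t →
      (k : ℝ≥0∞) * (big k (run [] w) : ℝ≥0∞) ≤ ENNReal.ofReal (Z k (M + k + 1) w) +
        ((k : ℝ≥0∞) * t) * (if ¬ Small M w then 1 else 0) := by
    intro w hw
    by_cases hs : Small M w
    · rw [PrD_Z_small hs, if_neg (not_not.2 hs), mul_zero, add_zero, ENNReal.ofReal_natCast]
      have h := mul_big_le_cut k (run [] w)
      exact_mod_cast h
    · rw [if_pos hs, mul_one]
      refine le_trans ?_ le_add_self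
      have h1 : big k (run [] w) ≤ t := by
        calc big k (run [] w) ≤ big 0 (run [] w) := big_anti (Nat.zero_le k) _
          _ = Nw w := big_zero _
          _ ≤ w.length := Nw_le_length w
          _ = t := hw
      gcongr
  have h1 : (k : ℝ≥0∞) * bE ν t k ≤ Ex ν t (fun w => ENNReal.ofReal (Z k (M + k + 1) w)) +
      ((k : ℝ≥0∞) * t) * (2 * ((t : ℝ≥0∞) + 1) * U ν t M) := by
    calc (k : ℝ≥0∞) * bE ν t k
        = Ex ν t (fun w => (k : ℝ≥0∞) * (big k (run [] w) : ℝ≥0∞)) := (Ex_mul_left ν t _ _).symm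
      _ ≤ Ex ν t (fun w => ENNReal.ofReal (Z k (M + k + 1) w) +
            ((k : ℝ≥0∞) * t) * (if ¬ Small M w then 1 else 0)) := Ex_mono ν t hpt
      _ = Ex ν t (fun w => ENNReal.ofReal (Z k (M + k + 1) w)) +
            ((k : ℝ≥0∞) * t) * Pr ν t (fun w => ¬ Small M w) := by
          rw [Ex_add, Ex_mul_left]
          unfold Pr
          congr 2
          refine Ex_congr ν t fun w _ => ?_
          congr
      _ ≤ _ := by
          gcongr
          exact Pr_not_small hν t M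
  have hU := PrD_U_ne hν t M
  have hZ := PrD_ExZ_ne hν t k (M + k + 1)
  have hB : ((k : ℝ≥0∞) * t) * (2 * ((t : ℝ≥0∞) + 1) * U ν t M) ≠ ∞ := by
    refine ENNReal.mul_ne_top (ENNReal.mul_ne_top (ENNReal.natCast_ne_top _)
      (ENNReal.natCast_ne_top _)) (ENNReal.mul_ne_top (ENNReal.mul_ne_top (by norm_num) ?_) hU)
    exact ENNReal.add_ne_top.2 ⟨ENNReal.natCast_ne_top _, ENNReal.one_ne_top⟩
  have h2 := ENNReal.toReal_mono (ENNReal.add_ne_top.2 ⟨hZ, hB⟩) h1
  rw [ENNReal.toReal_add hZ hB, ENNReal.toReal_mul, ENNReal.toReal_mul, ENNReal.toReal_mul,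
    ENNReal.toReal_mul, ENNReal.toReal_mul, ENNReal.toReal_add (ENNReal.natCast_ne_top _)
      ENNReal.one_ne_top, ENNReal.toReal_natCast, ENNReal.toReal_natCast, ENNReal.toReal_one,
    ENNReal.toReal_ofNat] at h2
  linarith

/-- On `Small M`, `4 Nw w < m` implies `Z < k m / 4` (`cut_trunc`, `cut_le`), which is at most
`mean of Z - k m / 8`; `lower_tail` with `W a = min a.1 Q + min a.2 Q ≤ 2 Q`, `Q = M + k + 1`,
`s = k m / 8`; `Pr_not_small`. -/
theorem low_tail (hν : Sym ν) {v : ℝ} (hv0 : 0 ≤ v)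
    (hv : ∑' a : ℕ × ℕ, ν a * ENNReal.ofReal (((a.1 : ℝ) + a.2) ^ 2) ≤ ENNReal.ofReal v)
    {t M k : ℕ} {θ : ℝ} (hθ : 0 ≤ θ) (hθ2 : θ * (2 * (M + k + 1)) ≤ 1) (hk : 0 < k)
    (h1 : (mE ν t).toReal / 2 ≤ (bE ν t k).toReal)
    (h2 : t * (2 * (t + 1) * (U ν t M).toReal) ≤ (mE ν t).toReal / 8) :
    (Pr ν t (fun w => 4 * (Nw w : ℝ) < (mE ν t).toReal)).toReal ≤
      2 * (t + 1) * (U ν t M).toReal +
        Real.exp (-θ * (k * (mE ν t).toReal / 8) + t * (θ ^ 2 * v)) := by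
  classical
  set m : ℝ := (mE ν t).toReal with hm
  have hm0 : 0 ≤ m := ENNReal.toReal_nonneg
  set E : ℝ := (Ex ν t (fun w => ENNReal.ofReal (Z k (M + k + 1) w))).toReal with hE
  have hk' : (0 : ℝ) < k := Nat.cast_pos.2 hk
  have hEge : k * m / 4 + k * m / 8 ≤ E := by
    have h3 := Z_mean hν (t := t) (M := M) (k := k)
    rw [← hE] at h3
    have h4 : k * (m / 2) ≤ k * (bE ν t k).toReal := mul_le_mul_of_nonneg_left h1 hk'.le
    have h5 : k * (t * (2 * (t + 1) * (U ν t M).toReal)) ≤ k * (m / 8) :=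
      mul_le_mul_of_nonneg_left h2 hk'.le
    nlinarith [h3, h4, h5]
  -- the weights
  set W : ℕ × ℕ → ℝ := fun a =>
    ((min a.1 (M + k + 1) : ℕ) : ℝ) + ((min a.2 (M + k + 1) : ℕ) : ℝ) with hW
  have hW0 : ∀ a, 0 ≤ W a := fun a => by
    simp only [hW]
    positivity
  have hW1 : ∀ a, θ * W a ≤ 1 := by
    intro a
    have h3 : W a ≤ 2 * (M + k + 1) := by
      have e1 : ((min a.1 (M + k + 1) : ℕ) : ℝ) ≤ ((M + k + 1 : ℕ) : ℝ) :=
        Nat.cast_le.2 (min_le_right _ _)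
      have e2 : ((min a.2 (M + k + 1) : ℕ) : ℝ) ≤ ((M + k + 1 : ℕ) : ℝ) :=
        Nat.cast_le.2 (min_le_right _ _)
      push_cast at e1 e2
      simp only [hW]
      push_cast
      linarith
    exact (mul_le_mul_of_nonneg_left h3 hθ).trans hθ2
  have hW2 : ∑' a, ν a * ENNReal.ofReal (W a ^ 2) ≤ ENNReal.ofReal v := by
    refine le_trans (ENNReal.tsum_le_tsum fun a => ?_) hv
    have e1 : ((min a.1 (M + k + 1) : ℕ) : ℝ) ≤ (a.1 : ℝ) := Nat.cast_le.2 (min_le_left _ _)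
    have e2 : ((min a.2 (M + k + 1) : ℕ) : ℝ) ≤ (a.2 : ℝ) := Nat.cast_le.2 (min_le_left _ _)
    have e3 : W a ≤ (a.1 : ℝ) + a.2 := add_le_add e1 e2
    exact mul_le_mul' le_rfl (ENNReal.ofReal_le_ofReal (pow_le_pow_left₀ (hW0 a) e3 2))
  have hlt := lower_tail hν.one (0, 0) (W := W) (C := k * t) (s := k * m / 8) hθ hW1 hv0 hW2 t
    (Z k (M + k + 1)) (fun w => (Z_bound k _ w).1)
    (fun w hw => by
      have h := (Z_bound k (M + k + 1) w).2
      rwa [hw] at h)
    (fun x a y => Z_lip k (M + k + 1) x a y)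
  rw [← hE] at hlt
  have hle : Pr ν t (fun w => 4 * (Nw w : ℝ) < m) ≤
      2 * ((t : ℝ≥0∞) + 1) * U ν t M +
        ENNReal.ofReal (Real.exp (-θ * (k * m / 8) + t * (θ ^ 2 * v))) := by
    calc Pr ν t (fun w => 4 * (Nw w : ℝ) < m)
        ≤ Pr ν t (fun w => ¬ Small M w ∨ Z k (M + k + 1) w + k * m / 8 ≤ E) := by
          refine Pr_mono fun w hw h4 => ?_
          by_cases hs : Small M w
          · right
            rw [PrD_Z_small hs]
            have e1 : (cut k (run [] w) : ℝ) ≤ k * (Nw w : ℝ) := by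
              have := cut_le k (run [] w)
              have h' : cut k (run [] w) ≤ k * Nw w := this
              exact_mod_cast h'
            have e2 : k * (Nw w : ℝ) ≤ k * (m / 4) :=
              mul_le_mul_of_nonneg_left (by linarith) hk'.le
            linarith
          · exact Or.inl hs
      _ ≤ Pr ν t (fun w => ¬ Small M w) +
            Pr ν t (fun w => Z k (M + k + 1) w + k * m / 8 ≤ E) := Pr_or_le t _ _
      _ ≤ _ := by
          refine add_le_add (Pr_not_small hν t M) (le_trans (le_of_eq ?_) hlt)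
          unfold Pr
          refine Ex_congr ν t fun w _ => ?_
          congr
  have hU := PrD_U_ne hν t M
  have hA : 2 * ((t : ℝ≥0∞) + 1) * U ν t M ≠ ∞ := by
    refine ENNReal.mul_ne_top (ENNReal.mul_ne_top (by norm_num) ?_) hU
    exact ENNReal.add_ne_top.2 ⟨ENNReal.natCast_ne_top _, ENNReal.one_ne_top⟩
  have h6 := ENNReal.toReal_mono (ENNReal.add_ne_top.2 ⟨hA, ENNReal.ofReal_ne_top⟩) hle
  rw [ENNReal.toReal_add hA ENNReal.ofReal_ne_top, ENNReal.toReal_ofReal (Real.exp_pos _).le,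
    ENNReal.toReal_mul, ENNReal.toReal_mul, ENNReal.toReal_add (ENNReal.natCast_ne_top _)
      ENNReal.one_ne_top, ENNReal.toReal_natCast, ENNReal.toReal_one, ENNReal.toReal_ofNat] at h6
  exact h6

end Pool.Agent.W_63dac5_h39
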