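import Pool.Agent.W_63dac5_h37.Words

/-!
# Counting large entries
(proofs row 559, steps 1 and 3)
-/

set_option autoImplicit false

namespace Pool.Agent.W_63dac5_h39

open Pool.Agent.W_MP_63dac5_pr Pool.Agent.W_63dac5_h37

/-- the number of entries larger than `k` -/
def big (k : ℕ) : List ℕ → ℕ
  | [] => 0
  | a :: t => (if k < a then 1 else 0) + big k t

/-- the sum of the numbers `min a k` over the entries `a` -/
def cut (k : ℕ) : List ℕ → ℕ
  | [] => 0
  | a :: t => min a k + cut k t

lemma big_zero (u : List ℕ) : big 0 u = nz u := by
  induction u with
  | nil => rfl
  | cons a t ih =>
    cases a with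
    | zero => simp [big, nz, ih]
    | succ a => simp [big, nz, ih]; omega

lemma big_append (k : ℕ) (u v : List ℕ) : big k (u ++ v) = big k u + big k v := by
  induction u with
  | nil => simp [big]
  | cons a t ih => simp only [List.cons_append, big, ih]; omega

lemma big_anti {k l : ℕ} (h : k ≤ l) (u : List ℕ) : big l u ≤ big k u := by
  induction u with
  | nil => simp [big]
  | cons a t ih =>
    simp only [big]
    split_ifs <;> omega

lemma big_le_length (k : ℕ) (u : List ℕ) : big k u ≤ u.length := by
  induction u with
  | nil => simp [big]
  | cons a t ih =>
    simp only [big, List.length_cons]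
    split_ifs <;> omega

lemma mul_big_le_cut (k : ℕ) (u : List ℕ) : k * big k u ≤ cut k u := by
  induction u with
  | nil => simp [big, cut]
  | cons a t ih =>
    simp only [big, cut]
    rw [Nat.mul_add]
    split_ifs with h
    · rw [min_eq_right (by omega : k ≤ a)]; omega
    · simp only [Nat.mul_zero]; omega

lemma cut_le (k : ℕ) (u : List ℕ) : cut k u ≤ k * nz u := by
  induction u with
  | nil => simp [nz, cut]
  | cons a t ih =>
    cases a with
    | zero => simpa [nz, cut] using ih
    | succ a =>
      simp only [nz, cut]
      rw [Nat.mul_add]
      have := min_le_right (a + 1) k
      omega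

lemma cut_append (k : ℕ) (u v : List ℕ) : cut k (u ++ v) = cut k u + cut k v := by
  induction u with
  | nil => simp [cut]
  | cons a t ih => simp only [List.cons_append, cut, ih]; omega

lemma serve_length_stk (l : ℕ) (u : List ℕ) : (serve l u).length = u.length := by
  induction u generalizing l with
  | nil => cases l <;> simp [serve]
  | cons a t ih =>
    cases l with
    | zero => simp [serve_zero]
    | succ l => cases a <;> simp [serve, ih]

lemma run_length_stk (u : List ℕ) (w : List (ℕ × ℕ)) :
    (run u w).length = u.length + w.length := by
  induction w generalizing u with
  | nil => simp [run]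
  | cons a w ih =>
    simp only [run, ih, stp, List.length_cons, serve_length_stk]; omega

/-- the stack has as many entries as the word has letters -/
lemma Nw_le_length (w : List (ℕ × ℕ)) : Nw w ≤ w.length := by
  unfold Nw
  rw [← big_zero]
  refine (big_le_length 0 _).trans ?_
  rw [run_length_stk]; simp

lemma big_serve_le (k l : ℕ) (u : List ℕ) : big k (serve l u) ≤ big k u := by
  induction u generalizing l with
  | nil => cases l <;> simp [serve]
  | cons a t ih =>
    cases l with
    | zero => simp [serve_zero]
    | succ l =>
      cases a with
      | zero =>
        have := ih (l + 1)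
        simp only [serve, big]; omega
      | succ a =>
        have := ih l
        simp only [serve, big]
        split_ifs <;> omega

/-- serving does not increase the number of nonzero entries -/
lemma nz_serve_le (l : ℕ) (u : List ℕ) : nz (serve l u) ≤ nz u := by
  rw [← big_zero, ← big_zero]
  exact big_serve_le 0 l u

lemma nz_srvL_le (ls u : List ℕ) : nz (srvL ls u) ≤ nz u := by
  induction ls generalizing u with
  | nil => simp [srvL]
  | cons l ls ih => exact (ih (serve l u)).trans (nz_serve_le l u)

/-- a demand which is at least the number of nonzero entries reduces all of them -/
lemma big_serve_full {k l : ℕ} {u : List ℕ} (h : nz u ≤ l) : big k (serve l u) = big (k + 1) u := by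
  induction u generalizing l with
  | nil => cases l <;> simp [serve, big]
  | cons a t ih =>
    cases l with
    | zero =>
      cases a with
      | zero =>
        have h1 : nz t ≤ 0 := by simpa [nz] using h
        have := ih h1
        rw [serve_zero] at this
        simp [serve_zero, big, this]
      | succ a => simp [nz] at h
    | succ l =>
      cases a with
      | zero =>
        have h1 : nz t ≤ l + 1 := by simpa [nz] using h
        have := ih h1
        simp [serve, big, this]
      | succ a =>
        have h1 : nz t ≤ l := by simp [nz] at h; omega
        have := ih h1
        simp [serve, big, this]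

end Pool.Agent.W_63dac5_h39
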